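import Pool.Agent.N976.UE.Def2

/-!
# Energy concentration for the Euler equations under tower-sparse workless constraints

The scales are `q 0 = Q`, `q (n+1) = exp (q n)`. The initial velocity contains the packets of all
scales with tiny amplitudes (the seeds). While mode `n` hands over its energy to mode `n + 1`, the
pair `(x n, x (n+1))` rotates by the angle `Θ`, and mode `n + 2` grows like `exp (ρ n Θ)`,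
`ρ n = (q (n+1) / q n)^5`: with the seed `exp (-(π/2) ρ n)` it becomes visible at `Θ = π / 2`.
-/

open Set Filter Topology MeasureTheory
open scoped ContDiff InnerProductSpace

set_option autoImplicit false

namespace Pool.Agent.N976.EE

open Pool.Agent.N976.SC Pool.Agent.N976.EN Pool.Agent.N976.UE

/-- The scales. -/
noncomputable def tw (Q : ℝ) : ℕ → ℝ
  | 0 => Q
  | n + 1 => Real.exp (tw Q n)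

/-- `Λ n = (q n)^5`. -/
noncomputable def La (q : ℕ → ℝ) (n : ℕ) : ℝ := q n ^ 5

/-- The ratios. -/
noncomputable def rho (q : ℕ → ℝ) (n : ℕ) : ℝ := (q (n + 1) / q n) ^ 5

/-- The visible amplitude. -/
noncomputable def vis (q : ℕ → ℝ) (n : ℕ) : ℝ := q n ^ (-(5 / 2 : ℝ))

/-- The seeds. -/
noncomputable def seed (q : ℕ → ℝ) (n : ℕ) : ℝ := Real.exp (-(Real.pi / 2 * rho q n))

/-- The finite systems without viscosity. -/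
def FE (q : ℕ → ℝ) (N : ℕ) (x : ℕ → ℝ → ℝ) : Prop :=
  FS (La q) (fun _ => 1) (fun _ => 0) (fun _ => 0) N x

/-- Two-sided bounds for the modes which are not yet active. -/
def Bd (q : ℕ → ℝ) (N n k : ℕ) (x : ℕ → ℝ) : Prop := ∀ m, m + 2 < N → k ≤ m →
  seed q m * Real.exp (-(rho q n / q n ^ 2)) ≤ x (m + 2) ∧
    x (m + 2) ≤ seed q m * Real.exp (rho q n / q n ^ 2)

/-- (E1) One stage. -/
def S_E1 : Prop := ∃ Q₁ : ℝ, 2 ≤ Q₁ ∧ ∀ Q ≥ Q₁, ∀ (N : ℕ) (x : ℕ → ℝ → ℝ), FE (tw Q) N x →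
  ∀ n : ℕ, n + 3 ≤ N → ∀ τ : ℝ, 0 ≤ τ → ∑ m ∈ Finset.range N, x m τ ^ 2 ≤ 51 / 50 →
  9 / 10 ≤ x n τ → x (n + 1) τ = vis (tw Q) n → Bd (tw Q) N n n (fun m => x m τ) →
  ∃ τ' > τ, 1 / tw Q n ^ 5 ≤ τ' - τ ∧ τ' - τ ≤ 8 * Real.log (tw Q n) / tw Q n ^ 5 ∧
    x (n + 2) τ' = vis (tw Q) (n + 1) ∧ |x n τ'| ≤ 3 / tw Q n ^ 2 ∧ 0 < x (n + 1) τ' ∧
    ∀ t ∈ Icc τ τ', |x (n + 2) t| ≤ vis (tw Q) (n + 1) ∧
      Bd (tw Q) N (n + 1) (n + 1) (fun m => x m t)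

/-- The cascade in the system with the modes `0, …, N - 1`. -/
structure DN (ε : ℝ) (q : ℕ → ℝ) (N : ℕ) (σ : ℕ → ℝ) (x : ℕ → ℝ → ℝ) : Prop where
  fs : FE q N x
  ini0 : x 0 0 = 1
  ini1 : x 1 0 = vis q 0
  ini : ∀ n, n + 2 < N → x (n + 2) 0 = seed q n
  σ0 : σ 0 = 0
  σ1 : ∀ n, n + 3 ≤ N → 1 / q n ^ 5 ≤ σ (n + 1) - σ n ∧
    σ (n + 1) - σ n ≤ 8 * Real.log (q n) / q n ^ 5
  act : ∀ n, n + 3 ≤ N → ∀ t ∈ Icc 0 (σ (n + 1)), ∀ m ≥ n + 1,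
    |x (m + 2) t| ≤ Real.exp (-rho q m)
  en : ∀ t, 0 ≤ t → ∑ m ∈ Finset.range N, x m t ^ 2 = ∑ m ∈ Finset.range N, x m 0 ^ 2
  upp : ∑ m ∈ Finset.range N, x m 0 ^ 2 ≤ 1 + ε
  left : ∀ m n, m ≤ n → n + 3 ≤ N → ∀ t ∈ Icc (σ (m + 1)) (σ (n + 1)), |x m t| ≤ ε / 2 ^ m

/-- (E2) The cascade in the finite systems. -/
def S_E2 : Prop := ∀ ε : ℝ, 0 < ε → ∃ Q₀ : ℝ, ∀ Q ≥ Q₀, ∀ N ≥ 3,
  ∃ (σ : ℕ → ℝ) (x : ℕ → ℝ → ℝ), DN ε (tw Q) N σ x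

/-- The cascade. -/
structure DI (ε : ℝ) (q : ℕ → ℝ) (T : ℝ) (σ : ℕ → ℝ) (x : ℕ → ℝ → ℝ) : Prop where
  T0 : 0 < T
  σ0 : σ 0 = 0
  σm : StrictMono σ
  σT : ∀ n, σ n < T
  σl : Tendsto σ atTop (𝓝 T)
  ini0 : x 0 0 = 1
  ini1 : x 1 0 = vis q 0
  ini : ∀ n, x (n + 2) 0 = seed q n
  ode : ∀ n, ∀ t ∈ Ico 0 T, HasDerivWithinAt (x n)
    (yq (La q) (fun _ => 0) (fun m => x m t) n) (Ico 0 T) t
  act : ∀ n, ∀ t ∈ Icc 0 (σ (n + 1)), ∀ m ≥ n + 1, |x (m + 2) t| ≤ Real.exp (-rho q m)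
  en : ∀ t ∈ Ico 0 T, ∑' m, x m t ^ 2 = ∑' m, x m 0 ^ 2
  upp : ∑' m, x m 0 ^ 2 ≤ 1 + ε
  left : ∀ m, ∀ t ∈ Ico (σ (m + 1)) T, |x m t| ≤ ε / 2 ^ m

/-- (E3) The limit `N → ∞`. -/
def S_E3 : Prop := ∀ (ε Q : ℝ), 4 ≤ Q → 0 < ε →
  (∀ N ≥ 3, ∃ (σ : ℕ → ℝ) (x : ℕ → ℝ → ℝ), DN ε (tw Q) N σ x) →
  ∃ (T : ℝ) (σ : ℕ → ℝ) (x : ℕ → ℝ → ℝ), DI ε (tw Q) T σ x

/-- (E4) The cascade is smooth in time with rapid decay. -/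
def S_E4 : Prop := ∀ (ε Q T : ℝ) (σ : ℕ → ℝ) (x : ℕ → ℝ → ℝ), 4 ≤ Q →
  DI ε (tw Q) T σ x → SmR (tw Q) T x

/-- (E5) The table, for all very lacunary sequences of scales. -/
def S_E5 : Prop := ∃ Q₁ β lam N : ℝ, ∀ q : ℕ → ℝ, (∀ n, Q₁ ≤ q n) → (∀ n, Q₁ * q n ≤ q (n + 1)) →
  ∃ (P : ℕ → E3 → E3) (r : Fin 4 × ℕ → E3 → E3), (∀ n, r (3, n) = fun _ => 0) ∧
    TY q (La q) (fun _ => 1) (fun n => q n ^ 4) (fun _ => 0) β lam N P r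

/-- (E6) The residual is the sum of the reaction forces. -/
def S_E6 : Prop := ∀ (q : ℕ → ℝ) (β lam N : ℝ) (P : ℕ → E3 → E3)
  (r : Fin 4 × ℕ → E3 → E3), TY q (La q) (fun _ => 1) (fun n => q n ^ 4) (fun _ => 0) β lam N P r →
  (∀ n, 4 ≤ q n) → (∀ n, 4 * q n ≤ q (n + 1)) → ∀ a a' : ℕ → ℝ,
  (∀ k : ℕ, ∃ M, ∀ n, q n ^ k * |a n| ≤ M) → (∀ k : ℕ, ∃ M, ∀ n, q n ^ k * |a' n| ≤ M) →
  (∀ n, a' n = β * yq (La q) (fun _ => 0) a n) →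
  (∀ y, HasSum (fun p => ly 0 (La q) a p • r p y) (sp P a' y + adv (sp P a) (sp P a) y)) ∧
  ∀ v : E3 → E3, LocallyIntegrable v volume → (∀ p, ip v (r p) = 0) →
    ip v (fun y => sp P a' y + adv (sp P a) (sp P a) y) = 0

/-- (E7) Products, energy outside of small balls. -/
def S_E7 : Prop := ∀ (q : ℕ → ℝ) (β lam N : ℝ) (P : ℕ → E3 → E3)
  (r : Fin 4 × ℕ → E3 → E3), TY q (La q) (fun _ => 1) (fun n => q n ^ 4) (fun _ => 0) β lam N P r →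
  (∀ n, 4 ≤ q n) → (∀ n, 4 * q n ≤ q (n + 1)) → ∀ a : ℕ → ℝ,
  (∀ k : ℕ, ∃ M, ∀ n, q n ^ k * |a n| ≤ M) →
  ip (sp P a) (sp P a) = N * ∑' n, a n ^ 2 ∧ (∀ i, ip (sp P a) (r i) = 0) ∧
  ∀ (δ : ℝ) (n₀ : ℕ), 0 < δ → (∀ n ≥ n₀, 1 / 2 ≤ q n ^ 2 * δ) →
    ∫ y in {y : E3 | δ ≤ ‖y‖}, ‖sp P a y‖ ^ 2 ≤ N * ∑ n ∈ Finset.range n₀, a n ^ 2

/-- (E8) The reaction coefficients are smooth in time and rapidly decreasing. -/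
def S_E8 : Prop := ∀ (q : ℕ → ℝ) (T : ℝ) (X : ℕ → ℝ → ℝ), (∀ n, 4 ≤ q n) →
  (∀ n, 4 * q n ≤ q (n + 1)) → 0 < T → SmR q T X →
  (∀ p, ContDiffOn ℝ ∞ (fun t => ly 0 (La q) (fun n => X n t) p) (Ico 0 T)) ∧
  ∀ k : ℕ, ∀ T' < T, ∃ M, ∀ t ∈ Icc 0 T', ∀ i n,
    q n ^ k * |ly 0 (La q) (fun n => X n t) (i, n)| ≤ M

end Pool.Agent.N976.EE
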