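import Pool.Agent.N976.EE.Def
import Pool.Agent.N976.EC.U9

/-! The periodic extension of a concentrating flow. -/

open Set Filter Topology MeasureTheory
open scoped ContDiff InnerProductSpace

set_option autoImplicit false

namespace Pool.Agent.N976.EE

open Pool.Agent.N976.SC Pool.Agent.N976.EC

/-- A flow on `ℝ³` with reaction forces, which vanishes outside of the unit ball, with conserved
energy which concentrates at the origin up to the fraction `ε`. -/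
structure Flw (ε T : ℝ) (r : Fin 4 × ℕ → E3 → E3) (l : Fin 4 × ℕ → ℝ → ℝ) (u : ℝ → E3 → E3) :
    Prop where
  T0 : 0 < T
  rsm : ∀ p, ContDiff ℝ ∞ (r p)
  rout : ∀ p y, 1 ≤ ‖y‖ → r p y = 0
  sm : ContDiffOn ℝ ∞ (fun z : ℝ × E3 => u z.1 z.2) (Ico 0 T ×ˢ univ)
  smt : ∀ t ∈ Ico 0 T, ContDiff ℝ ∞ (u t)
  out : ∀ t ∈ Ico 0 T, ∀ y, 1 / 2 ≤ ‖y‖ → u t y = 0
  div : ∀ t ∈ Ico 0 T, ∀ y, divg (u t) y = 0
  con : ∀ t ∈ Ico 0 T, ∀ p, ip (u t) (r p) = 0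
  res : ∀ t ∈ Ico 0 T, ∀ y, HasSum (fun p => l p t • r p y) (dt T u t y + adv (u t) (u t) y)
  rsc : ∀ t ∈ Ico 0 T, Continuous (fun y => dt T u t y + adv (u t) (u t) y)
  tst : ∀ t ∈ Ico 0 T, ∀ v : E3 → E3, Continuous v → (∀ p, ip v (r p) = 0) →
    ip v (fun y => dt T u t y + adv (u t) (u t) y) = 0
  en : ∀ t ∈ Ico 0 T, ip (u t) (u t) = ip (u 0) (u 0)
  pos : 0 < ip (u 0) (u 0)
  cnc : ∀ δ > 0, ∃ t₀ < T, ∀ t ∈ Ico t₀ T, 0 ≤ t →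
    ∫ y in {y : E3 | δ ≤ ‖y‖}, ‖u t y‖ ^ 2 ≤ ε * ip (u 0) (u 0)

/-- (E9) The flow on the torus. -/
def S_E9 : Prop := ∀ (ε T : ℝ) (r : Fin 4 × ℕ → E3 → E3) (l : Fin 4 × ℕ → ℝ → ℝ)
  (u : ℝ → E3 → E3), ε < 1 → Flw ε T r l u →
  SolT (fun p => dn (r p)) T (fun t => lft (u t)) ∧
  ContDiffOn ℝ ∞ (fun z : ℝ × V => lft (u z.1) z.2) (Ico 0 T ×ˢ univ) ∧
  (∀ t ∈ Ico 0 T, ∀ x ∈ Q, 1 ≤ ∑ i, x i ^ 2 → lft (u t) x = 0) ∧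
  (∀ t ∈ Ico 0 T, ∀ x ∈ Q,
    HasSum (fun p => l p t • dn (r p) x) (resT T (fun τ => lft (u τ)) t x)) ∧
  (∀ (T' : ℝ) (v : ℝ → V → V), 0 < T' → SolT (fun p => dn (r p)) T' v → v 0 = lft (u 0) →
    T' ≤ T ∧ ∀ t ∈ Ico 0 T', v t = lft (u t)) ∧
  (∀ t ∈ Ico 0 T, ipT (lft (u t)) (lft (u t)) = ip (u 0) (u 0)) ∧
  ∀ δ > 0, ∃ t₀ < T, ∀ t ∈ Ico t₀ T, 0 ≤ t →
    ∫ x in {x : V | x ∈ Q ∧ δ ^ 2 ≤ ∑ i, x i ^ 2}, ∑ i, lft (u t) x i ^ 2 ≤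
      ε * ip (u 0) (u 0)

end Pool.Agent.N976.EE
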