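import Pool.Agent.N976.EE.E1a

/-!
# (E1) One stage of the Euler cascade
-/

open Set Filter Topology MeasureTheory
open scoped ContDiff

set_option autoImplicit false

namespace Pool.Agent.N976.EE

open Pool.Agent.N976.SC Pool.Agent.N976.EN Pool.Agent.N976.UE

namespace E1

/-! ### The scales -/

lemma Big.S3 {z : ℝ} (_ : Big z) (hy : Big (Real.exp z)) : Real.exp z ^ 10 ≤ Rr (Real.exp z) := by
  refine (hy.e10.trans ?_).trans hy.Rr_ge
  exact le_self_pow₀ (Real.one_le_exp hy.pos.le) (by norm_num)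

lemma Big.S4 {z : ℝ} (h : Big z) (hy : Big (Real.exp z)) :
    5 * Real.exp z + 1 + 3 * Rr z ≤ Rr (Real.exp z) := by
  have h1 := h.Rr_le
  have h2 := h.S3 hy
  have h3 := hy.q100
  set y := Real.exp z
  have h4 : y ≤ y ^ 5 := hy.p5
  have h5 : 100 * y ^ 5 ≤ y ^ 10 := by
    calc 100 * y ^ 5 ≤ y ^ 5 * y ^ 5 := by gcongr; linarith
      _ = y ^ 10 := by ring
  linarith

lemma Big.S5 {z : ℝ} (h : Big z) (hy : Big (Real.exp z)) :
    5 * Real.exp z + 10 ≤ 1 / 2 * Rr z := by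
  have h2 := h.Rr_ge
  have h3 := hy.q100
  set y := Real.exp z
  have h4 : 100 * y ≤ y ^ 4 := by
    calc 100 * y ≤ y * y := by gcongr
      _ = y ^ 2 := by ring
      _ ≤ y ^ 4 := pow_le_pow_right₀ (by linarith) (by norm_num)
  linarith

lemma Big.S6 {z : ℝ} (h : Big z) (hy : Big (Real.exp z)) :
    3 * Rr z ≤ 1 / 2 * (Rr (Real.exp z) / Real.exp z ^ 2) := by
  have h1 := h.Rr_le
  have h2 := h.S3 hy
  have h3 := hy.q100
  set y := Real.exp z
  have hy0 : 0 < y := hy.pos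
  rw [← mul_div_assoc, le_div_iff₀ (by positivity)]
  have h5 : 6 * y ^ 7 ≤ y ^ 10 := by
    calc 6 * y ^ 7 ≤ y ^ 3 * y ^ 7 := by
          gcongr
          calc (6 : ℝ) ≤ y := by linarith
            _ ≤ y ^ 3 := le_self_pow₀ (by linarith) (by norm_num)
      _ = y ^ 10 := by ring
  calc 3 * Rr z * y ^ 2 ≤ 3 * y ^ 5 * y ^ 2 := by gcongr
    _ = 1 / 2 * (6 * y ^ 7) := by ring
    _ ≤ 1 / 2 * Rr y := by linarith

lemma tw_ge {Q : ℝ} (n : ℕ) : Q ≤ tw Q n := by
  induction n with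
  | zero => exact le_rfl
  | succ n ih =>
    refine ih.trans ?_
    have := Real.add_one_le_exp (tw Q n)
    change tw Q n ≤ Real.exp (tw Q n)
    linarith

lemma rho_eq (Q : ℝ) (k : ℕ) : rho (tw Q) k = Rr (tw Q k) := rfl

lemma vis_eq (Q : ℝ) (k : ℕ) : vis (tw Q) k = vv (tw Q k) := rfl

lemma tw_succ (Q : ℝ) (k : ℕ) : tw Q (k + 1) = Real.exp (tw Q k) := rfl

section scales

variable {Q : ℝ} (B : ∀ k, Big (tw Q k))
include B

lemma sum5 (n : ℕ) : ∑ i ∈ Finset.range n, tw Q i ^ 5 ≤ 3 / 2 * Real.log (tw Q n) ^ 5 := by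
  induction n with
  | zero =>
    have h1 := (B 0).l4
    have h2 : 0 < Real.log (tw Q 0) ^ 5 := by positivity
    simp only [Finset.range_zero, Finset.sum_empty]
    linarith
  | succ n ih =>
    rw [Finset.sum_range_succ, tw_succ, Real.log_exp]
    have h1 := (B n).l5'
    have h2 := (B n).l4
    have h3 : 0 < Real.log (tw Q n) ^ 5 := by positivity
    linarith

lemma rho_mono {j k : ℕ} (hjk : j ≤ k) : Rr (tw Q j) ≤ Rr (tw Q k) := by
  induction k, hjk using Nat.le_induction with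
  | base => exact le_rfl
  | succ k hk ih =>
    refine ih.trans ?_
    have h1 := (B k).S4 (B (k + 1))
    have h2 := (B k).Rr_pos
    have h3 := Real.exp_pos (tw Q k)
    rw [tw_succ]
    linarith

/-- the tail with ratio -/
lemma tail1 (c : ℝ) (hc : 1 ≤ c) (j N : ℕ) :
    ∑ i ∈ Finset.Ico j N, Real.exp (-(c * Rr (tw Q i))) ≤ 2 * Real.exp (-(c * Rr (tw Q j))) := by
  refine sum_tail (j₀ := 0) (fun i => (Real.exp_pos _).le) (fun i _ => ?_) j (Nat.zero_le _) N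
  have h1 := (B i).S4 (B (i + 1))
  have h2 := (B i).Rr_pos
  have h3 := (B (i + 1)).q100
  have h4 : Real.exp (-(c * Rr (tw Q (i + 1)))) ≤ Real.exp (-(c * Rr (tw Q i)) - 1) := by
    refine Real.exp_le_exp.2 ?_
    rw [tw_succ] at h3 ⊢
    have h5 : c * (Rr (tw Q i) + 1) ≤ c * Rr (Real.exp (tw Q i)) := by
      refine mul_le_mul_of_nonneg_left ?_ (by linarith)
      linarith
    linarith
  refine h4.trans ?_
  rw [Real.exp_sub, div_le_div_iff₀ (Real.exp_pos _) (by norm_num)]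
  have h6 : (2 : ℝ) ≤ Real.exp 1 := by linarith [Real.add_one_le_exp (1 : ℝ)]
  gcongr

end scales

/-! ### The data of a stage -/

/-- The data at the initial time. -/
structure Dt (Q : ℝ) (N n : ℕ) (x : ℕ → ℝ → ℝ) (τ : ℝ) : Prop where
  B : ∀ k, Big (tw Q k)
  fe : FE (tw Q) N x
  hn : n + 3 ≤ N
  τ0 : 0 ≤ τ
  en : ∑ m ∈ Finset.range N, x m τ ^ 2 ≤ 51 / 50
  p0 : 9 / 10 ≤ x n τ
  r0 : x (n + 1) τ = vis (tw Q) n
  bd : Bd (tw Q) N n n (fun m => x m τ)

/-- The conditions. -/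
structure Cd (Q : ℝ) (N n : ℕ) (x : ℕ → ℝ → ℝ) (s : ℝ) : Prop where
  r : 0 ≤ x (n + 1) s
  w : Real.exp (-(2 * Rr (tw Q n))) ≤ x (n + 2) s
  w' : x (n + 2) s ≤ vv (tw Q (n + 1))
  bd : Bd (tw Q) N (n + 1) (n + 1) (fun m => x m s)

namespace Dt

variable {Q : ℝ} {N n : ℕ} {x : ℕ → ℝ → ℝ} {τ : ℝ} (h : Dt Q N n x τ)
include h

lemma enr {t : ℝ} (ht : τ ≤ t) : ∑ m ∈ Finset.range N, x m t ^ 2 ≤ 51 / 50 := by
  have h1 := Y3.En_anti (Λ := La (tw Q)) (b := fun _ => 1) (V := fun _ => 0) (γ := fun _ => 0)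
    (N := N) (x := x) h.fe (fun _ => one_pos) (fun _ => le_rfl) (mem_Ici.2 h.τ0)
    (mem_Ici.2 (h.τ0.trans ht)) ht
  unfold Y3.En at h1
  simp only [div_one] at h1
  exact h1.trans h.en

lemma xb (m : ℕ) {t : ℝ} (ht : τ ≤ t) : |x m t| ≤ 101 / 100 := by
  rcases lt_or_ge m N with hm | hm
  · have h1 := h.enr ht
    have h2 : x m t ^ 2 ≤ ∑ m ∈ Finset.range N, x m t ^ 2 :=
      Finset.single_le_sum (f := fun m => x m t ^ 2) (fun i _ => sq_nonneg _)
        (Finset.mem_range.2 hm)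
    refine abs_le_of_sq_le_sq (by linarith) (by norm_num)
  · rw [h.fe.zero m hm t, abs_zero]
    norm_num

lemma ode {k : ℕ} (hk : k < N) {t : ℝ} (ht : τ ≤ t) : HasDerivWithinAt (x k)
    (x k t * ∑ i ∈ Finset.range k, tw Q i ^ 5 * x i t -
      tw Q k ^ 5 * ∑ m ∈ Finset.Ico (k + 1) N, x m t ^ 2) (Ici t) t := by
  have h0 : 0 ≤ t := h.τ0.trans ht
  have h1 := (h.fe.ode k hk t (mem_Ici.2 h0)).mono (Ici_subset_Ici.2 h0)
  have e : x k t * ∑ i ∈ Finset.range k, tw Q i ^ 5 * x i t -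
      tw Q k ^ 5 * ∑ m ∈ Finset.Ico (k + 1) N, x m t ^ 2 =
      -((fun _ => (0 : ℝ)) k * x k t) +
      (fun _ => (1 : ℝ)) k * yN (La (tw Q)) (fun _ => 0) N (fun m => x m t) k := by
    unfold yN La
    simp
  rw [e]
  exact h1

lemma cont {k : ℕ} (hk : k < N) (a : ℝ) : ContinuousOn (x k) (Icc τ a) := by
  intro t ht
  exact ((h.fe.ode k hk t (mem_Ici.2 (h.τ0.trans ht.1))).continuousWithinAt).mono
    (fun s hs => mem_Ici.2 (h.τ0.trans hs.1))

lemma S2 {t : ℝ} (ht : τ ≤ t) :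
    |∑ i ∈ Finset.range n, tw Q i ^ 5 * x i t| ≤ 2 * Real.log (tw Q n) ^ 5 := by
  have h1 := sum5 h.B n
  have h2 : |∑ i ∈ Finset.range n, tw Q i ^ 5 * x i t| ≤
      ∑ i ∈ Finset.range n, tw Q i ^ 5 * (101 / 100) := by
    refine (Finset.abs_sum_le_sum_abs _ _).trans (Finset.sum_le_sum fun i _ => ?_)
    have h0 := (h.B i).pos
    rw [abs_mul, abs_of_pos (by positivity : 0 < tw Q i ^ 5)]
    exact mul_le_mul_of_nonneg_left (h.xb i ht) (by positivity)
  rw [← Finset.sum_mul] at h2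
  have h3 : 0 < Real.log (tw Q n) ^ 5 := by
    have := (h.B n).l4
    positivity
  linarith

lemma tail0 {s : ℝ} (k : ℕ) : 0 ≤ ∑ m ∈ Finset.Ico k N, x m s ^ 2 :=
  Finset.sum_nonneg fun _ _ => sq_nonneg _

/-- the size of the modes which are not yet active -/
lemma up {s : ℝ} (c : Cd Q N n x s) {k : ℕ} (hk : n + 1 ≤ k) :
    0 ≤ x (k + 2) s ∧ x (k + 2) s ≤ Real.exp (-(3 / 2 * Rr (tw Q k))) := by
  rcases lt_or_ge (k + 2) N with hN | hN
  · obtain ⟨h1, h2⟩ := c.bd k hN hk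
    have h3 := rho_mono h.B hk
    have h4 := (h.B (n + 1)).small2
    have h5 := (h.B k).Rr_pos
    have hpi := Real.pi_gt_d2
    constructor
    · refine le_trans ?_ h1
      unfold seed
      positivity
    · refine h2.trans ?_
      unfold seed
      rw [rho_eq, rho_eq, ← Real.exp_add]
      refine Real.exp_le_exp.2 ?_
      have h6 : 157 / 100 * Rr (tw Q k) ≤ Real.pi / 2 * Rr (tw Q k) := by
        refine mul_le_mul_of_nonneg_right ?_ h5.le
        linarith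
      linarith
  · rw [h.fe.zero (k + 2) hN s]
    exact ⟨le_rfl, (Real.exp_pos _).le⟩

lemma low {s : ℝ} (c : Cd Q N n x s) {k : ℕ} (hk : n + 1 ≤ k) (hN : k + 2 < N) :
    Real.exp (-(2 * Rr (tw Q k))) ≤ x (k + 2) s := by
  obtain ⟨h1, h2⟩ := c.bd k hN hk
  have h3 := rho_mono h.B hk
  have h4 := (h.B (n + 1)).small2
  have h5 := (h.B k).Rr_pos
  have hpi := Real.pi_lt_d2
  refine le_trans ?_ h1
  unfold seed
  rw [rho_eq, rho_eq, ← Real.exp_add]
  refine Real.exp_le_exp.2 ?_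
  have h6 : Real.pi / 2 * Rr (tw Q k) ≤ 158 / 100 * Rr (tw Q k) := by
    refine mul_le_mul_of_nonneg_right ?_ h5.le
    linarith
  linarith

/-- the squares of the modes which are not yet active -/
lemma tl {s : ℝ} (c : Cd Q N n x s) {k : ℕ} (hk : n + 1 ≤ k) :
    ∑ m ∈ Finset.Ico (k + 2) N, x m s ^ 2 ≤ 2 * Real.exp (-(3 * Rr (tw Q k))) := by
  have h1 : ∑ m ∈ Finset.Ico (k + 2) N, x m s ^ 2 ≤
      ∑ m ∈ Finset.Ico k (N - 2), Real.exp (-(3 * Rr (tw Q m))) := by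
    rcases le_total N (k + 2) with hN | hN
    · rw [Finset.Ico_eq_empty_of_le hN, Finset.sum_empty]
      exact Finset.sum_nonneg fun _ _ => (Real.exp_pos _).le
    · obtain ⟨M, rfl⟩ := Nat.exists_eq_add_of_le' (show 2 ≤ N by omega)
      rw [Nat.add_sub_cancel, ← Finset.sum_Ico_add' (fun m => x m s ^ 2) k M 2]
      refine Finset.sum_le_sum fun i hi => ?_
      obtain ⟨h2, h3⟩ := h.up c (k := i) (hk.trans (Finset.mem_Ico.1 hi).1)
      calc x (i + 2) s ^ 2 ≤ Real.exp (-(3 / 2 * Rr (tw Q i))) ^ 2 := by gcongr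
        _ = Real.exp (-(3 * Rr (tw Q i))) := by
            rw [← Real.exp_nat_mul]
            congr 1
            push_cast
            ring
  exact h1.trans (tail1 h.B 3 (by norm_num) k (N - 2))

/-- the reaction of the higher modes -/
lemma react {s : ℝ} (c : Cd Q N n x s) {m : ℕ} (hm : n ≤ m) :
    tw Q (m + 2) ^ 5 * ∑ j ∈ Finset.Ico (m + 3) N, x j s ^ 2 ≤ Real.exp (-(2 * Rr (tw Q m))) := by
  have h1 := h.tl c (k := m + 1) (by omega)
  have h2 := (h.B m).S4 (h.B (m + 1))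
  have h3 := (h.B m).Rr_pos
  have h4 := (h.B (m + 1)).pos
  have h5 : tw Q (m + 2) ^ 5 = Real.exp (5 * Real.exp (tw Q m)) := by
    change Real.exp (Real.exp (tw Q m)) ^ 5 = _
    rw [← Real.exp_nat_mul]
    norm_num
  have h6 : (2 : ℝ) ≤ Real.exp 1 := by linarith [Real.add_one_le_exp (1 : ℝ)]
  rw [h5]
  change ∑ j ∈ Finset.Ico (m + 3) N, x j s ^ 2 ≤ 2 * Real.exp (-(3 * Rr (Real.exp (tw Q m)))) at h1
  calc Real.exp (5 * Real.exp (tw Q m)) * ∑ j ∈ Finset.Ico (m + 3) N, x j s ^ 2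
      ≤ Real.exp (5 * Real.exp (tw Q m)) *
        (Real.exp 1 * Real.exp (-(3 * Rr (Real.exp (tw Q m))))) := by
        refine mul_le_mul_of_nonneg_left (h1.trans ?_) (Real.exp_pos _).le
        exact mul_le_mul_of_nonneg_right h6 (Real.exp_pos _).le
    _ = Real.exp (5 * Real.exp (tw Q m) + (1 + -(3 * Rr (Real.exp (tw Q m))))) := by
        rw [Real.exp_add, Real.exp_add]
    _ ≤ Real.exp (-(2 * Rr (tw Q m))) := by
        refine Real.exp_le_exp.2 ?_
        have h7 := (h.B (m + 1)).Rr_pos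
        rw [tw_succ] at h7
        linarith

/-- the linear terms -/
lemma lin {s : ℝ} (c : Cd Q N n x s) (M : ℕ) :
    0 ≤ ∑ i ∈ Finset.Ico (n + 3) M, tw Q i ^ 5 * x i s ∧
      ∑ i ∈ Finset.Ico (n + 3) M, tw Q i ^ 5 * x i s ≤ 1 := by
  have hterm : ∀ k, n + 1 ≤ k → 0 ≤ tw Q (k + 2) ^ 5 * x (k + 2) s ∧
      tw Q (k + 2) ^ 5 * x (k + 2) s ≤ Real.exp (-(1 * Rr (tw Q k))) := by
    intro k hk
    obtain ⟨h1, h2⟩ := h.up c hk
    have h0 := (h.B (k + 2)).pos
    refine ⟨by positivity, ?_⟩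
    have h3 := (h.B k).S5 (h.B (k + 1))
    have h5 : tw Q (k + 2) ^ 5 = Real.exp (5 * Real.exp (tw Q k)) := by
      change Real.exp (Real.exp (tw Q k)) ^ 5 = _
      rw [← Real.exp_nat_mul]
      norm_num
    rw [h5]
    calc Real.exp (5 * Real.exp (tw Q k)) * x (k + 2) s
        ≤ Real.exp (5 * Real.exp (tw Q k)) * Real.exp (-(3 / 2 * Rr (tw Q k))) := by gcongr
      _ = Real.exp (5 * Real.exp (tw Q k) + -(3 / 2 * Rr (tw Q k))) := (Real.exp_add _ _).symm
      _ ≤ Real.exp (-(1 * Rr (tw Q k))) := Real.exp_le_exp.2 (by linarith)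
  constructor
  · refine Finset.sum_nonneg fun i hi => ?_
    obtain ⟨k, rfl⟩ := Nat.exists_eq_add_of_le' (show 2 ≤ i by
      have := (Finset.mem_Ico.1 hi).1
      omega)
    exact (hterm k (by have := (Finset.mem_Ico.1 hi).1; omega)).1
  · have h1 : ∑ i ∈ Finset.Ico (n + 3) M, tw Q i ^ 5 * x i s ≤
        ∑ i ∈ Finset.Ico (n + 1) (M - 2), Real.exp (-(1 * Rr (tw Q i))) := by
      rcases le_total M (n + 3) with hN | hN
      · rw [Finset.Ico_eq_empty_of_le hN, Finset.sum_empty]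
        exact Finset.sum_nonneg fun _ _ => (Real.exp_pos _).le
      · obtain ⟨M, rfl⟩ := Nat.exists_eq_add_of_le' (show 2 ≤ M by omega)
        rw [Nat.add_sub_cancel, show n + 3 = n + 1 + 2 by ring,
          ← Finset.sum_Ico_add' (fun i => tw Q i ^ 5 * x i s) (n + 1) M 2]
        exact Finset.sum_le_sum fun i hi => (hterm i (Finset.mem_Ico.1 hi).1).2
    refine (h1.trans (tail1 h.B 1 le_rfl (n + 1) (M - 2))).trans ?_
    have h2 : Real.exp (-(1 * Rr (tw Q (n + 1)))) ≤ Real.exp (-1) := by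
      refine Real.exp_le_exp.2 ?_
      have h3 := (h.B (n + 1)).small4
      have h4 := (h.B (n + 1)).q100
      linarith
    have h6 : (2 : ℝ) ≤ Real.exp 1 := by linarith [Real.add_one_le_exp (1 : ℝ)]
    have h7 : Real.exp (-1) ≤ 1 / 2 := by
      rw [Real.exp_neg, ← one_div]
      exact one_div_le_one_div_of_le (by norm_num) h6
    linarith

/-- the three active modes -/
lemma sy {t₁ : ℝ} (h1 : τ ≤ t₁) (h2 : t₁ ≤ τ + 8 * Real.log (tw Q n) / tw Q n ^ 5)
    (c : ∀ s ∈ Icc τ t₁, Cd Q N n x s) :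
    Sy (tw Q n) τ t₁ (x n) (x (n + 1)) (x (n + 2))
      (fun t => ∑ i ∈ Finset.range n, tw Q i ^ 5 * x i t)
      (fun t => ∑ m ∈ Finset.Ico (n + 3) N, x m t ^ 2)
      (fun t => tw Q (n + 2) ^ 5 * ∑ m ∈ Finset.Ico (n + 3) N, x m t ^ 2) := by
  have hn := h.hn
  have hY : tw Q (n + 1) = Real.exp (tw Q n) := rfl
  have i1 : ∀ t, ∑ m ∈ Finset.Ico (n + 2) N, x m t ^ 2 =
      x (n + 2) t ^ 2 + ∑ m ∈ Finset.Ico (n + 3) N, x m t ^ 2 := fun t =>
    Finset.sum_eq_sum_Ico_succ_bot (by omega) _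
  have i2 : ∀ t, ∑ m ∈ Finset.Ico (n + 1) N, x m t ^ 2 =
      x (n + 1) t ^ 2 + ∑ m ∈ Finset.Ico (n + 2) N, x m t ^ 2 := fun t =>
    Finset.sum_eq_sum_Ico_succ_bot (by omega) _
  have hw := h.bd n (by omega) le_rfl
  have hR := (h.B n).Rr_pos
  have hx0 : 0 < x (n + 2) τ := by
    refine lt_of_lt_of_le ?_ hw.1
    unfold seed
    positivity
  have hδ : ∀ t ∈ Icc τ t₁, tw Q (n + 2) ^ 5 * ∑ m ∈ Finset.Ico (n + 3) N, x m t ^ 2 ≤
      Real.exp (-(2 * Rr (tw Q n))) := fun t ht => h.react (c t ht) le_rfl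
  refine ⟨h.B n, h.B (n + 1), h1, h2, h.cont (by omega) _, h.cont (by omega) _,
    h.cont (by omega) _, ?_, ?_, ?_, fun t ht => h.S2 ht.1, fun t ht => h.xb _ ht.1,
    fun t ht => h.xb _ ht.1, fun t _ => h.tail0 _, ?_, ?_, ?_, h.p0, h.r0, ?_, ?_,
    fun t ht => (c t ht).r, fun t ht => (c t ht).w, fun t ht => (c t ht).w'⟩
  · intro t ht
    have h3 := h.ode (k := n) (by omega) ht.1
    rw [i2, i1, ← add_assoc] at h3
    exact h3
  · intro t ht
    have h3 := h.ode (k := n + 1) (by omega) ht.1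
    rw [i1, Finset.sum_range_succ, hY] at h3
    exact h3
  · intro t ht
    have h3 := h.ode (k := n + 2) (by omega) ht.1
    rw [Finset.sum_range_succ, Finset.sum_range_succ, hY] at h3
    exact h3
  · intro t ht
    have h3 := hδ t ht
    have h4 : Real.exp (tw Q n) ^ 5 ≤ tw Q (n + 2) ^ 5 := by
      have h5 := (h.B (n + 1)).l_le
      have h6 := Real.add_one_le_exp (tw Q (n + 1))
      have h7 : Real.exp (tw Q n) ≤ tw Q (n + 2) := by
        change tw Q (n + 1) ≤ Real.exp (tw Q (n + 1))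
        linarith
      exact pow_le_pow_left₀ (Real.exp_pos _).le h7 5
    have h5 : Real.exp (tw Q n) ^ 5 * ∑ m ∈ Finset.Ico (n + 3) N, x m t ^ 2 ≤
        tw Q (n + 2) ^ 5 * ∑ m ∈ Finset.Ico (n + 3) N, x m t ^ 2 :=
      mul_le_mul_of_nonneg_right h4 (h.tail0 _)
    have h6 : Real.exp (-(2 * Rr (tw Q n))) ≤ 1 / 1000 := by
      have h7 := (h.B n).small4
      have h8 := (h.B n).q100
      have h9 : (1000 : ℝ) ≤ Real.exp (2 * Rr (tw Q n)) := by
        have := Real.add_one_le_exp (2 * Rr (tw Q n))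
        linarith
      rw [Real.exp_neg, ← one_div]
      exact one_div_le_one_div_of_le (by norm_num) h9
    linarith
  · intro t _
    have := (h.B (n + 2)).pos
    exact mul_nonneg (by positivity) (h.tail0 _)
  · intro t ht
    exact (hδ t ht).trans (c t ht).w
  · have h3 := Real.log_le_log (by unfold seed; positivity) hw.1
    unfold seed at h3
    rw [← Real.exp_add, Real.log_exp, rho_eq] at h3
    linarith
  · have h3 := Real.log_le_log hx0 hw.2
    unfold seed at h3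
    rw [← Real.exp_add, Real.log_exp, rho_eq] at h3
    linarith

/-- the growth of the higher modes -/
lemma growth {t₁ : ℝ} (h1 : τ ≤ t₁) (h2 : t₁ ≤ τ + 8 * Real.log (tw Q n) / tw Q n ^ 5)
    (c : ∀ s ∈ Icc τ t₁, Cd Q N n x s) {Θ F : ℝ → ℝ} (hΘ : An (tw Q n) τ t₁ (x (n + 1)) Θ)
    (hF0 : F τ = 0) (hFc : ContinuousOn F (Icc τ t₁))
    (hFd : ∀ t ∈ Ico τ t₁, HasDerivWithinAt F (Real.exp (tw Q n) ^ 5 * x (n + 2) t) (Ici t) t)
    {m : ℕ} (hm : n + 1 ≤ m) (hN : m + 2 < N) {t : ℝ} (ht : t ∈ Icc τ t₁) :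
    |Real.log (x (m + 2) t) - Real.log (x (m + 2) τ) - Rr (tw Q n) * Θ t -
      Rr (Real.exp (tw Q n)) * F t| ≤ 9 * Real.log (tw Q n) := by
  have sy := h.sy h1 h2 c
  have hpos : ∀ t ∈ Icc τ t₁, 0 < x (m + 2) t := fun t ht =>
    lt_of_lt_of_le (Real.exp_pos _) (h.low (c t ht) hm hN)
  have key := abs_lin (f := fun t => Real.log (x (m + 2) t) - Rr (tw Q n) * Θ t -
      Rr (Real.exp (tw Q n)) * F t)
    (f' := fun t => (x (m + 2) t * ∑ i ∈ Finset.range (m + 2), tw Q i ^ 5 * x i t -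
      tw Q (m + 2) ^ 5 * ∑ j ∈ Finset.Ico (m + 2 + 1) N, x j t ^ 2) / x (m + 2) t -
      Rr (tw Q n) * (tw Q n ^ 5 * x (n + 1) t) -
      Rr (Real.exp (tw Q n)) * (Real.exp (tw Q n) ^ 5 * x (n + 2) t)) (a := τ) (b := t₁)
    (c := 102 / 100 * tw Q n ^ 5)
    ((((h.cont hN t₁).log fun t ht => (hpos t ht).ne').sub
      (continuousOn_const.mul hΘ.c)).sub (continuousOn_const.mul hFc))
    (fun t ht => (((h.ode hN ht.1).log (hpos t (Ico_subset_Icc_self ht)).ne').sub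
      ((hΘ.d t ht).const_mul _)).sub ((hFd t ht).const_mul _))
    (fun t ht => by
      have ht' := Ico_subset_Icc_self ht
      have hx := hpos t ht'
      have hr := sy.rate ht'
      obtain ⟨l0, l1⟩ := h.lin (c t ht') (m + 2)
      have e1 : ∑ i ∈ Finset.range (m + 2), tw Q i ^ 5 * x i t =
          ∑ i ∈ Finset.range n, tw Q i ^ 5 * x i t + tw Q n ^ 5 * x n t +
          Real.exp (tw Q n) ^ 5 * x (n + 1) t + Real.exp (Real.exp (tw Q n)) ^ 5 * x (n + 2) t +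
          ∑ i ∈ Finset.Ico (n + 3) (m + 2), tw Q i ^ 5 * x i t := by
        rw [Finset.range_eq_Ico, ← Finset.sum_Ico_consecutive _ (Nat.zero_le (n + 3))
          (show n + 3 ≤ m + 2 by omega), ← Finset.range_eq_Ico, Finset.sum_range_succ,
          Finset.sum_range_succ, Finset.sum_range_succ]
        rfl
      have e2 : (x (m + 2) t * ∑ i ∈ Finset.range (m + 2), tw Q i ^ 5 * x i t -
          tw Q (m + 2) ^ 5 * ∑ j ∈ Finset.Ico (m + 2 + 1) N, x j t ^ 2) / x (m + 2) t -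
          Rr (tw Q n) * (tw Q n ^ 5 * x (n + 1) t) -
          Rr (Real.exp (tw Q n)) * (Real.exp (tw Q n) ^ 5 * x (n + 2) t) =
          (∑ i ∈ Finset.range n, tw Q i ^ 5 * x i t + tw Q n ^ 5 * x n t) +
          ∑ i ∈ Finset.Ico (n + 3) (m + 2), tw Q i ^ 5 * x i t -
          tw Q (m + 2) ^ 5 * (∑ j ∈ Finset.Ico (m + 3) N, x j t ^ 2) / x (m + 2) t := by
        have r1 : Real.exp (Real.exp (tw Q n)) ^ 5 =
          Real.exp (tw Q n) ^ 5 * Rr (Real.exp (tw Q n)) := (h.B (n + 1)).Rr_mul.symm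
        have r2 : Real.exp (tw Q n) ^ 5 = tw Q n ^ 5 * Rr (tw Q n) := (h.B n).Rr_mul.symm
        have r3 : Rr (tw Q n) * (tw Q n ^ 5 * x (n + 1) t) =
          Real.exp (tw Q n) ^ 5 * x (n + 1) t := by rw [r2]; ring
        rw [e1, sub_div, mul_div_cancel_left₀ _ hx.ne', r3, r1]
        ring
      rw [e2]
      have h3 := (h.react (c t ht') (m := m) (by omega)).trans (h.low (c t ht') hm hN)
      have h4 : tw Q (m + 2) ^ 5 * (∑ j ∈ Finset.Ico (m + 3) N, x j t ^ 2) / x (m + 2) t ≤ 1 :=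
        (div_le_one hx).2 h3
      have h5 : 0 ≤ tw Q (m + 2) ^ 5 * (∑ j ∈ Finset.Ico (m + 3) N, x j t ^ 2) / x (m + 2) t := by
        have := (h.B (m + 2)).pos
        have := h.tail0 (s := t) (m + 3)
        positivity
      have h6 := abs_le.1 (le_refl
        |∑ i ∈ Finset.range n, tw Q i ^ 5 * x i t + tw Q n ^ 5 * x n t|)
      rw [abs_le]
      constructor <;> linarith [h6.1, h6.2]) t ht
  simp only [hΘ.z, hF0, mul_zero, sub_zero] at key
  have h3 := sy.dur ht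
  have hl := (h.B n).l4
  have e : Real.log (x (m + 2) t) - Real.log (x (m + 2) τ) - Rr (tw Q n) * Θ t -
      Rr (Real.exp (tw Q n)) * F t = Real.log (x (m + 2) t) - Rr (tw Q n) * Θ t -
      Rr (Real.exp (tw Q n)) * F t - Real.log (x (m + 2) τ) := by ring
  rw [e]
  refine key.trans ?_
  have h4 : 102 / 100 * tw Q n ^ 5 * (t - τ) = 102 / 100 * (tw Q n ^ 5 * (t - τ)) := by ring
  rw [h4]
  linarith

/-- the strict bounds for the higher modes -/
lemma high {t₁ : ℝ} (h1 : τ ≤ t₁) (h2 : t₁ ≤ τ + 8 * Real.log (tw Q n) / tw Q n ^ 5)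
    (c : ∀ s ∈ Icc τ t₁, Cd Q N n x s) {Θ F : ℝ → ℝ} (hΘ : An (tw Q n) τ t₁ (x (n + 1)) Θ)
    (hF0 : F τ = 0) (hFc : ContinuousOn F (Icc τ t₁))
    (hFd : ∀ t ∈ Ico τ t₁, HasDerivWithinAt F (Real.exp (tw Q n) ^ 5 * x (n + 2) t) (Ici t) t)
    {m : ℕ} (hm : n + 1 ≤ m) (hN : m + 2 < N) {t : ℝ} (ht : t ∈ Icc τ t₁) :
    seed (tw Q) m * Real.exp (-(rho (tw Q) (n + 1) / tw Q (n + 1) ^ 2)) < x (m + 2) t ∧
      x (m + 2) t < seed (tw Q) m * Real.exp (rho (tw Q) (n + 1) / tw Q (n + 1) ^ 2) := by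
  have sy := h.sy h1 h2 c
  have hg := abs_le.1 (h.growth h1 h2 c hΘ hF0 hFc hFd hm hN ht)
  have hpos : 0 < x (m + 2) t := lt_of_lt_of_le (Real.exp_pos _) (h.low (c t ht) hm hN)
  obtain ⟨b1, b2⟩ := h.bd m hN (by omega)
  have hsd : 0 < seed (tw Q) m := by unfold seed; positivity
  have hpos' : 0 < x (m + 2) τ := lt_of_lt_of_le (by positivity) b1
  have g1 := Real.log_le_log (by positivity) b1
  have g2 := Real.log_le_log hpos' b2
  have f1 := sy.intw hΘ hF0 hFc hFd ht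
  have f0 : 0 ≤ F t := by
    have := mono_of (f := F) (f' := fun t => Real.exp (tw Q n) ^ 5 * x (n + 2) t) hFc hFd
      (fun s hs => mul_nonneg (by positivity) (sy.wpos (Ico_subset_Icc_self hs)).le) t ht
    rwa [hF0] at this
  have t0 := sy.Θ_nonneg hΘ ht
  have t1 := sy.Θ_le hΘ ht
  have hR := (h.B n).Rr_pos
  have hR1 := (h.B (n + 1)).Rr_pos
  have hs1 := (h.B n).small2
  have hs3 := (h.B n).small3
  have hs4 := (h.B n).S6 (h.B (n + 1))
  have hs5 := (h.B (n + 1)).vv_le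
  have hq0 := (h.B n).pos
  have hq1 := (h.B (n + 1)).pos
  have hq := (h.B n).q100
  have hq2 : 1 / tw Q n ^ 2 ≤ 1 / 10000 := by
    have h3 : (10000 : ℝ) ≤ tw Q n ^ 2 := by nlinarith
    exact one_div_le_one_div_of_le (by norm_num) h3
  have hpi := Real.pi_lt_d2
  unfold seed at g1 g2 ⊢
  rw [rho_eq, rho_eq, ← Real.exp_add, Real.log_exp] at g1 g2
  rw [rho_eq, rho_eq, ← Real.exp_add, ← Real.exp_add, ← Real.lt_log_iff_exp_lt hpos,
    ← Real.log_lt_iff_lt_exp hpos]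
  rw [tw_succ] at hR1 hs5 hq1 ⊢
  have k1 : Rr (tw Q n) * Θ t ≤ Rr (tw Q n) * (17 / 10) :=
    mul_le_mul_of_nonneg_left (by linarith) hR.le
  have k2 : Rr (Real.exp (tw Q n)) * F t ≤
      3 / 10 * (Rr (Real.exp (tw Q n)) / Real.exp (tw Q n) ^ 2) := by
    calc Rr (Real.exp (tw Q n)) * F t
        ≤ Rr (Real.exp (tw Q n)) * (3 * (1 / 10 * (1 / Real.exp (tw Q n) ^ 2))) := by
          refine mul_le_mul_of_nonneg_left (f1.trans ?_) hR1.le
          linarith
      _ = 3 / 10 * (Rr (Real.exp (tw Q n)) / Real.exp (tw Q n) ^ 2) := by ring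
  have k3 : 0 ≤ Rr (tw Q n) * Θ t := mul_nonneg hR.le t0
  have k4 : 0 ≤ Rr (Real.exp (tw Q n)) * F t := mul_nonneg hR1.le f0
  have k5 : 0 < Rr (Real.exp (tw Q n)) / Real.exp (tw Q n) ^ 2 := by positivity
  constructor
  · linarith [hg.1]
  · linarith [hg.2]

end Dt

/-- The functions whose signs are the conditions. -/
noncomputable def hh (Q : ℝ) (N n : ℕ) (x : ℕ → ℝ → ℝ) :
    Option (Option (Option (Fin N × Bool))) → ℝ → ℝ
  | none => fun s => vv (tw Q (n + 1)) - x (n + 2) s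
  | some none => fun s => x (n + 1) s
  | some (some none) => fun s => x (n + 2) s - Real.exp (-(2 * Rr (tw Q n)))
  | some (some (some (i, true))) => fun s =>
      if n + 1 ≤ (i : ℕ) ∧ (i : ℕ) + 2 < N then x (i + 2) s -
        seed (tw Q) i * Real.exp (-(rho (tw Q) (n + 1) / tw Q (n + 1) ^ 2)) else 1
  | some (some (some (i, false))) => fun s =>
      if n + 1 ≤ (i : ℕ) ∧ (i : ℕ) + 2 < N then
        seed (tw Q) i * Real.exp (rho (tw Q) (n + 1) / tw Q (n + 1) ^ 2) - x (i + 2) s else 1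

lemma cd_of {Q : ℝ} {N n : ℕ} {x : ℕ → ℝ → ℝ} {s : ℝ} (h : ∀ j, 0 ≤ hh Q N n x j s) :
    Cd Q N n x s := by
  refine ⟨h (some none), ?_, ?_, fun m hm hk => ?_⟩
  · have := h (some (some none))
    simp only [hh] at this
    linarith
  · have := h none
    simp only [hh] at this
    linarith
  · have h1 := h (some (some (some (⟨m, by omega⟩, true))))
    have h2 := h (some (some (some (⟨m, by omega⟩, false))))
    simp only [hh, if_pos (And.intro hk hm)] at h1 h2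
    constructor <;> linarith

theorem main {Q : ℝ} {N n : ℕ} {x : ℕ → ℝ → ℝ} {τ : ℝ} (h : Dt Q N n x τ) :
    ∃ τ' > τ, 1 / tw Q n ^ 5 ≤ τ' - τ ∧ τ' - τ ≤ 8 * Real.log (tw Q n) / tw Q n ^ 5 ∧
    x (n + 2) τ' = vis (tw Q) (n + 1) ∧ |x n τ'| ≤ 3 / tw Q n ^ 2 ∧ 0 < x (n + 1) τ' ∧
    ∀ t ∈ Icc τ τ', |x (n + 2) t| ≤ vis (tw Q) (n + 1) ∧
      Bd (tw Q) N (n + 1) (n + 1) (fun m => x m t) := by
  have hn := h.hn
  have hB := h.B n
  have hB1 := h.B (n + 1)
  have hq := hB.pos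
  have hl := hB.l4
  have hR := hB.Rr_pos
  have hab : τ ≤ τ + 8 * Real.log (tw Q n) / tw Q n ^ 5 := by
    have : 0 ≤ 8 * Real.log (tw Q n) / tw Q n ^ 5 := by positivity
    linarith
  have hc0 : ∀ k < N, ContinuousOn (x k) (Icc τ (τ + 8 * Real.log (tw Q n) / tw Q n ^ 5)) :=
    fun k hk => h.cont hk _
  obtain ⟨b1, b2⟩ := h.bd n (by omega) le_rfl
  have hsd : ∀ m, 0 < seed (tw Q) m := fun m => by unfold seed; positivity
  have hw0 : 0 < x (n + 2) τ := lt_of_lt_of_le (by have := hsd n; positivity) b1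
  have hpi := Real.pi_gt_d2
  have hpi' := Real.pi_lt_d2
  have hS6 := hB.S6 hB1
  have hR1 := hB1.Rr_pos
  have hs2 := hB.small2
  have h46 : Rr (tw Q n) / tw Q n ^ 2 < rho (tw Q) (n + 1) / tw Q (n + 1) ^ 2 := by
    rw [rho_eq, tw_succ]
    rw [tw_succ] at hR1
    linarith
  obtain ⟨t, ht, hat, hz, hnn⟩ := exit_time (hh Q N n x) hab (fun j => by
      rcases j with _ | _ | _ | ⟨i, _ | _⟩
      · exact continuousOn_const.sub (hc0 _ (by omega))
      · exact hc0 _ (by omega)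
      · exact (hc0 _ (by omega)).sub continuousOn_const
      · by_cases hi : n + 1 ≤ (i : ℕ) ∧ (i : ℕ) + 2 < N
        · simp only [hh, if_pos hi]
          exact continuousOn_const.sub (hc0 _ hi.2)
        · simp only [hh, if_neg hi]
          exact continuousOn_const
      · by_cases hi : n + 1 ≤ (i : ℕ) ∧ (i : ℕ) + 2 < N
        · simp only [hh, if_pos hi]
          exact (hc0 _ hi.2).sub continuousOn_const
        · simp only [hh, if_neg hi]
          exact continuousOn_const) (fun j => by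
      rcases j with _ | _ | _ | ⟨i, _ | _⟩
      · simp only [hh, sub_pos]
        refine lt_of_le_of_lt b2 ?_
        unfold seed
        rw [rho_eq, ← Real.exp_add, ← Real.lt_log_iff_exp_lt hB1.vv_pos, hB1.log_vv, tw_succ,
          Real.log_exp]
        have h3 := hB.small3
        have h6 : 157 / 100 * Rr (tw Q n) ≤ Real.pi / 2 * Rr (tw Q n) := by
          refine mul_le_mul_of_nonneg_right ?_ hR.le
          linarith
        linarith
      · simp only [hh, h.r0]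
        exact hB.vv_pos
      · simp only [hh, sub_pos]
        refine lt_of_lt_of_le ?_ b1
        unfold seed
        rw [rho_eq, ← Real.exp_add]
        refine Real.exp_lt_exp.2 ?_
        have h6 : Real.pi / 2 * Rr (tw Q n) ≤ 158 / 100 * Rr (tw Q n) := by
          refine mul_le_mul_of_nonneg_right ?_ hR.le
          linarith
        linarith
      · by_cases hi : n + 1 ≤ (i : ℕ) ∧ (i : ℕ) + 2 < N
        · simp only [hh, if_pos hi, sub_pos]
          refine lt_of_le_of_lt (h.bd i hi.2 (by omega)).2 ?_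
          exact mul_lt_mul_of_pos_left (Real.exp_lt_exp.2 h46) (hsd i)
        · simp only [hh, if_neg hi]
          exact one_pos
      · by_cases hi : n + 1 ≤ (i : ℕ) ∧ (i : ℕ) + 2 < N
        · simp only [hh, if_pos hi, sub_pos]
          refine lt_of_lt_of_le ?_ (h.bd i hi.2 (by omega)).1
          exact mul_lt_mul_of_pos_left (Real.exp_lt_exp.2 (neg_lt_neg h46)) (hsd i)
        · simp only [hh, if_neg hi]
          exact one_pos) none (fun t ht hC => by
      have c : ∀ s ∈ Icc τ t, Cd Q N n x s := fun s hs => cd_of (hC s hs)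
      have sy := h.sy ht.1 ht.2 c
      have htt : t ∈ Icc τ t := right_mem_Icc.2 ht.1
      obtain ⟨Θ, T0, Tc, Td⟩ := antider ht.1 (f := fun s => tw Q n ^ 5 * x (n + 1) s)
        (continuousOn_const.mul (h.cont (by omega) _))
      obtain ⟨F, F0, Fc, Fd⟩ := antider ht.1 (f := fun s => Real.exp (tw Q n) ^ 5 * x (n + 2) s)
        (continuousOn_const.mul (h.cont (by omega) _))
      have hΘ : An (tw Q n) τ t (x (n + 1)) Θ := ⟨T0, Tc, Td⟩
      obtain ⟨s1, s2⟩ := sy.strict hΘ htt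
      refine ⟨fun j hj => ?_, sy.not_end hΘ⟩
      rcases j with _ | _ | _ | ⟨i, _ | _⟩
      · exact absurd rfl hj
      · exact s1
      · simp only [hh, sub_pos]
        exact s2
      · by_cases hi : n + 1 ≤ (i : ℕ) ∧ (i : ℕ) + 2 < N
        · simp only [hh, if_pos hi, sub_pos]
          exact (h.high ht.1 ht.2 c hΘ F0 Fc Fd hi.1 hi.2 htt).2
        · simp only [hh, if_neg hi]
          exact one_pos
      · by_cases hi : n + 1 ≤ (i : ℕ) ∧ (i : ℕ) + 2 < N
        · simp only [hh, if_pos hi, sub_pos]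
          exact (h.high ht.1 ht.2 c hΘ F0 Fc Fd hi.1 hi.2 htt).1
        · simp only [hh, if_neg hi]
          exact one_pos)
  have c : ∀ s ∈ Icc τ t, Cd Q N n x s := fun s hs => cd_of (hnn s hs)
  have sy := h.sy ht.1 ht.2 c
  have htt : t ∈ Icc τ t := right_mem_Icc.2 ht.1
  obtain ⟨Θ, T0, Tc, Td⟩ := antider ht.1 (f := fun s => tw Q n ^ 5 * x (n + 1) s)
    (continuousOn_const.mul (h.cont (by omega) _))
  have hΘ : An (tw Q n) τ t (x (n + 1)) Θ := ⟨T0, Tc, Td⟩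
  have he : x (n + 2) t = vv (Real.exp (tw Q n)) := by
    simp only [hh] at hz
    rw [tw_succ] at hz
    linarith
  obtain ⟨f1, f2⟩ := sy.fin hΘ he
  refine ⟨t, hat, f2, by linarith [ht.2], he, f1, (sy.strict hΘ htt).1, fun s hs => ⟨?_, (c s hs).bd⟩⟩
  rw [abs_of_pos (sy.wpos hs)]
  exact (c s hs).w'

end E1

theorem t_E1 : S_E1 := by
  obtain ⟨Q₁, h2, hQ⟩ := E1.exists_big
  refine ⟨Q₁, h2, fun Q hQQ N x fe n hn τ τ0 en p0 r0 bd => ?_⟩
  exact E1.main ⟨fun k => hQ _ (le_trans hQQ (E1.tw_ge k)), fe, hn, τ0, en, p0, r0, bd⟩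

end Pool.Agent.N976.EE
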