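import Pool.Agent.N976.EE.Def
import Pool.Agent.N976.UE.Y3

/-!
# (E1) One stage of the Euler cascade: large numbers, calculus, the three active modes
-/

open Set Filter Topology MeasureTheory
open scoped ContDiff

set_option autoImplicit false

namespace Pool.Agent.N976.EE

open Pool.Agent.N976.SC Pool.Agent.N976.EN Pool.Agent.N976.UE

namespace E1

/-! ### Large numbers -/

/-- `q` is large. -/
structure Big (q : ℝ) : Prop where
  q100 : 100 ≤ q
  l4 : 4 ≤ Real.log q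
  l5 : 200 * (Real.log q ^ 5 + 1) ≤ q
  l6 : 144 * Real.log q ^ 6 ≤ q
  e10 : q ^ 10 ≤ Real.exp q

lemma exists_big : ∃ Q₁ : ℝ, 2 ≤ Q₁ ∧ ∀ q ≥ Q₁, Big q := by
  have e1 : ∀ᶠ q : ℝ in atTop, 4 ≤ Real.log q := Real.tendsto_log_atTop.eventually_ge_atTop 4
  have e2 : ∀ᶠ q : ℝ in atTop, |Real.log q ^ 5| ≤ 1 / 400 * |q| := by
    have := (Real.isLittleO_pow_log_id_atTop (n := 5)).bound (c := 1 / 400) (by norm_num)
    simpa using this
  have e3 : ∀ᶠ q : ℝ in atTop, |Real.log q ^ 6| ≤ 1 / 144 * |q| := by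
    have := (Real.isLittleO_pow_log_id_atTop (n := 6)).bound (c := 1 / 144) (by norm_num)
    simpa using this
  have e4 : ∀ᶠ q : ℝ in atTop, q ^ 10 * Real.exp (-q) ≤ 1 := by
    have := Real.tendsto_pow_mul_exp_neg_atTop_nhds_zero 10
    exact this.eventually_le_const (by norm_num)
  obtain ⟨A, hA⟩ := eventually_atTop.1 (e1.and (e2.and (e3.and e4)))
  refine ⟨max 400 A, le_trans (by norm_num) (le_max_left _ _), fun q hq => ?_⟩
  have h400 : 400 ≤ q := (le_max_left _ _).trans hq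
  obtain ⟨h1, h2, h3, h4⟩ := hA q ((le_max_right _ _).trans hq)
  have h5 := le_abs_self (Real.log q ^ 5)
  have h6 := le_abs_self (Real.log q ^ 6)
  rw [abs_of_pos (by linarith : (0 : ℝ) < q)] at h2 h3
  refine ⟨by linarith, h1, by linarith, by linarith, ?_⟩
  rw [Real.exp_neg, ← div_eq_mul_inv, div_le_one (Real.exp_pos _)] at h4
  exact h4

/-- `ρ` -/
noncomputable def Rr (z : ℝ) : ℝ := (Real.exp z / z) ^ 5

/-- the visible amplitude -/
noncomputable def vv (z : ℝ) : ℝ := z ^ (-(5 / 2 : ℝ))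

namespace Big

variable {q : ℝ} (h : Big q)
include h

lemma pos : 0 < q := by linarith [h.q100]

lemma p5 : q ≤ q ^ 5 := le_self_pow₀ (by linarith [h.q100]) (by norm_num)

lemma l5' : 2 * Real.log q ^ 5 + 2 ≤ q ^ 5 / 100 := by
  linarith [h.l5, h.p5]

lemma l_le : Real.log q ≤ q := by linarith [Real.log_le_sub_one_of_pos h.pos]

lemma Rr_ge : Real.exp q ^ 4 ≤ Rr q := by
  have h0 := h.pos
  have h1 : q ^ 5 ≤ Real.exp q := by
    refine le_trans ?_ h.e10
    exact pow_le_pow_right₀ (by linarith [h.q100]) (by norm_num)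
  unfold Rr
  rw [div_pow, le_div_iff₀ (by positivity)]
  calc Real.exp q ^ 4 * q ^ 5 ≤ Real.exp q ^ 4 * Real.exp q := by gcongr
    _ = Real.exp q ^ 5 := by ring

lemma Rr_le : Rr q ≤ Real.exp q ^ 5 := by
  have h0 := h.pos
  have h1 := Real.exp_pos q
  unfold Rr
  refine pow_le_pow_left₀ (by positivity) ?_ 5
  rw [div_le_iff₀ h0]
  have := h.q100
  nlinarith

lemma Rr_mul : q ^ 5 * Rr q = Real.exp q ^ 5 := by
  have h0 := h.pos
  unfold Rr
  field_simp

lemma Rr_big : 10 ^ 12 * q ^ 3 ≤ Rr q := by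
  have h0 := h.pos
  have h1 := h.q100
  have h2 : q ^ 10 ≤ Rr q := by
    refine le_trans (h.e10.trans ?_) h.Rr_ge
    exact le_self_pow₀ (Real.one_le_exp h0.le) (by norm_num)
  refine le_trans ?_ h2
  calc (10 : ℝ) ^ 12 * q ^ 3 ≤ 100 ^ 7 * q ^ 3 := by gcongr; norm_num
    _ ≤ q ^ 7 * q ^ 3 := by gcongr
    _ = q ^ 10 := by ring

lemma Rr_pos : 0 < Rr q := by
  have h0 := h.pos
  have := h.Rr_big
  have : 0 < 10 ^ 12 * q ^ 3 := by positivity
  linarith

/-- `9 ℓ + 5 q / 2` is small -/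
lemma small1 : 9 * Real.log q + 5 / 2 * q ≤ 1 / 1000 * (Rr q / q ^ 2) := by
  have h0 := h.pos
  have h1 := h.q100
  have h2 := h.Rr_big
  have h3 := h.l_le
  rw [← mul_div_assoc, le_div_iff₀ (by positivity)]
  have h4 : (9 * Real.log q + 5 / 2 * q) * q ^ 2 ≤ (23 / 2 * q) * q ^ 2 := by
    gcongr
    linarith
  have h5 : (0 : ℝ) < q ^ 3 := by positivity
  nlinarith

lemma small2 : Rr q / q ^ 2 ≤ 1 / 10000 * Rr q := by
  have h0 := h.pos
  have h1 := h.q100
  have h2 := h.Rr_pos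
  rw [div_le_iff₀ (by positivity)]
  have h3 : (10000 : ℝ) ≤ q ^ 2 := by nlinarith
  nlinarith

lemma small3 : 9 * Real.log q + 5 / 2 * q ≤ 1 / 1000 * Rr q := by
  have h1 := h.small1
  have h2 := h.small2
  have h3 := h.Rr_pos
  linarith

lemma small4 : 10 ^ 6 * q ≤ Rr q := by
  have h0 := h.pos
  have h1 := h.q100
  have h2 := h.Rr_big
  have h3 : q ≤ q ^ 3 := le_self_pow₀ (by linarith) (by norm_num)
  have h4 : (0 : ℝ) < q ^ 3 := by positivity
  linarith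

lemma vv_pos : 0 < vv q := Real.rpow_pos_of_pos h.pos _

lemma vv_sq : q ^ 5 * vv q ^ 2 = 1 := by
  have h0 := h.pos
  unfold vv
  rw [← Real.rpow_natCast (q ^ (-(5 / 2 : ℝ))) 2, ← Real.rpow_mul h0.le, ← Real.rpow_natCast q 5,
    ← Real.rpow_add h0]
  norm_num

lemma log_vv : Real.log (vv q) = -(5 / 2 * Real.log q) := by
  unfold vv
  rw [Real.log_rpow h.pos]
  ring

lemma vv_le : vv q ≤ 1 / 10 * (1 / q ^ 2) := by
  have h0 := h.pos
  have h1 := h.q100
  have h2 := h.vv_sq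
  have h3 := h.vv_pos
  have h4 : (vv q * q ^ 2) ^ 2 ≤ (1 / 10) ^ 2 := by
    have h5 : (vv q * q ^ 2) ^ 2 * q = 1 := by
      calc (vv q * q ^ 2) ^ 2 * q = q ^ 5 * vv q ^ 2 := by ring
        _ = 1 := h2
    have h6 : 0 ≤ (vv q * q ^ 2) ^ 2 := sq_nonneg _
    nlinarith
  have h5 : vv q * q ^ 2 ≤ 1 / 10 := by
    have h6 : 0 < vv q * q ^ 2 := by positivity
    nlinarith
  rw [mul_one_div, le_div_iff₀ (by positivity)]
  exact h5

lemma eta_le : 1 / q ^ 4 ≤ 1 / 1000 * vv q := by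
  have h0 := h.pos
  have h1 := h.q100
  have h2 := h.vv_sq
  have h3 := h.vv_pos
  have h4 := h.vv_le
  have h5 : 1 / q ^ 4 = vv q * (vv q * q) := by
    rw [div_eq_iff (by positivity)]
    calc (1 : ℝ) = q ^ 5 * vv q ^ 2 := h2.symm
      _ = vv q * (vv q * q) * q ^ 4 := by ring
  have h6 : vv q * q ≤ 1 / 1000 := by
    calc vv q * q ≤ 1 / 10 * (1 / q ^ 2) * q := by gcongr
      _ = 1 / 10 * (1 / q) := by field_simp
      _ ≤ 1 / 10 * (1 / 100) := by gcongr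
      _ = 1 / 1000 := by norm_num
  rw [h5, mul_comm (1 / 1000 : ℝ)]
  exact mul_le_mul_of_nonneg_left h6 h3.le

lemma vv_small : vv q ≤ 1 / 100000 := by
  have h0 := h.pos
  have h1 := h.q100
  refine h.vv_le.trans ?_
  calc 1 / 10 * (1 / q ^ 2) ≤ 1 / 10 * (1 / 100 ^ 2) := by gcongr
    _ = 1 / 100000 := by norm_num

lemma inv_vv : 1 ≤ q ^ 5 * vv q := by
  have h2 := h.vv_sq
  have h3 := h.vv_pos
  have h4 := h.vv_small
  have h5 : 0 < q ^ 5 := by have := h.pos; positivity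
  have h6 : q ^ 5 * vv q ^ 2 ≤ q ^ 5 * vv q := by
    refine mul_le_mul_of_nonneg_left ?_ h5.le
    nlinarith
  linarith

end Big

/-! ### Calculus -/

lemma mono_of {f f' : ℝ → ℝ} {a b : ℝ} (hf : ContinuousOn f (Icc a b))
    (hf' : ∀ x ∈ Ico a b, HasDerivWithinAt f (f' x) (Ici x) x) (h0 : ∀ x ∈ Ico a b, 0 ≤ f' x) :
    ∀ x ∈ Icc a b, f a ≤ f x :=
  image_le_of_deriv_right_le_deriv_boundary (f := fun _ => f a) (f' := fun _ => 0)
    continuousOn_const (fun x _ => hasDerivWithinAt_const _ _ _) le_rfl hf hf' h0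

lemma ge_lin {f f' : ℝ → ℝ} {a b c : ℝ} (hf : ContinuousOn f (Icc a b))
    (hf' : ∀ x ∈ Ico a b, HasDerivWithinAt f (f' x) (Ici x) x) (h0 : ∀ x ∈ Ico a b, c ≤ f' x) :
    ∀ x ∈ Icc a b, f a + c * (x - a) ≤ f x := by
  intro x hx
  have h := mono_of (f := fun x => f x - c * x) (f' := fun x => f' x - c * 1)
    (hf.sub (continuousOn_const.mul continuousOn_id))
    (fun x hx => (hf' x hx).sub ((hasDerivWithinAt_id x _).const_mul c))
    (fun x hx => by have := h0 x hx; linarith) x hx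
  linarith

lemma le_lin {f f' : ℝ → ℝ} {a b c : ℝ} (hf : ContinuousOn f (Icc a b))
    (hf' : ∀ x ∈ Ico a b, HasDerivWithinAt f (f' x) (Ici x) x) (h0 : ∀ x ∈ Ico a b, f' x ≤ c) :
    ∀ x ∈ Icc a b, f x ≤ f a + c * (x - a) := by
  intro x hx
  have h := ge_lin (f := fun x => -f x) (f' := fun x => -f' x) (c := -c) hf.neg
    (fun x hx => (hf' x hx).neg) (fun x hx => neg_le_neg (h0 x hx)) x hx
  linarith

lemma abs_lin {f f' : ℝ → ℝ} {a b c : ℝ} (hf : ContinuousOn f (Icc a b))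
    (hf' : ∀ x ∈ Ico a b, HasDerivWithinAt f (f' x) (Ici x) x) (h0 : ∀ x ∈ Ico a b, |f' x| ≤ c) :
    ∀ x ∈ Icc a b, |f x - f a| ≤ c * (x - a) := by
  intro x hx
  have h1 := ge_lin hf hf' (fun x hx => (abs_le.1 (h0 x hx)).1) x hx
  have h2 := le_lin hf hf' (fun x hx => (abs_le.1 (h0 x hx)).2) x hx
  rw [abs_le]
  constructor <;> linarith

lemma antider {f : ℝ → ℝ} {a b : ℝ} (hab : a ≤ b) (hf : ContinuousOn f (Icc a b)) :
    ∃ F : ℝ → ℝ, F a = 0 ∧ ContinuousOn F (Icc a b) ∧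
      ∀ t ∈ Ico a b, HasDerivWithinAt F (f t) (Ici t) t := by
  have hg : Continuous (IccExtend hab ((Icc a b).domRestrict f)) :=
    (continuousOn_iff_continuous_domRestrict.1 hf).Icc_extend'
  set g := IccExtend hab ((Icc a b).domRestrict f) with hgdef
  have hd : ∀ t, HasDerivAt (fun u => ∫ x in a..u, g x) (g t) t := fun t =>
    (hg.integral_hasStrictDerivAt a t).hasDerivAt
  refine ⟨fun u => ∫ x in a..u, g x, intervalIntegral.integral_same, ?_, fun t ht => ?_⟩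
  · exact fun t _ => (hd t).continuousAt.continuousWithinAt
  · have h1 : g t = f t := by
      rw [hgdef, IccExtend_of_mem hab _ (Ico_subset_Icc_self ht)]
      rfl
    rw [← h1]
    exact (hd t).hasDerivWithinAt

/-- The first exit time. -/
lemma exit_time {ι : Type} [Finite ι] (h : ι → ℝ → ℝ) {a b : ℝ} (hab : a ≤ b)
    (hc : ∀ j, ContinuousOn (h j) (Icc a b)) (h0 : ∀ j, 0 < h j a) (j₀ : ι)
    (hs : ∀ t ∈ Icc a b, (∀ s ∈ Icc a t, ∀ j, 0 ≤ h j s) → (∀ j, j ≠ j₀ → 0 < h j t) ∧ t ≠ b) :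
    ∃ t ∈ Icc a b, a < t ∧ h j₀ t = 0 ∧ ∀ s ∈ Icc a t, ∀ j, 0 ≤ h j s := by
  set B : Set ℝ := ⋃ j, {t | t ∈ Icc a b ∧ h j t ≤ 0} with hB
  have hBc : IsClosed B := by
    refine isClosed_iUnion_of_finite fun j => ?_
    exact (hc j).preimage_isClosed_of_isClosed isClosed_Icc isClosed_Iic
  have hBsub : B ⊆ Icc a b := by
    intro t ht
    obtain ⟨j, hj⟩ := mem_iUnion.1 ht
    exact hj.1
  have hBk : IsCompact B := isCompact_Icc.of_isClosed_subset hBc hBsub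
  have hBne : B.Nonempty := by
    by_contra hne
    rw [Set.not_nonempty_iff_eq_empty] at hne
    have h1 : ∀ s ∈ Icc a b, ∀ j, 0 ≤ h j s := by
      intro s hs' j
      by_contra hcon
      push Not at hcon
      have : s ∈ B := mem_iUnion.2 ⟨j, hs', hcon.le⟩
      rw [hne] at this
      exact this
    exact (hs b (right_mem_Icc.2 hab) h1).2 rfl
  obtain ⟨t, htB, htmin⟩ := hBk.exists_isLeast hBne
  have htI := hBsub htB
  have hat : a < t := by
    rcases htI.1.lt_or_eq with h1 | h1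
    · exact h1
    · obtain ⟨j, hj⟩ := mem_iUnion.1 htB
      have h2 := h0 j
      rw [h1] at h2
      exact absurd hj.2 (not_le.2 h2)
  have hpos : ∀ s ∈ Ico a t, ∀ j, 0 < h j s := by
    intro s hs' j
    by_contra hcon
    push Not at hcon
    have : s ∈ B := mem_iUnion.2 ⟨j, ⟨hs'.1, hs'.2.le.trans htI.2⟩, hcon⟩
    exact absurd (htmin this) (not_le.2 hs'.2)
  have hnn : ∀ s ∈ Icc a t, ∀ j, 0 ≤ h j s := by
    intro s hs' j
    have h1 : IsClosed {x | x ∈ Icc a b ∧ 0 ≤ h j x} :=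
      (hc j).preimage_isClosed_of_isClosed isClosed_Icc isClosed_Ici
    have h2 : Ico a t ⊆ {x | x ∈ Icc a b ∧ 0 ≤ h j x} := fun x hx =>
      ⟨⟨hx.1, hx.2.le.trans htI.2⟩, (hpos x hx j).le⟩
    have h3 := h1.closure_subset_iff.2 h2
    rw [closure_Ico hat.ne] at h3
    exact (h3 hs').2
  obtain ⟨h1, _⟩ := hs t htI hnn
  refine ⟨t, htI, hat, ?_, hnn⟩
  obtain ⟨j, hj⟩ := mem_iUnion.1 htB
  have hjj : j = j₀ := by
    by_contra hne
    exact absurd hj.2 (not_le.2 (h1 j hne))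
  rw [← hjj]
  exact le_antisymm hj.2 (hnn t (right_mem_Icc.2 hat.le) j)

lemma sum_tail {a : ℕ → ℝ} {j₀ : ℕ} (h0 : ∀ i, 0 ≤ a i) (h : ∀ i ≥ j₀, a (i + 1) ≤ a i / 2) :
    ∀ j ≥ j₀, ∀ N, ∑ i ∈ Finset.Ico j N, a i ≤ 2 * a j := by
  have key : ∀ d j, j₀ ≤ j → ∑ i ∈ Finset.Ico j (j + d), a i ≤ 2 * a j := by
    intro d
    induction d with
    | zero =>
      intro j _
      rw [Nat.add_zero, Finset.Ico_self, Finset.sum_empty]
      linarith [h0 j]
    | succ d ih =>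
      intro j hj
      rw [Finset.sum_eq_sum_Ico_succ_bot (by omega)]
      have h1 := ih (j + 1) (by omega)
      rw [show j + 1 + d = j + (d + 1) by ring] at h1
      have h2 := h j hj
      linarith
  intro j hj N
  rcases le_total j N with h1 | h1
  · obtain ⟨d, rfl⟩ := Nat.exists_eq_add_of_le h1
    exact key d j hj
  · rw [Finset.Ico_eq_empty_of_le h1, Finset.sum_empty]
    linarith [h0 j]

/-! ### The three active modes -/

/-- The data of one stage. -/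
structure Sy (q τ t₁ : ℝ) (p r w S tl δ : ℝ → ℝ) : Prop where
  B : Big q
  Y : Big (Real.exp q)
  h1 : τ ≤ t₁
  h2 : t₁ ≤ τ + 8 * Real.log q / q ^ 5
  cp : ContinuousOn p (Icc τ t₁)
  cr : ContinuousOn r (Icc τ t₁)
  cw : ContinuousOn w (Icc τ t₁)
  dp : ∀ t ∈ Ico τ t₁, HasDerivWithinAt p
    (p t * S t - q ^ 5 * (r t ^ 2 + w t ^ 2 + tl t)) (Ici t) t
  dr : ∀ t ∈ Ico τ t₁, HasDerivWithinAt r
    (r t * (S t + q ^ 5 * p t) - Real.exp q ^ 5 * (w t ^ 2 + tl t)) (Ici t) t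
  dw : ∀ t ∈ Ico τ t₁, HasDerivWithinAt w
    (w t * (S t + q ^ 5 * p t + Real.exp q ^ 5 * r t) - δ t) (Ici t) t
  S2 : ∀ t ∈ Icc τ t₁, |S t| ≤ 2 * Real.log q ^ 5
  pb : ∀ t ∈ Icc τ t₁, |p t| ≤ 101 / 100
  rb : ∀ t ∈ Icc τ t₁, |r t| ≤ 101 / 100
  tl0 : ∀ t ∈ Icc τ t₁, 0 ≤ tl t
  tl1 : ∀ t ∈ Icc τ t₁, Real.exp q ^ 5 * tl t ≤ 1 / 1000
  δ0 : ∀ t ∈ Icc τ t₁, 0 ≤ δ t
  δ1 : ∀ t ∈ Icc τ t₁, δ t ≤ w t
  p0 : 9 / 10 ≤ p τ
  r0 : r τ = vv q
  w0 : -(Real.pi / 2 * Rr q) - Rr q / q ^ 2 ≤ Real.log (w τ)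
  w0' : Real.log (w τ) ≤ -(Real.pi / 2 * Rr q) + Rr q / q ^ 2
  Cr : ∀ t ∈ Icc τ t₁, 0 ≤ r t
  Cw : ∀ t ∈ Icc τ t₁, Real.exp (-(2 * Rr q)) ≤ w t
  Cw' : ∀ t ∈ Icc τ t₁, w t ≤ vv (Real.exp q)

/-- The angle. -/
structure An (q τ t₁ : ℝ) (r Θ : ℝ → ℝ) : Prop where
  z : Θ τ = 0
  c : ContinuousOn Θ (Icc τ t₁)
  d : ∀ t ∈ Ico τ t₁, HasDerivWithinAt Θ (q ^ 5 * r t) (Ici t) t

namespace Sy

variable {q τ t₁ : ℝ} {p r w S tl δ Θ : ℝ → ℝ} (h : Sy q τ t₁ p r w S tl δ)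
include h

lemma wpos {t : ℝ} (ht : t ∈ Icc τ t₁) : 0 < w t :=
  lt_of_lt_of_le (Real.exp_pos _) (h.Cw t ht)

lemma L0 : 0 < q ^ 5 := by have := h.B.pos; positivity

lemma LY : q ^ 5 ≤ Real.exp q := by
  refine le_trans ?_ h.B.e10
  exact pow_le_pow_right₀ (by linarith [h.B.q100]) (by norm_num)

lemma LY5 : q ^ 5 ≤ Real.exp q ^ 5 :=
  h.LY.trans (le_self_pow₀ (Real.one_le_exp h.B.pos.le) (by norm_num))

/-- the slow rate -/
lemma rate {t : ℝ} (ht : t ∈ Icc τ t₁) : |S t + q ^ 5 * p t| + 1 ≤ 102 / 100 * q ^ 5 := by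
  have h1 := h.S2 t ht
  have h2 := h.pb t ht
  have h3 := h.B.l5'
  have h4 := h.L0
  have h5 : |q ^ 5 * p t| ≤ q ^ 5 * (101 / 100) := by
    rw [abs_mul, abs_of_pos h4]
    exact mul_le_mul_of_nonneg_left h2 h4.le
  have h6 := abs_add_le (S t) (q ^ 5 * p t)
  linarith

lemma dur {t : ℝ} (ht : t ∈ Icc τ t₁) : q ^ 5 * (t - τ) ≤ 8 * Real.log q := by
  have h4 := h.L0
  have h5 : t - τ ≤ 8 * Real.log q / q ^ 5 := by linarith [ht.2, h.h2]
  calc q ^ 5 * (t - τ) ≤ q ^ 5 * (8 * Real.log q / q ^ 5) := by gcongr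
    _ = 8 * Real.log q := by
        have := h.B.pos
        field_simp

/-- growth of `w` -/
lemma growth (hΘ : An q τ t₁ r Θ) {t : ℝ} (ht : t ∈ Icc τ t₁) :
    |Real.log (w t) - Real.log (w τ) - Rr q * Θ t| ≤ 9 * Real.log q := by
  have hl := h.B.l4
  have h1 := abs_lin (f := fun t => Real.log (w t) - Rr q * Θ t)
    (f' := fun t => (w t * (S t + q ^ 5 * p t + Real.exp q ^ 5 * r t) - δ t) / w t -
      Rr q * (q ^ 5 * r t)) (a := τ) (b := t₁) (c := 102 / 100 * q ^ 5)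
    ((h.cw.log fun t ht => (h.wpos ht).ne').sub (continuousOn_const.mul hΘ.c))
    (fun t ht => ((h.dw t ht).log (h.wpos (Ico_subset_Icc_self ht)).ne').sub
      ((hΘ.d t ht).const_mul _))
    (fun t ht => by
      have ht' := Ico_subset_Icc_self ht
      have hw := h.wpos ht'
      have e : (w t * (S t + q ^ 5 * p t + Real.exp q ^ 5 * r t) - δ t) / w t -
          Rr q * (q ^ 5 * r t) = (S t + q ^ 5 * p t) - δ t / w t := by
        rw [← h.B.Rr_mul]
        field_simp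
        ring
      rw [e]
      have h2 : 0 ≤ δ t / w t := div_nonneg (h.δ0 t ht') hw.le
      have h3 : δ t / w t ≤ 1 := (div_le_one hw).2 (h.δ1 t ht')
      have h4 := h.rate ht'
      have h5 := abs_le.1 (le_refl |S t + q ^ 5 * p t|)
      rw [abs_le]
      constructor <;> linarith [h5.1, h5.2]) t ht
  simp only [hΘ.z, mul_zero, sub_zero] at h1
  have h2 := h.dur ht
  have e : Real.log (w t) - Real.log (w τ) - Rr q * Θ t =
      Real.log (w t) - Rr q * Θ t - Real.log (w τ) := by ring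
  rw [e]
  refine h1.trans ?_
  have h3 : 102 / 100 * q ^ 5 * (t - τ) = 102 / 100 * (q ^ 5 * (t - τ)) := by ring
  rw [h3]
  linarith

lemma growth' (hΘ : An q τ t₁ r Θ) {t : ℝ} (ht : t ∈ Icc τ t₁) :
    |Real.log (w t) - Rr q * (Θ t - Real.pi / 2)| ≤ Rr q / q ^ 2 + 9 * Real.log q := by
  have h1 := abs_le.1 (h.growth hΘ ht)
  have h2 := h.w0
  have h3 := h.w0'
  rw [abs_le]
  constructor
  · linarith [h1.1]
  · linarith [h1.2]

lemma Θ_mono (hΘ : An q τ t₁ r Θ) {s t : ℝ} (hs : s ∈ Icc τ t₁) (ht : t ∈ Icc τ t₁)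
    (hst : s ≤ t) : Θ s ≤ Θ t := by
  refine mono_of (f := Θ) (f' := fun t => q ^ 5 * r t) (a := s) (b := t₁)
    (hΘ.c.mono (Icc_subset_Icc_left hs.1))
    (fun x hx => hΘ.d x ⟨hs.1.trans hx.1, hx.2⟩)
    (fun x hx => mul_nonneg h.L0.le (h.Cr x ⟨hs.1.trans hx.1, hx.2.le⟩)) t ⟨hst, ht.2⟩

lemma Θ_nonneg (hΘ : An q τ t₁ r Θ) {t : ℝ} (ht : t ∈ Icc τ t₁) : 0 ≤ Θ t := by
  have := h.Θ_mono hΘ (left_mem_Icc.2 h.h1) ht ht.1
  rwa [hΘ.z] at this

lemma log_w_le {t : ℝ} (ht : t ∈ Icc τ t₁) : Real.log (w t) ≤ -(5 / 2 * q) := by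
  have h1 := Real.log_le_log (h.wpos ht) (h.Cw' t ht)
  rw [h.Y.log_vv, Real.log_exp] at h1
  exact h1

lemma Θ_le (hΘ : An q τ t₁ r Θ) {t : ℝ} (ht : t ∈ Icc τ t₁) :
    Θ t ≤ Real.pi / 2 + 3 / 2 * (1 / q ^ 2) := by
  have h1 := (abs_le.1 (h.growth' hΘ ht)).1
  have h2 := h.log_w_le ht
  have h3 := h.B.small1
  have h4 := h.B.Rr_pos
  have h5 := h.B.pos
  have h6 : Rr q * (Θ t - Real.pi / 2) ≤ Rr q * (3 / 2 * (1 / q ^ 2)) := by
    have e : Rr q * (3 / 2 * (1 / q ^ 2)) = 3 / 2 * (Rr q / q ^ 2) := by ring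
    rw [e]
    have h7 : 0 < Rr q / q ^ 2 := by positivity
    linarith
  have h7 := le_of_mul_le_mul_left h6 h4
  linarith

/-- the quadratic error terms -/
lemma err {t : ℝ} (ht : t ∈ Icc τ t₁) :
    0 ≤ w t ^ 2 + tl t ∧ q ^ 5 * (w t ^ 2 + tl t) ≤ 2 ∧ Real.exp q ^ 5 * (w t ^ 2 + tl t) ≤ 2 := by
  have h1 := h.tl0 t ht
  have h2 := h.tl1 t ht
  have h3 := h.wpos ht
  have h4 := h.Cw' t ht
  have h5 := h.Y.vv_sq
  have h6 := h.LY5
  have h7 : 0 < Real.exp q ^ 5 := by positivity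
  have h8 : Real.exp q ^ 5 * w t ^ 2 ≤ 1 := by
    calc Real.exp q ^ 5 * w t ^ 2 ≤ Real.exp q ^ 5 * vv (Real.exp q) ^ 2 := by gcongr
      _ = 1 := h5
  have h9 : 0 ≤ w t ^ 2 + tl t := by positivity
  have h10 : Real.exp q ^ 5 * (w t ^ 2 + tl t) ≤ 2 := by linarith
  exact ⟨h9, (mul_le_mul_of_nonneg_right h6 h9).trans h10, h10⟩

/-- rotation -/
lemma rot (hΘ : An q τ t₁ r Θ) {t : ℝ} (ht : t ∈ Icc τ t₁) :
    |p t - (p τ * Real.cos (Θ t) - vv q * Real.sin (Θ t))| ≤ 1 / q ^ 4 ∧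
      |r t - (p τ * Real.sin (Θ t) + vv q * Real.cos (Θ t))| ≤ 1 / q ^ 4 := by
  have hl := h.B.l4
  have hq := h.B.pos
  have hl5 : 1 ≤ Real.log q ^ 5 := one_le_pow₀ (by linarith)
  -- the errors
  have hE : ∀ t ∈ Ico τ t₁, ∀ a b : ℝ, |a| ≤ 1 → |b| ≤ 1 →
      |(p t * S t - q ^ 5 * (w t ^ 2 + tl t)) * a +
        (r t * S t - Real.exp q ^ 5 * (w t ^ 2 + tl t)) * b| ≤ 9 * Real.log q ^ 5 := by
    intro t ht a b ha hb
    have ht' := Ico_subset_Icc_self ht
    obtain ⟨e0, e1, e2⟩ := h.err ht'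
    have h1 := h.S2 t ht'
    have h2 := h.pb t ht'
    have h3 := h.rb t ht'
    have h4 : |p t * S t| ≤ 101 / 100 * (2 * Real.log q ^ 5) := by
      rw [abs_mul]
      exact mul_le_mul h2 h1 (abs_nonneg _) (by norm_num)
    have h5 : |r t * S t| ≤ 101 / 100 * (2 * Real.log q ^ 5) := by
      rw [abs_mul]
      exact mul_le_mul h3 h1 (abs_nonneg _) (by norm_num)
    have e3 : 0 ≤ q ^ 5 * (w t ^ 2 + tl t) := mul_nonneg h.L0.le e0
    have e4 : 0 ≤ Real.exp q ^ 5 * (w t ^ 2 + tl t) := mul_nonneg (by positivity) e0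
    have h6 : |p t * S t - q ^ 5 * (w t ^ 2 + tl t)| ≤ 101 / 100 * (2 * Real.log q ^ 5) + 2 := by
      have := abs_sub (p t * S t) (q ^ 5 * (w t ^ 2 + tl t))
      rw [abs_of_nonneg e3] at this
      linarith
    have h7 : |r t * S t - Real.exp q ^ 5 * (w t ^ 2 + tl t)| ≤
        101 / 100 * (2 * Real.log q ^ 5) + 2 := by
      have := abs_sub (r t * S t) (Real.exp q ^ 5 * (w t ^ 2 + tl t))
      rw [abs_of_nonneg e4] at this
      linarith
    refine (abs_add_le _ _).trans ?_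
    rw [abs_mul, abs_mul]
    have h8 : |p t * S t - q ^ 5 * (w t ^ 2 + tl t)| * |a| ≤
        (101 / 100 * (2 * Real.log q ^ 5) + 2) * 1 :=
      mul_le_mul h6 ha (abs_nonneg _) (by positivity)
    have h9 : |r t * S t - Real.exp q ^ 5 * (w t ^ 2 + tl t)| * |b| ≤
        (101 / 100 * (2 * Real.log q ^ 5) + 2) * 1 :=
      mul_le_mul h7 hb (abs_nonneg _) (by positivity)
    have h10 : (4 : ℝ) ≤ Real.log q ^ 5 := by
      calc (4 : ℝ) ≤ Real.log q := hl
        _ ≤ Real.log q ^ 5 := le_self_pow₀ (by linarith) (by norm_num)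
    linarith
  have hcos : ContinuousOn (fun t => Real.cos (Θ t)) (Icc τ t₁) :=
    Real.continuous_cos.comp_continuousOn hΘ.c
  have hsin : ContinuousOn (fun t => Real.sin (Θ t)) (Icc τ t₁) :=
    Real.continuous_sin.comp_continuousOn hΘ.c
  have hu := abs_lin (f := fun t => p t * Real.cos (Θ t) + r t * Real.sin (Θ t))
    (f' := fun t => (p t * S t - q ^ 5 * (r t ^ 2 + w t ^ 2 + tl t)) * Real.cos (Θ t) +
      p t * (-Real.sin (Θ t) * (q ^ 5 * r t)) +
      ((r t * (S t + q ^ 5 * p t) - Real.exp q ^ 5 * (w t ^ 2 + tl t)) * Real.sin (Θ t) +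
      r t * (Real.cos (Θ t) * (q ^ 5 * r t)))) (a := τ) (b := t₁) (c := 9 * Real.log q ^ 5)
    ((h.cp.mul hcos).add (h.cr.mul hsin))
    (fun t ht => ((h.dp t ht).mul (hΘ.d t ht).cos).add ((h.dr t ht).mul (hΘ.d t ht).sin))
    (fun t ht => by
      refine le_trans (le_of_eq ?_) (hE t ht (Real.cos (Θ t)) (Real.sin (Θ t))
        (Real.abs_cos_le_one _) (Real.abs_sin_le_one _))
      congr 1
      ring) t ht
  have hv := abs_lin (f := fun t => r t * Real.cos (Θ t) - p t * Real.sin (Θ t))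
    (f' := fun t => ((r t * (S t + q ^ 5 * p t) - Real.exp q ^ 5 * (w t ^ 2 + tl t)) *
      Real.cos (Θ t) + r t * (-Real.sin (Θ t) * (q ^ 5 * r t))) -
      ((p t * S t - q ^ 5 * (r t ^ 2 + w t ^ 2 + tl t)) * Real.sin (Θ t) +
      p t * (Real.cos (Θ t) * (q ^ 5 * r t)))) (a := τ) (b := t₁) (c := 9 * Real.log q ^ 5)
    ((h.cr.mul hcos).sub (h.cp.mul hsin))
    (fun t ht => ((h.dr t ht).mul (hΘ.d t ht).cos).sub ((h.dp t ht).mul (hΘ.d t ht).sin))
    (fun t ht => by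
      refine le_trans (le_of_eq ?_) (hE t ht (-Real.sin (Θ t)) (Real.cos (Θ t))
        (by rw [abs_neg]; exact Real.abs_sin_le_one _) (Real.abs_cos_le_one _))
      congr 1
      ring) t ht
  have hη : 9 * Real.log q ^ 5 * (t - τ) ≤ 1 / 2 * (1 / q ^ 4) := by
    have h1 := h.dur ht
    have h2 := h.B.l6
    have h3 : 9 * Real.log q ^ 5 * (t - τ) * q ^ 5 ≤ 9 * Real.log q ^ 5 * (8 * Real.log q) := by
      calc 9 * Real.log q ^ 5 * (t - τ) * q ^ 5 = 9 * Real.log q ^ 5 * (q ^ 5 * (t - τ)) := by ring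
        _ ≤ 9 * Real.log q ^ 5 * (8 * Real.log q) := by gcongr
    have h4 : 9 * Real.log q ^ 5 * (8 * Real.log q) ≤ 1 / 2 * q := by
      have e : 9 * Real.log q ^ 5 * (8 * Real.log q) = 72 * Real.log q ^ 6 := by ring
      rw [e]
      linarith
    rw [mul_one_div, le_div_iff₀ (by positivity)]
    have h5 : 9 * Real.log q ^ 5 * (t - τ) * q ^ 4 * q ≤ 1 / 2 * q := by
      calc 9 * Real.log q ^ 5 * (t - τ) * q ^ 4 * q = 9 * Real.log q ^ 5 * (t - τ) * q ^ 5 := by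
            ring
        _ ≤ _ := h3.trans h4
    exact le_of_mul_le_mul_right h5 hq
  simp only [hΘ.z, Real.cos_zero, Real.sin_zero, mul_one, mul_zero, add_zero, sub_zero] at hu hv
  rw [h.r0] at hv
  have hu' := hu.trans hη
  have hv' := hv.trans hη
  have hcs := Real.sin_sq_add_cos_sq (Θ t)
  have c1 := Real.abs_cos_le_one (Θ t)
  have s1 := Real.abs_sin_le_one (Θ t)
  have key : ∀ A B a b e : ℝ, |A| ≤ 1 / 2 * e → |B| ≤ 1 / 2 * e → |a| ≤ 1 → |b| ≤ 1 →
      |A * a + B * b| ≤ e := by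
    intro A B a b e hA hB ha hb
    have h1 : |A| * |a| ≤ 1 / 2 * e * 1 := mul_le_mul hA ha (abs_nonneg _) ((abs_nonneg _).trans hA)
    have h2 : |B| * |b| ≤ 1 / 2 * e * 1 := mul_le_mul hB hb (abs_nonneg _) ((abs_nonneg _).trans hB)
    refine (abs_add_le _ _).trans ?_
    rw [abs_mul, abs_mul]
    linarith
  constructor
  · have e : p t - (p τ * Real.cos (Θ t) - vv q * Real.sin (Θ t)) =
        (p t * Real.cos (Θ t) + r t * Real.sin (Θ t) - p τ) * Real.cos (Θ t) +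
        (r t * Real.cos (Θ t) - p t * Real.sin (Θ t) - vv q) * -Real.sin (Θ t) := by
      linear_combination -p t * hcs
    rw [e]
    exact key _ _ _ _ _ hu' hv' c1 (by rw [abs_neg]; exact s1)
  · have e : r t - (p τ * Real.sin (Θ t) + vv q * Real.cos (Θ t)) =
        (p t * Real.cos (Θ t) + r t * Real.sin (Θ t) - p τ) * Real.sin (Θ t) +
        (r t * Real.cos (Θ t) - p t * Real.sin (Θ t) - vv q) * Real.cos (Θ t) := by
      linear_combination -r t * hcs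
    rw [e]
    exact key _ _ _ _ _ hu' hv' s1 c1

lemma pτ : p τ ≤ 101 / 100 := (le_abs_self _).trans (h.pb τ (left_mem_Icc.2 h.h1))

/-- the first part of the rotation -/
lemma part1 (hΘ : An q τ t₁ r Θ) {t : ℝ} (ht : t ∈ Icc τ t₁) (h1 : Θ t ≤ 1) :
    44 / 100 ≤ p t ∧ 4 / 10 * vv q ≤ r t := by
  obtain ⟨e1, e2⟩ := h.rot hΘ ht
  have h0 := h.Θ_nonneg hΘ ht
  have hc : 1 / 2 ≤ Real.cos (Θ t) := by
    have := Real.one_sub_sq_div_two_le_cos (x := Θ t)
    nlinarith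
  have hs : 0 ≤ Real.sin (Θ t) :=
    Real.sin_nonneg_of_nonneg_of_le_pi h0 (by linarith [Real.pi_gt_three])
  have hs1 := Real.sin_le_one (Θ t)
  have hv := h.B.vv_pos
  have hv1 := h.B.vv_small
  have hη := h.B.eta_le
  have hp := h.p0
  rw [abs_le] at e1 e2
  constructor
  · have h2 : 9 / 10 * (1 / 2) ≤ p τ * Real.cos (Θ t) :=
      mul_le_mul hp hc (by norm_num) (by linarith)
    have h3 : vv q * Real.sin (Θ t) ≤ vv q := by nlinarith
    linarith [e1.1]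
  · have h2 : 0 ≤ p τ * Real.sin (Θ t) := mul_nonneg (by linarith) hs
    have h3 : vv q * (1 / 2) ≤ vv q * Real.cos (Θ t) := mul_le_mul_of_nonneg_left hc hv.le
    linarith [e2.1]

/-- the second part of the rotation -/
lemma part2 (hΘ : An q τ t₁ r Θ) {t : ℝ} (ht : t ∈ Icc τ t₁) (h1 : 1 ≤ Θ t) : 7 / 10 ≤ r t := by
  obtain ⟨e1, e2⟩ := h.rot hΘ ht
  have h0 := h.Θ_le hΘ ht
  have hq := h.B.q100
  have hq2 : 1 / q ^ 2 ≤ 1 / 10000 := by
    have h3 : (10000 : ℝ) ≤ q ^ 2 := by nlinarith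
    exact one_div_le_one_div_of_le (by norm_num) h3
  have hpi := Real.pi_lt_d2
  have hpi2 := Real.pi_gt_d2
  have hs : 83 / 100 ≤ Real.sin (Θ t) := by
    rw [← Real.cos_sub_pi_div_two]
    have := Real.one_sub_sq_div_two_le_cos (x := Θ t - Real.pi / 2)
    have h2 : Θ t - Real.pi / 2 ≤ 1 / 100 := by linarith
    have h3 : -(576 / 1000) ≤ Θ t - Real.pi / 2 := by linarith
    have h4 : (Θ t - Real.pi / 2) ^ 2 ≤ (576 / 1000) ^ 2 :=
      sq_le_sq' (by linarith) (by linarith)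
    linarith
  have hc1 := Real.abs_cos_le_one (Θ t)
  have hv := h.B.vv_pos
  have hv1 := h.B.vv_small
  have hη := h.B.eta_le
  have hp := h.p0
  rw [abs_le] at e2 hc1
  have h2 : 9 / 10 * (83 / 100) ≤ p τ * Real.sin (Θ t) :=
    mul_le_mul hp hs (by norm_num) (by linarith)
  have h3 : vv q * (-1) ≤ vv q * Real.cos (Θ t) := mul_le_mul_of_nonneg_left hc1.1 hv.le
  linarith [e2.1]

/-- `w` is tiny in the first part -/
lemma w_tiny (hΘ : An q τ t₁ r Θ) {t : ℝ} (ht : t ∈ Icc τ t₁) (h1 : Θ t ≤ 1) :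
    w t ≤ Real.exp (-(1 / 2 * Rr q)) := by
  have h2 := (abs_le.1 (h.growth' hΘ ht)).2
  have h3 := h.B.small2
  have h4 := h.B.small3
  have h5 := h.B.Rr_pos
  have hpi := Real.pi_gt_d2
  have h6 := h.B.pos
  rw [← Real.log_le_iff_le_exp (h.wpos ht)]
  have h7 : Rr q * (Θ t - Real.pi / 2) ≤ Rr q * (-(57 / 100)) := by
    refine mul_le_mul_of_nonneg_left ?_ h5.le
    linarith
  linarith

lemma exp_tiny {c : ℝ} (hc : c ≤ Rr q / 2 - 100) : Real.exp c * 100 ≤ Real.exp (1 / 2 * Rr q) := by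
  have h1 : (100 : ℝ) ≤ Real.exp 100 := by linarith [Real.add_one_le_exp (100 : ℝ)]
  calc Real.exp c * 100 ≤ Real.exp c * Real.exp 100 := by gcongr
    _ = Real.exp (c + 100) := (Real.exp_add _ _).symm
    _ ≤ Real.exp (1 / 2 * Rr q) := Real.exp_le_exp.2 (by linarith)

/-- the integral of `Λ (n+1) w` -/
lemma intw (hΘ : An q τ t₁ r Θ) {F : ℝ → ℝ} (hF0 : F τ = 0) (hFc : ContinuousOn F (Icc τ t₁))
    (hFd : ∀ t ∈ Ico τ t₁, HasDerivWithinAt F (Real.exp q ^ 5 * w t) (Ici t) t)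
    {t : ℝ} (ht : t ∈ Icc τ t₁) : F t ≤ 3 * vv (Real.exp q) := by
  set κ : ℝ := 3 * Real.exp q ^ 5 * Real.exp (-(1 / 2 * Rr q)) with hκ
  have hY : 0 < Real.exp q := Real.exp_pos q
  have hY5 : 0 < Real.exp q ^ 5 := by positivity
  have hLY := h.LY
  have hYL : 100 * Real.exp q ≤ Real.exp q ^ 5 := by
    have h1 := h.Y.q100
    calc 100 * Real.exp q ≤ Real.exp q * Real.exp q := by gcongr
      _ = Real.exp q ^ 2 := by ring
      _ ≤ Real.exp q ^ 5 := pow_le_pow_right₀ (by linarith) (by norm_num)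
  have key := mono_of (f := fun t => 2 * w t + κ * t - F t)
    (f' := fun t => 2 * (w t * (S t + q ^ 5 * p t + Real.exp q ^ 5 * r t) - δ t) + κ * 1 -
      Real.exp q ^ 5 * w t) (a := τ) (b := t₁)
    (((continuousOn_const.mul h.cw).add (continuousOn_const.mul continuousOn_id)).sub hFc)
    (fun t ht => (((h.dw t ht).const_mul 2).add ((hasDerivWithinAt_id t _).const_mul κ)).sub
      (hFd t ht))
    (fun t ht => by
      have ht' := Ico_subset_Icc_self ht
      have hw := h.wpos ht'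
      have hr := h.rate ht'
      have hd := h.δ1 t ht'
      have hr0 := h.Cr t ht'
      have h5 := (abs_le.1 (le_refl |S t + q ^ 5 * p t|)).1
      have h6 : w t * (S t + q ^ 5 * p t) - δ t ≥ -(102 / 100 * q ^ 5) * w t := by
        have h7 : (-(102 / 100 * q ^ 5) + 1) * w t ≤ (S t + q ^ 5 * p t) * w t :=
          mul_le_mul_of_nonneg_right (by linarith) hw.le
        linarith
      have hκ0 : 0 ≤ κ := by positivity
      rcases le_total (Θ t) 1 with h1 | h1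
      · have h8 := h.w_tiny hΘ ht' h1
        have h9 : Real.exp q ^ 5 * w t ≤ Real.exp q ^ 5 * Real.exp (-(1 / 2 * Rr q)) := by gcongr
        have h10 : q ^ 5 * w t ≤ 1 / 100 * (Real.exp q ^ 5 * w t) := by
          calc q ^ 5 * w t ≤ Real.exp q * w t := by gcongr
            _ ≤ (1 / 100 * Real.exp q ^ 5) * w t := by gcongr; linarith
            _ = _ := by ring
        have h11 : 0 ≤ w t * (Real.exp q ^ 5 * r t) := by positivity
        have e : w t * (S t + q ^ 5 * p t + Real.exp q ^ 5 * r t) =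
          w t * (S t + q ^ 5 * p t) + w t * (Real.exp q ^ 5 * r t) := by ring
        rw [e]
        have h12 : κ = 3 * (Real.exp q ^ 5 * Real.exp (-(1 / 2 * Rr q))) := by rw [hκ]; ring
        have h13 : 0 ≤ Real.exp q ^ 5 * w t := by positivity
        linarith
      · have h8 := h.part2 hΘ ht' h1
        have h9 : w t * (Real.exp q ^ 5 * (7 / 10)) ≤ w t * (Real.exp q ^ 5 * r t) := by gcongr
        have h10 : q ^ 5 * w t ≤ 1 / 100 * (Real.exp q ^ 5 * w t) := by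
          calc q ^ 5 * w t ≤ Real.exp q * w t := by gcongr
            _ ≤ (1 / 100 * Real.exp q ^ 5) * w t := by gcongr; linarith
            _ = _ := by ring
        have e : w t * (S t + q ^ 5 * p t + Real.exp q ^ 5 * r t) =
          w t * (S t + q ^ 5 * p t) + w t * (Real.exp q ^ 5 * r t) := by ring
        rw [e]
        have h13 : 0 ≤ Real.exp q ^ 5 * w t := by positivity
        linarith) t ht
  simp only [hF0] at key
  have h1 := h.wpos (left_mem_Icc.2 h.h1)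
  have h2 := h.Cw' t ht
  have h3 : κ * (t - τ) ≤ vv (Real.exp q) := by
    have hq := h.B.pos
    have hq1 := h.B.q100
    have hd := h.dur ht
    have hl := h.B.l_le
    have e1 : t - τ ≤ 8 := by
      have h4 : q ^ 5 * (t - τ) ≤ q ^ 5 * 8 := by
        have h5 := h.B.p5
        linarith
      exact le_of_mul_le_mul_left h4 h.L0
    have e2 : vv (Real.exp q) = Real.exp (-(5 / 2 * q)) := by
      rw [← Real.exp_log h.Y.vv_pos, h.Y.log_vv, Real.log_exp]
    have e3 : Real.exp q ^ 5 = Real.exp (5 * q) := by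
      rw [← Real.exp_nat_mul]
      norm_num
    have h4 := h.exp_tiny (c := 5 * q + 5 / 2 * q) (by linarith [h.B.small4])
    rw [e2, hκ, e3]
    have h5 : 0 < Real.exp (-(1 / 2 * Rr q)) := Real.exp_pos _
    have h6 : 0 < Real.exp (-(5 / 2 * q)) := Real.exp_pos _
    have h7 : Real.exp (1 / 2 * Rr q) * Real.exp (-(1 / 2 * Rr q)) = 1 := by
      rw [← Real.exp_add, add_neg_cancel, Real.exp_zero]
    have h8 : Real.exp (5 * q + 5 / 2 * q) * Real.exp (-(5 / 2 * q)) = Real.exp (5 * q) := by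
      rw [← Real.exp_add]
      congr 1
      ring
    calc 3 * Real.exp (5 * q) * Real.exp (-(1 / 2 * Rr q)) * (t - τ)
        ≤ 3 * Real.exp (5 * q) * Real.exp (-(1 / 2 * Rr q)) * 8 := by gcongr
      _ = 24 / 100 * (Real.exp (5 * q + 5 / 2 * q) * 100) *
          (Real.exp (-(1 / 2 * Rr q)) * Real.exp (-(5 / 2 * q))) := by
          rw [← h8]
          ring
      _ ≤ 24 / 100 * Real.exp (1 / 2 * Rr q) *
          (Real.exp (-(1 / 2 * Rr q)) * Real.exp (-(5 / 2 * q))) := by gcongr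
      _ = 24 / 100 * (Real.exp (1 / 2 * Rr q) * Real.exp (-(1 / 2 * Rr q))) *
          Real.exp (-(5 / 2 * q)) := by ring
      _ ≤ Real.exp (-(5 / 2 * q)) := by
          rw [h7]
          linarith
  linarith

/-- strict inequalities at the end -/
lemma strict (hΘ : An q τ t₁ r Θ) {t : ℝ} (ht : t ∈ Icc τ t₁) :
    0 < r t ∧ Real.exp (-(2 * Rr q)) < w t := by
  constructor
  · rcases le_total (Θ t) 1 with h1 | h1
    · have := (h.part1 hΘ ht h1).2
      have := h.B.vv_pos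
      linarith
    · linarith [h.part2 hΘ ht h1]
  · rw [← Real.lt_log_iff_exp_lt (h.wpos ht)]
    have h1 := (abs_le.1 (h.growth' hΘ ht)).1
    have h2 := h.Θ_nonneg hΘ ht
    have h3 := h.B.small2
    have h4 := h.B.small3
    have h5 := h.B.Rr_pos
    have h6 := h.B.pos
    have hpi := Real.pi_lt_d2
    have h7 : Rr q * (-(158 / 100)) ≤ Rr q * (Θ t - Real.pi / 2) := by
      refine mul_le_mul_of_nonneg_left ?_ h5.le
      linarith
    linarith

/-- the end is reached before `τ + D` -/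
lemma not_end (hΘ : An q τ t₁ r Θ) : t₁ ≠ τ + 8 * Real.log q / q ^ 5 := by
  intro he
  have hq := h.B.pos
  have hq1 := h.B.q100
  have hl := h.B.l4
  have hL := h.L0
  have hD : 0 < Real.log q / q ^ 5 := by positivity
  set D : ℝ := Real.log q / q ^ 5 with hDdef
  have hLD : q ^ 5 * D = Real.log q := by
    rw [hDdef]
    field_simp
  have he' : t₁ = τ + 8 * D := by rw [he, hDdef]; ring
  have ha : τ + 7 * D ∈ Icc τ t₁ := ⟨by linarith, by linarith⟩
  have ht1 : t₁ ∈ Icc τ t₁ := right_mem_Icc.2 h.h1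
  have hpi := Real.pi_lt_d2
  have hq2 : 1 / q ^ 2 ≤ 1 / 10000 := by
    have h3 : (10000 : ℝ) ≤ q ^ 2 := by nlinarith
    exact one_div_le_one_div_of_le (by norm_num) h3
  -- the angle is at least one
  have hone : 1 ≤ Θ (τ + 7 * D) := by
    by_contra hcon
    push Not at hcon
    have hsub : ∀ s ∈ Icc τ (τ + 7 * D), s ∈ Icc τ t₁ := fun s hs => ⟨hs.1, hs.2.trans ha.2⟩
    have hsmall : ∀ s ∈ Icc τ (τ + 7 * D), Θ s ≤ 1 := fun s hs =>
      (h.Θ_mono hΘ (hsub s hs) ha hs.2).trans hcon.le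
    have hrp : ∀ s ∈ Icc τ (τ + 7 * D), 0 < r s := fun s hs => by
      have := (h.part1 hΘ (hsub s hs) (hsmall s hs)).2
      have := h.B.vv_pos
      linarith
    have hgr := ge_lin (f := fun t => Real.log (r t))
      (f' := fun t => (r t * (S t + q ^ 5 * p t) - Real.exp q ^ 5 * (w t ^ 2 + tl t)) / r t)
      (a := τ) (b := τ + 7 * D) (c := 40 / 100 * q ^ 5)
      ((h.cr.mono fun s hs => hsub s hs).log fun s hs => (hrp s hs).ne')
      (fun s hs => (h.dr s ⟨hs.1, hs.2.trans_le ha.2⟩).log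
        (hrp s (Ico_subset_Icc_self hs)).ne')
      (fun s hs => by
        have hs' := Ico_subset_Icc_self hs
        have hs'' := hsub s hs'
        have hr := hrp s hs'
        obtain ⟨e1, e2⟩ := h.part1 hΘ hs'' (hsmall s hs')
        have e3 := h.w_tiny hΘ hs'' (hsmall s hs')
        have e4 := h.tl1 s hs''
        have e5 := h.wpos hs''
        have hS := (abs_le.1 (h.S2 s hs'')).1
        have e6 : Real.exp q ^ 5 = Real.exp (5 * q) := by
          rw [← Real.exp_nat_mul]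
          norm_num
        have e7 : Real.exp q ^ 5 * w s ^ 2 ≤ 1 / 100 := by
          have h4 := h.exp_tiny (c := 5 * q) (by linarith [h.B.small4])
          have h7 : Real.exp (1 / 2 * Rr q) * Real.exp (-(1 / 2 * Rr q)) = 1 := by
            rw [← Real.exp_add, add_neg_cancel, Real.exp_zero]
          have h8 : Real.exp (-(1 / 2 * Rr q)) ≤ 1 := by
            have := h.B.Rr_pos
            exact Real.exp_le_one_iff.2 (by linarith)
          have h9 : 0 < Real.exp (-(1 / 2 * Rr q)) := Real.exp_pos _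
          rw [e6]
          calc Real.exp (5 * q) * w s ^ 2
              ≤ Real.exp (5 * q) * Real.exp (-(1 / 2 * Rr q)) ^ 2 := by gcongr
            _ = 1 / 100 * (Real.exp (5 * q) * 100) * Real.exp (-(1 / 2 * Rr q)) *
                Real.exp (-(1 / 2 * Rr q)) := by ring
            _ ≤ 1 / 100 * Real.exp (1 / 2 * Rr q) * Real.exp (-(1 / 2 * Rr q)) * 1 := by
                gcongr
            _ = 1 / 100 * (Real.exp (1 / 2 * Rr q) * Real.exp (-(1 / 2 * Rr q))) := by ring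
            _ = 1 / 100 := by rw [h7, mul_one]
        have e8 : Real.exp q ^ 5 * (w s ^ 2 + tl s) ≤ 11 / 1000 := by
          rw [mul_add]
          linarith
        have e9 := h.B.inv_vv
        have e10 : (4 / 10 : ℝ) ≤ q ^ 5 * r s := by
          calc (4 / 10 : ℝ) ≤ 4 / 10 * (q ^ 5 * vv q) := by linarith
            _ = q ^ 5 * (4 / 10 * vv q) := by ring
            _ ≤ q ^ 5 * r s := by gcongr
        rw [le_div_iff₀ hr]
        have e12 := h.B.l5'
        have e13 : 0 ≤ r s * (S s + 1 / 100 * q ^ 5) :=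
          mul_nonneg hr.le (by linarith)
        have e14 : r s * (q ^ 5 * (44 / 100)) ≤ r s * (q ^ 5 * p s) := by gcongr
        have e15 : 0 < q ^ 5 * r s := by positivity
        have e16 : (11 / 1000 : ℝ) ≤ 3 / 100 * (q ^ 5 * r s) := by linarith
        nlinarith) (τ + 7 * D) (right_mem_Icc.2 ha.1)
    have e1 : Real.log (r τ) = -(5 / 2 * Real.log q) := by rw [h.r0, h.B.log_vv]
    have e2 : 40 / 100 * q ^ 5 * (τ + 7 * D - τ) = 280 / 100 * Real.log q := by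
      rw [← hLD]
      ring
    simp only [e1, e2] at hgr
    have e3 : Real.log (r (τ + 7 * D)) ≤ 1 / 100 := by
      have h1 := Real.log_le_sub_one_of_pos (hrp (τ + 7 * D) (right_mem_Icc.2 ha.1))
      have h2 := (abs_le.1 (h.rb _ ha)).2
      linarith
    linarith
  have hsub : ∀ s ∈ Icc (τ + 7 * D) t₁, s ∈ Icc τ t₁ := fun s hs => ⟨ha.1.trans hs.1, hs.2⟩
  have hgr := ge_lin (f := Θ) (f' := fun t => q ^ 5 * r t) (a := τ + 7 * D) (b := t₁)
    (c := 7 / 10 * q ^ 5) (hΘ.c.mono fun s hs => hsub s hs)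
    (fun s hs => hΘ.d s ⟨ha.1.trans hs.1, hs.2⟩)
    (fun s hs => by
      have hs' := hsub s (Ico_subset_Icc_self hs)
      have h1 : 1 ≤ Θ s := hone.trans (h.Θ_mono hΘ ha hs' hs.1)
      have h2 := h.part2 hΘ hs' h1
      calc 7 / 10 * q ^ 5 = q ^ 5 * (7 / 10) := by ring
        _ ≤ q ^ 5 * r s := by gcongr) t₁ (right_mem_Icc.2 ha.2)
  have e2 : 7 / 10 * q ^ 5 * (t₁ - (τ + 7 * D)) = 7 / 10 * Real.log q := by
    rw [he', ← hLD]
    ring
  rw [e2] at hgr
  have h1 := h.Θ_le hΘ ht1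
  linarith

/-- the end -/
lemma fin (hΘ : An q τ t₁ r Θ) (he : w t₁ = vv (Real.exp q)) :
    |p t₁| ≤ 3 / q ^ 2 ∧ 1 / q ^ 5 ≤ t₁ - τ := by
  have ht : t₁ ∈ Icc τ t₁ := right_mem_Icc.2 h.h1
  have hq := h.B.pos
  have hq1 := h.B.q100
  have hL := h.L0
  have hR := h.B.Rr_pos
  have h1 := (abs_le.1 (h.growth' hΘ ht)).1
  have h1' := (abs_le.1 (h.growth' hΘ ht)).2
  have h2 := h.Θ_le hΘ ht
  have h3 := h.B.small1
  have hq2 : 1 / q ^ 2 ≤ 1 / 10000 := by
    have h3 : (10000 : ℝ) ≤ q ^ 2 := by nlinarith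
    exact one_div_le_one_div_of_le (by norm_num) h3
  have hq2' : 0 < 1 / q ^ 2 := by positivity
  rw [he, h.Y.log_vv, Real.log_exp] at h1 h1'
  have h4 : Real.pi / 2 - 3 / 2 * (1 / q ^ 2) ≤ Θ t₁ := by
    have h6 : Rr q * (Real.pi / 2 - Θ t₁) ≤ Rr q * (3 / 2 * (1 / q ^ 2)) := by
      have e : Rr q * (3 / 2 * (1 / q ^ 2)) = 3 / 2 * (Rr q / q ^ 2) := by ring
      rw [e]
      have h7 : 0 < Rr q / q ^ 2 := by positivity
      have e2 : Rr q * (Real.pi / 2 - Θ t₁) = -(Rr q * (Θ t₁ - Real.pi / 2)) := by ring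
      rw [e2]
      linarith
    have h7 := le_of_mul_le_mul_left h6 hR
    linarith
  have hcos : |Real.cos (Θ t₁)| ≤ 3 / 2 * (1 / q ^ 2) := by
    rw [← Real.sin_pi_div_two_sub]
    refine (Real.abs_sin_le_abs (x := Real.pi / 2 - Θ t₁)).trans ?_
    rw [abs_le]
    constructor <;> linarith
  have hpi := Real.pi_gt_d2
  constructor
  · obtain ⟨e1, _⟩ := h.rot hΘ ht
    have hv := h.B.vv_pos
    have hv1 := h.B.vv_le
    have hη := h.B.eta_le
    have hs := Real.abs_sin_le_one (Θ t₁)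
    have h5 : |p τ * Real.cos (Θ t₁)| ≤ 101 / 100 * (3 / 2 * (1 / q ^ 2)) := by
      rw [abs_mul]
      exact mul_le_mul (h.pb τ (left_mem_Icc.2 h.h1)) hcos (abs_nonneg _) (by norm_num)
    have h6 : |vv q * Real.sin (Θ t₁)| ≤ vv q := by
      rw [abs_mul, abs_of_pos hv]
      nlinarith
    have h7 : |p t₁| ≤ 1 / q ^ 4 + 101 / 100 * (3 / 2 * (1 / q ^ 2)) + vv q := by
      rw [abs_le] at e1 h5 h6 ⊢
      constructor <;> linarith [e1.1, e1.2, h5.1, h5.2, h6.1, h6.2]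
    have e : 3 / q ^ 2 = 3 * (1 / q ^ 2) := by ring
    rw [e]
    linarith
  · have h5 := le_lin (f := Θ) (f' := fun t => q ^ 5 * r t) (a := τ) (b := t₁)
      (c := 101 / 100 * q ^ 5) hΘ.c hΘ.d (fun s hs => by
        have := (abs_le.1 (h.rb s (Ico_subset_Icc_self hs))).2
        calc q ^ 5 * r s ≤ q ^ 5 * (101 / 100) := by gcongr
          _ = _ := by ring) t₁ ht
    rw [hΘ.z, zero_add] at h5
    rw [div_le_iff₀ hL]
    have h6 : (15 / 10 : ℝ) ≤ Θ t₁ := by linarith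
    have h7 : 101 / 100 * q ^ 5 * (t₁ - τ) = 101 / 100 * ((t₁ - τ) * q ^ 5) := by ring
    rw [h7] at h5
    linarith

end Sy

end E1

end Pool.Agent.N976.EE
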