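import Pool.Agent.N976.EE.Def
import Pool.Agent.N976.UE.Y1

/-!
# (E2) Iteration of the stages
-/

open Set Filter Topology MeasureTheory
open scoped ContDiff

set_option autoImplicit false

namespace Pool.Agent.N976.EE

open Pool.Agent.N976.SC Pool.Agent.N976.EN Pool.Agent.N976.UE

namespace E2

/-! ### The scales -/

/-- `Q` is large. -/
structure Big (ε Q : ℝ) : Prop where
  h4 : 10000 ≤ Q
  he : 4 / Q ≤ ε

lemma exp_ge {x : ℝ} (hx : 10000 ≤ x) : x ^ 2 / 2 ≤ Real.exp x := by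
  have := Real.quadratic_le_exp_of_nonneg (show 0 ≤ x by linarith)
  linarith

lemma exp_ge4 {x : ℝ} (hx : 10000 ≤ x) : 4 * x ≤ Real.exp x := by
  have := exp_ge hx
  nlinarith

lemma tw_succ (Q : ℝ) (n : ℕ) : tw Q (n + 1) = Real.exp (tw Q n) := rfl

section

variable {ε Q : ℝ}

lemma Big.ge (h : Big ε Q) (n : ℕ) : 4 ^ n * Q ≤ tw Q n := by
  have h4 := h.h4
  induction n with
  | zero => simp [tw]
  | succ n ih =>
    rw [tw_succ]
    have h1 : (1 : ℝ) ≤ 4 ^ n := one_le_pow₀ (by norm_num)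
    have h2 : 10000 ≤ tw Q n := by nlinarith
    have h3 := exp_ge4 h2
    rw [pow_succ]
    linarith

lemma Big.q (h : Big ε Q) (n : ℕ) : 10000 ≤ tw Q n := by
  have h1 : (1 : ℝ) ≤ 4 ^ n := one_le_pow₀ (by norm_num)
  have := h.ge n
  have h4 := h.h4
  nlinarith

lemma Big.pos (h : Big ε Q) (n : ℕ) : 0 < tw Q n := by linarith [h.q n]

lemma Big.four (h : Big ε Q) (n : ℕ) : 4 * tw Q n ≤ tw Q (n + 1) := exp_ge4 (h.q n)

lemma Big.inv (h : Big ε Q) (n : ℕ) : (tw Q n)⁻¹ ≤ Q⁻¹ * (1 / 4) ^ n := by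
  have h4 := h.h4
  have h1 : Q⁻¹ * (1 / 4) ^ n = (4 ^ n * Q)⁻¹ := by
    rw [mul_inv, one_div, inv_pow]
    ring
  rw [h1]
  exact inv_anti₀ (by positivity) (h.ge n)

lemma Big.sm (h : Big ε Q) (n : ℕ) : (tw Q n)⁻¹ ≤ 1 / 10000 * (1 / 4) ^ n := by
  refine (h.inv n).trans ?_
  have h4 := h.h4
  have : Q⁻¹ ≤ 1 / 10000 := by
    rw [inv_eq_one_div]
    exact one_div_le_one_div_of_le (by norm_num) h4
  gcongr

lemma Big.sum5 (h : Big ε Q) (n : ℕ) : ∑ i ∈ Finset.range n, tw Q i ^ 5 ≤ tw Q n ^ 5 := by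
  induction n with
  | zero =>
    simp only [Finset.range_zero, Finset.sum_empty]
    have := h.pos 0
    positivity
  | succ n ih =>
    rw [Finset.sum_range_succ]
    have h1 := h.pos n
    have h2 : (4 * tw Q n) ^ 5 ≤ tw Q (n + 1) ^ 5 := pow_le_pow_left₀ (by positivity) (h.four n) 5
    have h3 : 0 ≤ tw Q n ^ 5 := by positivity
    have h4 : (4 * tw Q n) ^ 5 = 1024 * tw Q n ^ 5 := by ring
    linarith

lemma Big.rho_pos (h : Big ε Q) (n : ℕ) : 0 < rho (tw Q) n := by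
  unfold rho
  have h1 := h.pos n
  have h2 := h.pos (n + 1)
  positivity

lemma Big.quo (h : Big ε Q) (n : ℕ) : tw Q n ≤ tw Q (n + 1) / tw Q n * 2 := by
  have h1 := h.pos n
  have h2 := exp_ge (h.q n)
  rw [div_mul_eq_mul_div, le_div_iff₀ h1, tw_succ]
  nlinarith

lemma Big.rho_ge (h : Big ε Q) (n : ℕ) : tw Q n ≤ rho (tw Q) n := by
  have h1 := h.quo n
  have h2 := h.q n
  unfold rho
  set r := tw Q (n + 1) / tw Q n with hr
  have h3 : 5000 ≤ r := by linarith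
  have h4 : (2 : ℝ) ≤ r ^ 4 := by
    have : (5000 : ℝ) ^ 4 ≤ r ^ 4 := pow_le_pow_left₀ (by norm_num) h3 4
    linarith
  have h5 : r ^ 5 = r * r ^ 4 := by ring
  rw [h5]
  nlinarith

lemma Big.rho_succ (h : Big ε Q) (n : ℕ) : rho (tw Q) n ≤ rho (tw Q) (n + 1) := by
  unfold rho
  have h1 := h.pos n
  have h2 := h.pos (n + 1)
  have h3 := h.quo (n + 1)
  have h4 := h.q n
  refine pow_le_pow_left₀ (by positivity) ?_ 5
  have h5 : tw Q (n + 1) / tw Q n ≤ tw Q (n + 1) / 2 :=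
    div_le_div_of_nonneg_left h2.le (by norm_num) (by linarith)
  linarith

lemma Big.rho_mono (h : Big ε Q) {m n : ℕ} (hmn : m ≤ n) : rho (tw Q) m ≤ rho (tw Q) n :=
  monotone_nat_of_le_succ h.rho_succ hmn

lemma Big.seed_le (h : Big ε Q) {n m : ℕ} (hnm : n ≤ m) :
    seed (tw Q) m * Real.exp (rho (tw Q) n / tw Q n ^ 2) ≤ Real.exp (-rho (tw Q) m) := by
  unfold seed
  rw [← Real.exp_add]
  apply Real.exp_le_exp.2
  have h1 := h.rho_mono hnm
  have h2 := h.rho_pos n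
  have h3 := h.q n
  have h4 : rho (tw Q) n / tw Q n ^ 2 ≤ rho (tw Q) n / 2 :=
    div_le_div_of_nonneg_left h2.le (by norm_num) (by nlinarith)
  have h5 := Real.pi_gt_three
  have h6 := h.rho_pos m
  nlinarith

lemma Big.seed_le' (h : Big ε Q) (m : ℕ) : seed (tw Q) m ≤ Real.exp (-rho (tw Q) m) := by
  unfold seed
  apply Real.exp_le_exp.2
  have h5 := Real.pi_gt_three
  have h6 := h.rho_pos m
  nlinarith

lemma seed_pos (q : ℕ → ℝ) (m : ℕ) : 0 < seed q m := Real.exp_pos _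

lemma Big.exp_rho (h : Big ε Q) (m : ℕ) : Real.exp (-rho (tw Q) m) ≤ (tw Q m)⁻¹ := by
  rw [Real.exp_neg]
  apply inv_anti₀ (h.pos m)
  have h1 := h.rho_ge m
  have h2 := Real.add_one_le_exp (rho (tw Q) m)
  linarith

lemma Big.exp_rho_sq (h : Big ε Q) (m : ℕ) : Real.exp (-rho (tw Q) m) ^ 2 ≤ (tw Q m)⁻¹ := by
  have h1 := h.exp_rho m
  have h2 := Real.exp_pos (-rho (tw Q) m)
  have h3 : Real.exp (-rho (tw Q) m) ≤ 1 := Real.exp_le_one_iff.2 (by linarith [h.rho_pos m])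
  nlinarith

lemma vis_sq (h : Big ε Q) (n : ℕ) : vis (tw Q) n ^ 2 = (tw Q n ^ 5)⁻¹ := by
  unfold vis
  have hq := h.pos n
  rw [← Real.rpow_mul_natCast hq.le, ← Real.rpow_natCast, ← Real.rpow_neg hq.le]
  norm_num

lemma Big.vis_le (h : Big ε Q) (n : ℕ) : vis (tw Q) n ^ 2 ≤ (tw Q n)⁻¹ := by
  rw [vis_sq h]
  have h1 := h.q n
  apply inv_anti₀ (h.pos n)
  calc tw Q n = tw Q n ^ 1 := (pow_one _).symm
    _ ≤ tw Q n ^ 5 := pow_le_pow_right₀ (by linarith) (by norm_num)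

lemma geo (n : ℕ) : ∑ k ∈ Finset.range n, (1 / 4 : ℝ) ^ k ≤ 4 / 3 := by
  have : ∑ k ∈ Finset.range n, (1 / 4 : ℝ) ^ k = 4 / 3 * (1 - (1 / 4) ^ n) := by
    rw [geom_sum_eq (by norm_num)]
    ring
  rw [this]
  have : (0 : ℝ) < (1 / 4) ^ n := by positivity
  linarith

end

/-! ### The data -/

/-- The energy. -/
noncomputable def En (N : ℕ) (x : ℕ → ℝ → ℝ) (t : ℝ) : ℝ := ∑ m ∈ Finset.range N, x m t ^ 2

/-- The data. -/
structure Dat (ε Q : ℝ) (N : ℕ) (x : ℕ → ℝ → ℝ) : Prop where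
  big : Big ε Q
  N3 : 3 ≤ N
  fs : FE (tw Q) N x
  i0 : x 0 0 = 1
  i1 : x 1 0 = vis (tw Q) 0
  i2 : ∀ n, n + 2 < N → x (n + 2) 0 = seed (tw Q) n

section

variable {ε Q : ℝ} {N : ℕ} {x : ℕ → ℝ → ℝ}

lemma Dat.const (h : Dat ε Q N x) {t : ℝ} (ht : 0 ≤ t) : En N x t = En N x 0 := by
  have hd : ∀ t ∈ Ici (0 : ℝ), HasDerivWithinAt (En N x) 0 (Ici 0) t := by
    intro t ht
    have h1 := Y1.energy_deriv (fun _ => one_pos) h.fs ht
    have h2 : (fun s => ∑ m ∈ Finset.range N, x m s ^ 2 / (1 : ℝ)) = En N x := by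
      funext s
      unfold En
      exact Finset.sum_congr rfl fun m _ => div_one _
    have h3 : (-2 * ∑ m ∈ Finset.range N, (0 : ℝ) * x m t ^ 2 / 1) = 0 := by
      simp
    rw [h2, h3] at h1
    exact h1
  have h1 := Convex.norm_image_sub_le_of_norm_hasDerivWithin_le (𝕜 := ℝ) (f := En N x)
    (f' := fun _ => 0) (s := Ici (0 : ℝ)) (C := 0) (x := 0) (y := t) hd
    (fun u _ => by simp) (convex_Ici 0) (mem_Ici.2 le_rfl) (mem_Ici.2 ht)
  rw [zero_mul] at h1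
  have h2 := norm_le_zero_iff.1 h1
  linarith

lemma Dat.E0 (h : Dat ε Q N x) : 1 ≤ En N x 0 ∧ En N x 0 ≤ 1 + 4 / Q := by
  obtain ⟨k, rfl⟩ : ∃ k, N = k + 3 := ⟨N - 3, by have := h.N3; omega⟩
  have h0 : En (k + 3) x 0 = 1 + vis (tw Q) 0 ^ 2 +
      ∑ m ∈ Finset.range (k + 1), seed (tw Q) m ^ 2 := by
    unfold En
    rw [Finset.sum_range_succ', Finset.sum_range_succ']
    have : ∑ m ∈ Finset.range (k + 1), x (m + 1 + 1) 0 ^ 2 =
        ∑ m ∈ Finset.range (k + 1), seed (tw Q) m ^ 2 := by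
      refine Finset.sum_congr rfl fun m hm => ?_
      have := Finset.mem_range.1 hm
      rw [show m + 1 + 1 = m + 2 from rfl, h.i2 m (by omega)]
    rw [this]
    simp only [Nat.zero_add]
    rw [h.i0, h.i1]
    ring
  have h4 := h.big.h4
  have h1 := h.big.vis_le 0
  have h1' : (tw Q 0)⁻¹ = Q⁻¹ := rfl
  rw [h1'] at h1
  have h2 : ∑ m ∈ Finset.range (k + 1), seed (tw Q) m ^ 2 ≤ Q⁻¹ * (4 / 3) := by
    calc ∑ m ∈ Finset.range (k + 1), seed (tw Q) m ^ 2
        ≤ ∑ m ∈ Finset.range (k + 1), Q⁻¹ * (1 / 4) ^ m := by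
          refine Finset.sum_le_sum fun m _ => ?_
          refine le_trans ?_ (h.big.inv m)
          refine le_trans ?_ (h.big.exp_rho_sq m)
          exact pow_le_pow_left₀ (seed_pos _ _).le (h.big.seed_le' m) 2
      _ = Q⁻¹ * ∑ m ∈ Finset.range (k + 1), (1 / 4) ^ m := by rw [Finset.mul_sum]
      _ ≤ Q⁻¹ * (4 / 3) := by
          have := geo (k + 1)
          gcongr
  have h3 : 0 ≤ ∑ m ∈ Finset.range (k + 1), seed (tw Q) m ^ 2 :=
    Finset.sum_nonneg fun m _ => sq_nonneg _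
  have h5 : 0 < Q⁻¹ := by positivity
  have h6 : 4 / Q = 4 * Q⁻¹ := by rw [div_eq_mul_inv]
  rw [h0, h6]
  have h7 := sq_nonneg (vis (tw Q) 0)
  constructor <;> linarith

lemma Dat.E0' (h : Dat ε Q N x) : En N x 0 ≤ 51 / 50 := by
  have h1 := h.E0.2
  have h4 := h.big.h4
  have h2 : 4 / Q ≤ 1 / 50 := by
    rw [div_le_div_iff₀ (by linarith) (by norm_num)]
    linarith
  linarith

lemma Dat.Et (h : Dat ε Q N x) {t : ℝ} (ht : 0 ≤ t) : En N x t ≤ 51 / 50 := by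
  rw [h.const ht]
  exact h.E0'

lemma Dat.xb (h : Dat ε Q N x) (m : ℕ) {t : ℝ} (ht : 0 ≤ t) : |x m t| ≤ 2 := by
  rcases lt_or_ge m N with hm | hm
  · have h1 : x m t ^ 2 ≤ En N x t :=
      Finset.single_le_sum (f := fun m => x m t ^ 2) (fun i _ => sq_nonneg _)
        (Finset.mem_range.2 hm)
    apply abs_le_of_sq_le_sq _ (by norm_num)
    linarith [h.Et ht]
  · rw [h.fs.zero m hm t]
    norm_num

lemma Dat.rhs (h : Dat ε Q N x) (m : ℕ) {t : ℝ} (ht : 0 ≤ t) :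
    |-((fun _ => (0 : ℝ)) m * x m t) + (fun _ => (1 : ℝ)) m *
      yN (La (tw Q)) (fun _ => 0) N (fun m => x m t) m| ≤ 6 * tw Q m ^ 5 := by
  have hq := h.big.q m
  have hx := h.xb m ht
  set q5 := tw Q m ^ 5 with hq5
  have hq5' : 1 ≤ q5 := one_le_pow₀ (by linarith)
  have a1 : |x m t * ∑ i ∈ Finset.range m, La (tw Q) i * x i t| ≤ 4 * q5 := by
    rw [abs_mul]
    have h1 : |∑ i ∈ Finset.range m, La (tw Q) i * x i t| ≤ 2 * q5 := by
      calc |∑ i ∈ Finset.range m, La (tw Q) i * x i t|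
          ≤ ∑ i ∈ Finset.range m, |La (tw Q) i * x i t| := Finset.abs_sum_le_sum_abs _ _
        _ ≤ ∑ i ∈ Finset.range m, 2 * tw Q i ^ 5 := by
            apply Finset.sum_le_sum
            intro i _
            rw [abs_mul]
            have h5 := h.xb i ht
            have h6 := h.big.pos i
            unfold La
            rw [abs_of_pos (by positivity)]
            calc tw Q i ^ 5 * |x i t| ≤ tw Q i ^ 5 * 2 := by gcongr
              _ = 2 * tw Q i ^ 5 := by ring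
        _ = 2 * ∑ i ∈ Finset.range m, tw Q i ^ 5 := by rw [Finset.mul_sum]
        _ ≤ 2 * q5 := by linarith [h.big.sum5 m]
    calc |x m t| * |∑ i ∈ Finset.range m, La (tw Q) i * x i t| ≤ 2 * (2 * q5) := by
          apply mul_le_mul hx h1 (abs_nonneg _) (by norm_num)
      _ = 4 * q5 := by ring
  have a2 : |La (tw Q) m * ∑ j ∈ Finset.Ico (m + 1) N, x j t ^ 2| ≤ 2 * q5 := by
    rw [abs_mul]
    have h1 : |∑ j ∈ Finset.Ico (m + 1) N, x j t ^ 2| ≤ 2 := by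
      rw [abs_of_nonneg (Finset.sum_nonneg fun i _ => sq_nonneg _)]
      have h2 : ∑ j ∈ Finset.Ico (m + 1) N, x j t ^ 2 ≤ En N x t := by
        apply Finset.sum_le_sum_of_subset_of_nonneg
        · intro i hi
          rw [Finset.mem_Ico] at hi
          exact Finset.mem_range.2 hi.2
        · intro i _ _
          exact sq_nonneg _
      linarith [h.Et ht]
    have h6 := h.big.pos m
    unfold La
    rw [abs_of_pos (by positivity : 0 < tw Q m ^ 5), ← hq5]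
    calc q5 * |∑ j ∈ Finset.Ico (m + 1) N, x j t ^ 2| ≤ q5 * 2 := by gcongr
      _ = 2 * q5 := by ring
  have a5 : yN (La (tw Q)) (fun _ => 0) N (fun m => x m t) m =
      x m t * ∑ i ∈ Finset.range m, La (tw Q) i * x i t -
        La (tw Q) m * ∑ j ∈ Finset.Ico (m + 1) N, x j t ^ 2 := by
    unfold yN
    split_ifs <;> ring
  rw [a5]
  have e1 := abs_le.1 a1
  have e2 := abs_le.1 a2
  rw [abs_le]
  constructor <;> linarith [e1.1, e1.2, e2.1, e2.2]

lemma Dat.drift (h : Dat ε Q N x) (m : ℕ) {s t : ℝ} (hs : 0 ≤ s) (hst : s ≤ t) :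
    |x m t - x m s| ≤ 6 * tw Q m ^ 5 * (t - s) := by
  rcases lt_or_ge m N with hm | hm
  · have h1 := Convex.norm_image_sub_le_of_norm_hasDerivWithin_le (𝕜 := ℝ) (f := x m)
      (s := Ici (0 : ℝ)) (C := 6 * tw Q m ^ 5) (x := s) (y := t)
      (fun u hu => h.fs.ode m hm u hu) (fun u hu => h.rhs m hu) (convex_Ici 0) hs
      (mem_Ici.2 (hs.trans hst))
    rw [Real.norm_eq_abs, Real.norm_eq_abs, abs_of_nonneg (sub_nonneg.2 hst)] at h1
    exact h1
  · rw [h.fs.zero m hm t, h.fs.zero m hm s]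
    have := h.big.pos m
    have h2 : 0 ≤ t - s := by linarith
    simp only [sub_self, abs_zero]
    positivity

/-! ### The stages -/

/-- One stage. -/
structure Stg (q : ℕ → ℝ) (N : ℕ) (x : ℕ → ℝ → ℝ) (n : ℕ) (τ τ' : ℝ) : Prop where
  a1 : 1 / q n ^ 5 ≤ τ' - τ
  a2 : τ' - τ ≤ 8 * Real.log (q n) / q n ^ 5
  a3 : x (n + 2) τ' = vis q (n + 1)
  a4 : |x n τ'| ≤ 3 / q n ^ 2
  a5 : 0 < x (n + 1) τ'
  a6 : ∀ t ∈ Icc τ τ', Bd q N (n + 1) (n + 1) (fun m => x m t)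

/-- the length of a stage -/
noncomputable def dd (q : ℕ → ℝ) (n : ℕ) : ℝ := 8 * Real.log (q n) / q n ^ 5

lemma Big.log_ge (h : Big ε Q) (n : ℕ) : 1 ≤ Real.log (tw Q n) := by
  rw [Real.le_log_iff_exp_le (h.pos n)]
  linarith [h.q n, Real.exp_one_lt_d9]

lemma Big.dd_succ (h : Big ε Q) (n : ℕ) :
    dd (tw Q) (n + 1) * tw Q n ^ 9 ≤ 256 := by
  unfold dd
  rw [tw_succ, Real.log_exp]
  have h0 := h.pos n
  have h1 := exp_ge (h.q n)
  have h2 : (tw Q n ^ 2 / 2) ^ 5 ≤ Real.exp (tw Q n) ^ 5 := pow_le_pow_left₀ (by positivity) h1 5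
  have h3 := Real.exp_pos (tw Q n)
  rw [div_mul_eq_mul_div, div_le_iff₀ (by positivity)]
  calc 8 * tw Q n * tw Q n ^ 9 = 256 * (tw Q n ^ 2 / 2) ^ 5 := by ring
    _ ≤ 256 * Real.exp (tw Q n) ^ 5 := by linarith

lemma Big.dd_nonneg (h : Big ε Q) (n : ℕ) : 0 ≤ dd (tw Q) n := by
  unfold dd
  have h1 := h.pos n
  have : 0 ≤ Real.log (tw Q n) := by linarith [h.log_ge n]
  positivity

lemma Big.dd_half (h : Big ε Q) (n : ℕ) : 2 * dd (tw Q) (n + 1) ≤ dd (tw Q) n := by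
  have h1 := h.dd_succ n
  have h2 := h.dd_nonneg (n + 1)
  have h3 := h.q n
  have h4 : 8 / tw Q n ^ 5 ≤ dd (tw Q) n := by
    unfold dd
    have := h.log_ge n
    have := h.pos n
    gcongr
    linarith
  refine le_trans ?_ h4
  rw [le_div_iff₀ (by positivity)]
  have h5 : (10000 : ℝ) ^ 4 ≤ tw Q n ^ 4 := pow_le_pow_left₀ (by norm_num) h3 4
  have h6 : 0 ≤ dd (tw Q) (n + 1) * tw Q n ^ 5 := by positivity
  have h7 : dd (tw Q) (n + 1) * tw Q n ^ 5 * tw Q n ^ 4 ≤ 256 := by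
    calc dd (tw Q) (n + 1) * tw Q n ^ 5 * tw Q n ^ 4 = dd (tw Q) (n + 1) * tw Q n ^ 9 := by ring
      _ ≤ 256 := h1
  nlinarith

variable {σ : ℕ → ℝ} {n : ℕ}

lemma sig_mono (h : Big ε Q) (hS : ∀ k < n, Stg (tw Q) N x k (σ k) (σ (k + 1))) {j k : ℕ}
    (hjk : j ≤ k) (hk : k ≤ n) : σ j ≤ σ k := by
  induction k, hjk using Nat.le_induction with
  | base => exact le_rfl
  | succ k hjk ih =>
    have h1 := ih (by omega)
    have h2 := (hS k (by omega)).a1
    have h3 := h.pos k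
    have h4 : 0 < 1 / tw Q k ^ 5 := by positivity
    linarith

lemma sig_tele (h : Big ε Q) (hS : ∀ k < n, Stg (tw Q) N x k (σ k) (σ (k + 1))) {j k : ℕ}
    (hjk : j ≤ k) (hk : k ≤ n) : σ k + 2 * dd (tw Q) k ≤ σ j + 2 * dd (tw Q) j := by
  induction k, hjk using Nat.le_induction with
  | base => exact le_rfl
  | succ k hjk ih =>
    have h1 := ih (by omega)
    have h2 := (hS k (by omega)).a2
    have h3 := h.dd_half k
    change σ (k + 1) - σ k ≤ dd (tw Q) k at h2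
    linarith

lemma Dat.left (h : Dat ε Q N x) (h0 : σ 0 = 0)
    (hS : ∀ k < n, Stg (tw Q) N x k (σ k) (σ (k + 1))) {m : ℕ} (hm : m < n) {t : ℝ}
    (ht : t ∈ Icc (σ (m + 1)) (σ n)) : |x m t| ≤ 4 / tw Q m ^ 2 := by
  have h1 := (hS m hm).a4
  have h2 : 0 ≤ σ (m + 1) := by
    rw [← h0]
    exact sig_mono h.big hS (Nat.zero_le _) (by omega)
  have h3 := h.drift m h2 ht.1
  have h4 := sig_tele h.big hS (j := m + 1) (k := n) (by omega) le_rfl
  have h5 := h.big.dd_nonneg n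
  have h6 : t - σ (m + 1) ≤ 2 * dd (tw Q) (m + 1) := by linarith [ht.2]
  have hq := h.big.q m
  have h7 : 6 * tw Q m ^ 5 * (t - σ (m + 1)) ≤ 1 / tw Q m ^ 2 := by
    have h8 := h.big.dd_succ m
    have h9 := h.big.dd_nonneg (m + 1)
    have h10 : 6 * tw Q m ^ 5 * (t - σ (m + 1)) ≤ 6 * tw Q m ^ 5 * (2 * dd (tw Q) (m + 1)) := by
      gcongr
    refine h10.trans ?_
    rw [le_div_iff₀ (by positivity)]
    have h11 : (10000 : ℝ) ^ 2 ≤ tw Q m ^ 2 := pow_le_pow_left₀ (by norm_num) hq 2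
    have h12 : 0 ≤ dd (tw Q) (m + 1) * tw Q m ^ 7 := by positivity
    have h13 : dd (tw Q) (m + 1) * tw Q m ^ 7 * tw Q m ^ 2 ≤ 256 := by
      calc dd (tw Q) (m + 1) * tw Q m ^ 7 * tw Q m ^ 2 = dd (tw Q) (m + 1) * tw Q m ^ 9 := by ring
        _ ≤ 256 := h8
    calc 6 * tw Q m ^ 5 * (2 * dd (tw Q) (m + 1)) * tw Q m ^ 2
        = 12 * (dd (tw Q) (m + 1) * tw Q m ^ 7) := by ring
      _ ≤ 1 := by nlinarith
  have h9 : |x m t| ≤ |x m t - x m (σ (m + 1))| + |x m (σ (m + 1))| := by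
    have := abs_add_le (x m t - x m (σ (m + 1))) (x m (σ (m + 1)))
    simpa using this
  have h14 : 4 / tw Q m ^ 2 = 3 / tw Q m ^ 2 + 1 / tw Q m ^ 2 := by ring
  linarith

lemma Dat.next (h : Dat ε Q N x) (h0 : σ 0 = 0)
    (hS : ∀ k < n, Stg (tw Q) N x k (σ k) (σ (k + 1))) :
    x (n + 1) (σ n) = vis (tw Q) n ∧ Bd (tw Q) N n n (fun m => x m (σ n)) := by
  rcases n with _ | k
  · rw [h0]
    refine ⟨h.i1, fun m hm _ => ?_⟩
    have h1 := seed_pos (tw Q) m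
    have h2 := h.big.rho_pos 0
    have h3 := h.big.pos 0
    have h4 : 0 ≤ rho (tw Q) 0 / tw Q 0 ^ 2 := by positivity
    change seed (tw Q) m * Real.exp (-(rho (tw Q) 0 / tw Q 0 ^ 2)) ≤ x (m + 2) 0 ∧
      x (m + 2) 0 ≤ seed (tw Q) m * Real.exp (rho (tw Q) 0 / tw Q 0 ^ 2)
    rw [h.i2 m hm]
    constructor
    · have : Real.exp (-(rho (tw Q) 0 / tw Q 0 ^ 2)) ≤ 1 := Real.exp_le_one_iff.2 (by linarith)
      nlinarith
    · have : 1 ≤ Real.exp (rho (tw Q) 0 / tw Q 0 ^ 2) := Real.one_le_exp h4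
      nlinarith
  · have h1 := hS k (Nat.lt_succ_self k)
    refine ⟨h1.a3, h1.a6 _ (right_mem_Icc.2 ?_)⟩
    exact sig_mono h.big hS (Nat.le_succ k) le_rfl

/-- the modes which are not yet active -/
lemma abs_bd (h : Dat ε Q N x) {n k m : ℕ} {t : ℝ} (hb : Bd (tw Q) N n k (fun m => x m t))
    (hkm : k ≤ m) (hnm : n ≤ m) : |x (m + 2) t| ≤ Real.exp (-rho (tw Q) m) := by
  rcases lt_or_ge (m + 2) N with hm | hm
  · have h1 := hb m hm hkm
    have h2 : 0 < x (m + 2) t := lt_of_lt_of_le (mul_pos (seed_pos _ _) (Real.exp_pos _)) h1.1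
    rw [abs_of_pos h2]
    exact h1.2.trans (h.big.seed_le hnm)
  · rw [h.fs.zero _ hm t, abs_zero]
    exact (Real.exp_pos _).le

lemma Dat.term (h : Dat ε Q N x) (h0 : σ 0 = 0)
    (hS : ∀ k < n, Stg (tw Q) N x k (σ k) (σ (k + 1))) {m : ℕ} (hm : m ≠ n) :
    x m (σ n) ^ 2 ≤ 1 / 100 * (1 / 4) ^ m := by
  have hp : (0 : ℝ) < (1 / 4) ^ m := by positivity
  rcases lt_trichotomy m n with hmn | hmn | hmn
  · have h1 := h.left h0 hS hmn (t := σ n)
      (right_mem_Icc.2 (sig_mono h.big hS (by omega) le_rfl))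
    have h2 := h.big.sm m
    have h3 := h.big.q m
    have hu : 0 < (tw Q m)⁻¹ := inv_pos.2 (h.big.pos m)
    have hu1 : (tw Q m)⁻¹ ≤ 1 := by
      apply inv_le_one_of_one_le₀
      linarith
    have e1 : 4 / tw Q m ^ 2 = 4 * (tw Q m)⁻¹ ^ 2 := by
      rw [div_eq_mul_inv, inv_pow]
    rw [e1] at h1
    set u := (tw Q m)⁻¹ with hud
    have h4 : |x m (σ n)| ^ 2 ≤ (4 * u ^ 2) ^ 2 := pow_le_pow_left₀ (abs_nonneg _) h1 2
    rw [sq_abs] at h4
    have h5 : u ^ 4 ≤ u := by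
      calc u ^ 4 ≤ u ^ 1 := pow_le_pow_of_le_one hu.le hu1 (by norm_num)
        _ = u := pow_one u
    calc x m (σ n) ^ 2 ≤ (4 * u ^ 2) ^ 2 := h4
      _ = 16 * u ^ 4 := by ring
      _ ≤ 16 * u := by linarith
      _ ≤ 1 / 100 * (1 / 4) ^ m := by linarith
  · exact absurd hmn hm
  · rcases eq_or_lt_of_le (Nat.succ_le_of_lt hmn) with hmn | hmn
    · subst hmn
      rw [(h.next h0 hS).1]
      have h1 := h.big.vis_le n
      have h2 := h.big.sm n
      calc vis (tw Q) n ^ 2 ≤ 1 / 10000 * (1 / 4) ^ n := h1.trans h2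
        _ ≤ 1 / 100 * (1 / 4) ^ (n + 1) := by
          rw [pow_succ]
          have : (0 : ℝ) < (1 / 4) ^ n := by positivity
          linarith
    · obtain ⟨j, rfl⟩ : ∃ j, m = j + 2 := ⟨m - 2, by omega⟩
      have h2 := abs_bd h (h.next h0 hS).2 (m := j) (by omega) (by omega)
      have h6 : |x (j + 2) (σ n)| ^ 2 ≤ Real.exp (-rho (tw Q) j) ^ 2 :=
        pow_le_pow_left₀ (abs_nonneg _) h2 2
      rw [sq_abs] at h6
      have h7 : (1 / 4 : ℝ) ^ j = 16 * (1 / 4) ^ (j + 2) := by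
        rw [pow_add]
        ring
      calc x (j + 2) (σ n) ^ 2 ≤ 1 / 10000 * (1 / 4) ^ j :=
            (h6.trans (h.big.exp_rho_sq j)).trans (h.big.sm j)
        _ = 16 / 10000 * (1 / 4) ^ (j + 2) := by rw [h7]; ring
        _ ≤ 1 / 100 * (1 / 4) ^ (j + 2) := by linarith

lemma Dat.pos (h : Dat ε Q N x) (h0 : σ 0 = 0)
    (hS : ∀ k < n, Stg (tw Q) N x k (σ k) (σ (k + 1))) : 0 < x n (σ n) := by
  rcases n with _ | k
  · rw [h0, h.i0]
    norm_num
  · exact (hS k (Nat.lt_succ_self k)).a5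

lemma Dat.big9 (h : Dat ε Q N x) (h0 : σ 0 = 0)
    (hS : ∀ k < n, Stg (tw Q) N x k (σ k) (σ (k + 1))) (hn : n < N) :
    9 / 10 ≤ x n (σ n) := by
  have hσ : 0 ≤ σ n := by
    rw [← h0]
    exact sig_mono h.big hS (Nat.zero_le _) le_rfl
  have h1 : 1 ≤ En N x (σ n) := by
    rw [h.const hσ]
    exact h.E0.1
  have h2 : En N x (σ n) ≤ x n (σ n) ^ 2 + 1 / 75 := by
    unfold En
    rw [← Finset.add_sum_erase _ _ (Finset.mem_range.2 hn)]
    have h3 : ∑ m ∈ (Finset.range N).erase n, x m (σ n) ^ 2 ≤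
        ∑ m ∈ (Finset.range N).erase n, 1 / 100 * (1 / 4 : ℝ) ^ m :=
      Finset.sum_le_sum fun m hm => h.term h0 hS (Finset.ne_of_mem_erase hm)
    have h4 : ∑ m ∈ (Finset.range N).erase n, 1 / 100 * (1 / 4 : ℝ) ^ m ≤
        ∑ m ∈ Finset.range N, 1 / 100 * (1 / 4 : ℝ) ^ m :=
      Finset.sum_le_sum_of_subset_of_nonneg (Finset.erase_subset _ _)
        (fun i _ _ => by positivity)
    have h6 : ∑ m ∈ Finset.range N, 1 / 100 * (1 / 4 : ℝ) ^ m =
        1 / 100 * ∑ m ∈ Finset.range N, (1 / 4 : ℝ) ^ m := by rw [Finset.mul_sum]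
    have h5 := geo N
    linarith
  have h6 := h.pos h0 hS
  by_contra hc
  push Not at hc
  nlinarith

end

end E2

open E2 in
/-- (E2) The cascade in the finite systems. -/
theorem t_E2 (h1 : S_E1) : S_E2 := by
  classical
  intro ε hε
  obtain ⟨Q₁, hQ₁2, hQ₁⟩ := h1
  refine ⟨max (max 10000 (4 / ε)) Q₁, fun Q hQ N hN => ?_⟩
  have hQa : 10000 ≤ Q := ((le_max_left _ _).trans (le_max_left _ _)).trans hQ
  have hQb : 4 / ε ≤ Q := ((le_max_right _ _).trans (le_max_left _ _)).trans hQ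
  have big : Big ε Q := by
    refine ⟨hQa, ?_⟩
    rw [div_le_iff₀ hε] at hQb
    rw [div_le_iff₀ (by linarith)]
    linarith
  obtain ⟨x, fs, ini⟩ := t_Y1 (La (tw Q)) (fun _ => 1) (fun _ => 0) (fun _ => 0) N
    (fun n => if n = 0 then 1 else if n = 1 then vis (tw Q) 0 else
      if n < N then seed (tw Q) (n - 2) else 0)
    (fun _ => one_pos) (fun _ => le_rfl) (by
      intro n hn
      rw [if_neg (by omega), if_neg (by omega), if_neg (by omega)])
  have h : Dat ε Q N x := ⟨big, hN, fs, by rw [ini]; simp, by rw [ini]; simp, by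
    intro n hn
    rw [ini]
    rw [if_neg (by omega), if_neg (by omega), if_pos hn]
    rfl⟩
  let F : ℕ → ℝ → ℝ := fun n s =>
    if hs : ∃ s', Stg (tw Q) N x n s s' then hs.choose else s
  let σ : ℕ → ℝ := fun n => Nat.rec 0 (fun n s => F n s) n
  have σ0 : σ 0 = 0 := rfl
  have σs : ∀ n, σ (n + 1) = F n (σ n) := fun n => rfl
  have key : ∀ n, n + 2 ≤ N → ∀ k < n, Stg (tw Q) N x k (σ k) (σ (k + 1)) := by
    intro n
    induction n with
    | zero =>
      intro _ k hk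
      omega
    | succ n ih =>
      intro hn k hk
      have hS := ih (by omega)
      rcases Nat.lt_succ_iff_lt_or_eq.1 hk with hk | hk
      · exact hS k hk
      · subst hk
        have hσ : 0 ≤ σ k := by
          rw [← σ0]
          exact sig_mono big hS (Nat.zero_le _) le_rfl
        obtain ⟨τ', hτ', c1, c2, c3, c4, c5, c6⟩ := hQ₁ Q ((le_max_right _ _).trans hQ) N x
          fs k (by omega) (σ k) hσ (h.Et hσ) (h.big9 σ0 hS (by omega)) (h.next σ0 hS).1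
          (h.next σ0 hS).2
        have hex : ∃ s', Stg (tw Q) N x k (σ k) s' :=
          ⟨τ', c1, c2, c3, c4, c5, fun t ht => (c6 t ht).2⟩
        have : σ (k + 1) = hex.choose := by
          rw [σs]
          exact dif_pos hex
        rw [this]
        exact hex.choose_spec
  have cover : ∀ n, ∀ t ∈ Icc 0 (σ n), n + 2 ≤ N → 0 < n →
      ∃ k < n, t ∈ Icc (σ k) (σ (k + 1)) := by
    intro n
    induction n with
    | zero =>
      intro t _ _ h0
      omega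
    | succ n ih =>
      intro t ht hn _
      rcases le_total (σ n) t with hc | hc
      · exact ⟨n, Nat.lt_succ_self n, hc, ht.2⟩
      · rcases Nat.eq_zero_or_pos n with h0 | h0
        · subst h0
          have : t = 0 := le_antisymm hc ht.1
          exact ⟨0, by omega, by rw [this, σ0], ht.2⟩
        · obtain ⟨k, hk, hk2⟩ := ih t ⟨ht.1, hc⟩ (by omega) h0
          exact ⟨k, by omega, hk2⟩
  refine ⟨σ, x, fs, h.i0, h.i1, h.i2, σ0, ?_, ?_, ?_, ?_, ?_⟩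
  · intro n hn
    have := key (n + 1) (by omega) n (Nat.lt_succ_self n)
    exact ⟨this.a1, this.a2⟩
  · intro n hn t ht m hm
    obtain ⟨k, hk, hk2⟩ := cover (n + 1) t ht (by omega) (Nat.succ_pos n)
    have := (key (n + 1) (by omega) k hk).a6 t hk2
    exact abs_bd h this (by omega) (by omega)
  · intro t ht
    exact h.const ht
  · have e2 := h.E0.2
    have e3 := big.he
    change En N x 0 ≤ 1 + ε
    linarith
  · intro m n hmn hn t ht
    have hS := key (n + 1) (by omega)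
    have e1 := h.left σ0 hS (m := m) (by omega) ht
    refine e1.trans ?_
    have e2 := big.ge m
    have e3 := big.q m
    have e4 := big.he
    have e5 : (2 : ℝ) ^ m ≤ 4 ^ m := pow_le_pow_left₀ (by norm_num) (by norm_num) m
    have e6 : (0 : ℝ) < 2 ^ m := by positivity
    rw [div_le_iff₀ (by linarith)] at e4
    rw [div_le_div_iff₀ (by positivity) e6]
    have e7 : 2 ^ m * Q ≤ tw Q m := le_trans (mul_le_mul_of_nonneg_right e5 (by linarith)) e2
    have e8 : tw Q m ≤ tw Q m ^ 2 := by nlinarith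
    calc 4 * 2 ^ m ≤ ε * Q * 2 ^ m := mul_le_mul_of_nonneg_right e4 e6.le
      _ = ε * (2 ^ m * Q) := by ring
      _ ≤ ε * tw Q m ^ 2 := mul_le_mul_of_nonneg_left (e7.trans e8) hε.le

end Pool.Agent.N976.EE
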