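import Pool.Agent.N976.EE.Def
import Pool.Agent.N976.UE.Y4

/-!
# (E3), (E4): the limit `N → ∞` and the smoothness in time of the Euler cascade

(E3) The limit is taken along an ultrafilter: all modes converge pointwise (they are bounded),
jointly in the time (they are Lipschitz), and the tail sums converge by domination.

(E4) The bootstrap: the right-hand side of the system preserves the rapid decay.
-/

open Set Filter Topology MeasureTheory
open scoped ContDiff InnerProductSpace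

set_option autoImplicit false

namespace Pool.Agent.N976.EE

open Pool.Agent.N976.SC Pool.Agent.N976.EN Pool.Agent.N976.UE

namespace E34

/-! ### The scales -/

lemma exp_ge {y : ℝ} (hy : 4 ≤ y) : y ^ 2 ≤ Real.exp y ∧ 2 * y ≤ Real.exp y := by
  have h3 := Real.sum_le_exp_of_nonneg (x := y) (by linarith) 4
  rw [Finset.sum_range_succ, Finset.sum_range_succ, Finset.sum_range_succ,
    Finset.sum_range_one] at h3
  norm_num [Nat.factorial] at h3
  constructor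
  · nlinarith [mul_nonneg (sq_nonneg y) (by linarith : (0 : ℝ) ≤ y - 4)]
  · nlinarith [mul_nonneg (sq_nonneg y) (by linarith : (0 : ℝ) ≤ y - 4)]

lemma tw_four {Q : ℝ} (hQ : 4 ≤ Q) : ∀ n, 4 ≤ tw Q n
  | 0 => hQ
  | n + 1 => by
      have h := tw_four hQ n
      have h1 := (exp_ge h).2
      show 4 ≤ Real.exp (tw Q n)
      linarith

lemma tw_succ (Q : ℝ) (n : ℕ) : tw Q (n + 1) = Real.exp (tw Q n) := rfl

lemma tw_two {Q : ℝ} (hQ : 4 ≤ Q) (n : ℕ) : 2 * tw Q n ≤ tw Q (n + 1) :=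
  (exp_ge (tw_four hQ n)).2

lemma tw_mono {Q : ℝ} (hQ : 4 ≤ Q) (n : ℕ) : tw Q n ≤ tw Q (n + 1) := by
  have h1 := tw_two hQ n
  have h2 := tw_four hQ n
  linarith

lemma tw_geo {Q : ℝ} (hQ : 4 ≤ Q) (n m : ℕ) : 2 ^ m * tw Q n ≤ tw Q (n + m) := by
  induction m with
  | zero => simp
  | succ m ih =>
    have h1 := tw_two hQ (n + m)
    have e : n + (m + 1) = n + m + 1 := by omega
    rw [e, pow_succ]
    linarith

lemma tw_pow {Q : ℝ} (hQ : 4 ≤ Q) (n : ℕ) : 2 ^ n ≤ tw Q n := by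
  have h1 := tw_geo hQ 0 n
  rw [zero_add] at h1
  have h2 : (4 : ℝ) ≤ tw Q 0 := tw_four hQ 0
  have h3 : (0 : ℝ) < 2 ^ n := by positivity
  nlinarith

lemma rho_ge {Q : ℝ} (hQ : 4 ≤ Q) (m : ℕ) : tw Q (m + 1) ^ 2 ≤ rho (tw Q) m := by
  unfold rho
  have h0 := tw_four hQ m
  have h1 := tw_four hQ (m + 1)
  have h2 : tw Q m ^ 2 ≤ tw Q (m + 1) := (exp_ge h0).1
  have hp : 0 < tw Q m := by linarith
  have hp1 : 0 < tw Q (m + 1) := by linarith
  rw [div_pow, le_div_iff₀ (pow_pos hp 5)]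
  have h3 : tw Q m ^ 5 ≤ tw Q (m + 1) ^ 3 := by
    calc tw Q m ^ 5 ≤ tw Q m ^ 6 := pow_le_pow_right₀ (by linarith) (by norm_num)
      _ = (tw Q m ^ 2) ^ 3 := by ring
      _ ≤ tw Q (m + 1) ^ 3 := pow_le_pow_left₀ (by positivity) h2 3
  calc tw Q (m + 1) ^ 2 * tw Q m ^ 5 ≤ tw Q (m + 1) ^ 2 * tw Q (m + 1) ^ 3 :=
        mul_le_mul_of_nonneg_left h3 (by positivity)
    _ = tw Q (m + 1) ^ 5 := by ring

/-- the upper bound for the modes which are not yet active -/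
noncomputable def uu (Q : ℝ) (m : ℕ) : ℝ := Real.exp (-rho (tw Q) m)

lemma uu_pos (Q : ℝ) (m : ℕ) : 0 < uu Q m := Real.exp_pos _

lemma uu_pow {Q : ℝ} (hQ : 4 ≤ Q) (k m : ℕ) : tw Q (m + 2) ^ k * uu Q m ≤ Real.exp (k ^ 2) := by
  unfold uu
  have h1 := rho_ge hQ m
  rw [show m + 2 = (m + 1) + 1 from rfl, tw_succ Q (m + 1), ← Real.exp_nat_mul, ← Real.exp_add,
    Real.exp_le_exp]
  nlinarith [sq_nonneg ((k : ℝ) - tw Q (m + 1)), sq_nonneg (k : ℝ)]

lemma uu_le {Q : ℝ} (hQ : 4 ≤ Q) (m : ℕ) : uu Q m ≤ (1 / 2 : ℝ) ^ m := by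
  unfold uu
  have h1 := rho_ge hQ m
  have h2 := tw_four hQ (m + 1)
  have h3 : (2 : ℝ) ^ m ≤ Real.exp (tw Q (m + 1)) := by
    have h4 := tw_pow hQ (m + 1 + 1)
    rw [tw_succ] at h4
    refine le_trans ?_ h4
    exact pow_le_pow_right₀ (by norm_num) (by omega)
  calc Real.exp (-rho (tw Q) m) ≤ Real.exp (-tw Q (m + 1)) := by
        rw [Real.exp_le_exp]
        nlinarith
    _ = (Real.exp (tw Q (m + 1)))⁻¹ := Real.exp_neg _
    _ ≤ ((2 : ℝ) ^ m)⁻¹ := inv_anti₀ (by positivity) h3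
    _ = (1 / 2 : ℝ) ^ m := by rw [one_div, inv_pow]

lemma uu_one {Q : ℝ} (hQ : 4 ≤ Q) (m : ℕ) : uu Q m ≤ 1 :=
  (uu_le hQ m).trans (pow_le_one₀ (by norm_num) (by norm_num))

lemma uu_summable {Q : ℝ} (hQ : 4 ≤ Q) : Summable (uu Q) :=
  Summable.of_nonneg_of_le (fun n => (uu_pos Q n).le) (fun n => uu_le hQ n)
    (summable_geometric_of_lt_one (by norm_num) (by norm_num))

lemma summ_d {Q : ℝ} (hQ : 4 ≤ Q) :
    Summable (fun n => 8 * Real.log (tw Q n) / tw Q n ^ 5) := by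
  refine Summable.of_nonneg_of_le (fun n => ?_) (fun n => ?_)
    ((summable_geometric_of_lt_one (by norm_num : (0 : ℝ) ≤ 1 / 2) (by norm_num)).mul_left 8)
  · have h := tw_four hQ n
    have := Real.log_nonneg (by linarith : (1 : ℝ) ≤ tw Q n)
    positivity
  · have h := tw_four hQ n
    have h0 : 0 < tw Q n := by linarith
    have h1 := Real.log_le_self h0.le
    have h2 := tw_pow hQ n
    have h3 : tw Q n * 2 ^ n ≤ tw Q n ^ 5 := by
      calc tw Q n * 2 ^ n ≤ tw Q n * tw Q n := mul_le_mul_of_nonneg_left h2 h0.le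
        _ = tw Q n ^ 2 := by ring
        _ ≤ tw Q n ^ 5 := pow_le_pow_right₀ (by linarith) (by norm_num)
    rw [div_le_iff₀ (pow_pos h0 5)]
    have h4 : (0 : ℝ) < 2 ^ n := by positivity
    calc 8 * Real.log (tw Q n) ≤ 8 * tw Q n := by linarith
      _ = 8 * (1 / 2 : ℝ) ^ n * (tw Q n * 2 ^ n) := by
          rw [one_div, inv_pow]
          field_simp
      _ ≤ 8 * (1 / 2 : ℝ) ^ n * tw Q n ^ 5 := mul_le_mul_of_nonneg_left h3 (by positivity)

/-! ### Bounds for the finite systems -/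

section bd

variable {ε : ℝ} {q : ℕ → ℝ} {N : ℕ} {σ : ℕ → ℝ} {x : ℕ → ℝ → ℝ}

lemma sum_sq (h : DN ε q N σ x) {t : ℝ} (ht : 0 ≤ t) :
    ∑ m ∈ Finset.range N, x m t ^ 2 ≤ 1 + ε := by
  rw [h.en t ht]
  exact h.upp

/-- the bound for the modes -/
lemma mode_sq (h : DN ε q N σ x) {t : ℝ} (ht : 0 ≤ t) (m : ℕ) : x m t ^ 2 ≤ 1 + ε := by
  have h1 := sum_sq h ht
  by_cases hm : m < N
  · refine le_trans ?_ h1
    exact Finset.single_le_sum (f := fun m => x m t ^ 2) (fun i _ => sq_nonneg _)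
      (Finset.mem_range.2 hm)
  · rw [h.fs.zero m (by omega) t]
    have : 0 ≤ ∑ m ∈ Finset.range N, x m t ^ 2 := Finset.sum_nonneg fun i _ => sq_nonneg _
    linarith

lemma mode_le (hε : 0 < ε) (h : DN ε q N σ x) {t : ℝ} (ht : 0 ≤ t) (m : ℕ) :
    |x m t| ≤ 1 + ε := by
  have h1 := mode_sq h ht m
  refine abs_le_of_sq_le_sq ?_ (by linarith)
  nlinarith

/-- the Lipschitz constant of mode `n` -/
noncomputable def CC (ε : ℝ) (q : ℕ → ℝ) (n : ℕ) : ℝ :=
  (1 + ε) * (∑ i ∈ Finset.range n, |La q i| * (1 + ε)) + |La q n| * (1 + ε)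

lemma yN_le (hε : 0 < ε) (h : DN ε q N σ x) {t : ℝ} (ht : 0 ≤ t) (n : ℕ) :
    |yN (La q) (fun _ => 0) N (fun m => x m t) n| ≤ CC ε q n := by
  have hM : 0 ≤ 1 + ε := by linarith
  have hx := mode_le hε h ht
  have h1 : |x n t * ∑ i ∈ Finset.range n, La q i * x i t| ≤
      (1 + ε) * (∑ i ∈ Finset.range n, |La q i| * (1 + ε)) := by
    rw [abs_mul]
    refine mul_le_mul (hx n) ?_ (abs_nonneg _) hM
    refine (Finset.abs_sum_le_sum_abs _ _).trans (Finset.sum_le_sum fun i _ => ?_)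
    rw [abs_mul]
    exact mul_le_mul_of_nonneg_left (hx i) (abs_nonneg _)
  have h2 : |La q n * ∑ m ∈ Finset.Ico (n + 1) N, x m t ^ 2| ≤ |La q n| * (1 + ε) := by
    rw [abs_mul]
    refine mul_le_mul_of_nonneg_left ?_ (abs_nonneg _)
    rw [abs_of_nonneg (Finset.sum_nonneg fun i _ => sq_nonneg _)]
    refine le_trans ?_ (sum_sq h ht)
    apply Finset.sum_le_sum_of_subset_of_nonneg
    · intro m hm
      rw [Finset.mem_Ico] at hm
      exact Finset.mem_range.2 hm.2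
    · intro i _ _
      exact sq_nonneg _
  have e : yN (La q) (fun _ => 0) N (fun m => x m t) n =
      x n t * ∑ i ∈ Finset.range n, La q i * x i t -
        La q n * ∑ m ∈ Finset.Ico (n + 1) N, x m t ^ 2 := by
    unfold yN
    split_ifs <;> ring
  rw [e]
  exact (abs_sub _ _).trans (add_le_add h1 h2)

lemma CC_nonneg (hε : 0 < ε) (q : ℕ → ℝ) (n : ℕ) : 0 ≤ CC ε q n := by
  unfold CC; positivity

lemma mode_lip (hε : 0 < ε) (h : DN ε q N σ x) (n : ℕ) {s t : ℝ} (hs : 0 ≤ s) (ht : 0 ≤ t) :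
    |x n s - x n t| ≤ CC ε q n * |s - t| := by
  by_cases hn : n < N
  · refine (convex_Ici (0 : ℝ)).norm_image_sub_le_of_norm_hasDerivWithin_le
      (f := x n) (C := CC ε q n) (fun r hr => h.fs.ode n hn r hr) (fun r hr => ?_) ht hs
    have hr' : (0 : ℝ) ≤ r := hr
    have h1 := yN_le hε h hr' n
    rw [Real.norm_eq_abs, zero_mul, neg_zero, zero_add, one_mul]
    exact h1
  · rw [h.fs.zero n (by omega), h.fs.zero n (by omega), sub_self, abs_zero]
    exact mul_nonneg (CC_nonneg hε _ _) (abs_nonneg _)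

end bd

end E34

open E34 in
open _root_.Pool.Agent.N976.UE.Y4 (U U_le ev_ge ulim deriv_lim yN_eq) in
/-- **(E3)** the limit `N → ∞` -/
theorem t_E3 : S_E3 := by
  intro ε Q hQ hε H
  have hq := tw_four hQ
  choose S X h using fun j : ℕ => H (j + 3) (by omega)
  set M : ℝ := 1 + ε with hM
  have hM0 : 0 < M := by rw [hM]; linarith
  have hlip := fun j n (s t : ℝ) (hs : 0 ≤ s) (ht : 0 ≤ t) => mode_lip hε (h j) n hs ht
  have hmode := fun j (t : ℝ) (ht : 0 ≤ t) m => mode_le hε (h j) ht m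
  have hmsq := fun j (t : ℝ) (ht : 0 ≤ t) m => mode_sq (h j) ht m
  obtain ⟨d, hd⟩ : ∃ d : ℕ → ℝ, ∀ n, d n = 8 * Real.log (tw Q n) / tw Q n ^ 5 :=
    ⟨_, fun _ => rfl⟩
  have hds : Summable d := (summ_d hQ).congr fun n => (hd n).symm
  have hd0 : ∀ n, 0 ≤ d n := fun n => by
    rw [hd]
    have h1 := hq n
    have := Real.log_nonneg (by linarith : (1 : ℝ) ≤ tw Q n)
    positivity
  -- the times
  have hS1 : ∀ n, ∀ᶠ j in U, 1 / tw Q n ^ 5 ≤ S j (n + 1) - S j n ∧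
      S j (n + 1) - S j n ≤ d n := by
    intro n
    filter_upwards [ev_ge n] with j hj
    rw [hd]
    exact (h j).σ1 n (by omega)
  have hSb : ∀ n, ∀ᶠ j in U, 0 ≤ S j n ∧ S j n ≤ ∑ k ∈ Finset.range n, d k := by
    intro n
    induction n with
    | zero =>
      filter_upwards with j
      rw [(h j).σ0]
      simp
    | succ n ih =>
      filter_upwards [ih, hS1 n] with j h1 h2
      have h3 : 0 ≤ 1 / tw Q n ^ 5 := by have := hq n; positivity
      rw [Finset.sum_range_succ]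
      constructor <;> linarith [h1.1, h1.2, h2.1, h2.2]
  have hSl : ∀ n, ∃ L, Tendsto (fun j => S j n) U (𝓝 L) := fun n =>
    ulim (C := ∑ k ∈ Finset.range n, d k) (by
      filter_upwards [hSb n] with j hj
      rw [abs_of_nonneg hj.1]
      exact hj.2)
  choose σ hσ using hSl
  have hσ0 : σ 0 = 0 := by
    refine tendsto_nhds_unique (hσ 0) ?_
    refine tendsto_const_nhds.congr fun j => ?_
    exact (h j).σ0.symm
  have hσ1 : ∀ n, 1 / tw Q n ^ 5 ≤ σ (n + 1) - σ n := fun n =>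
    ge_of_tendsto ((hσ (n + 1)).sub (hσ n)) ((hS1 n).mono fun j hj => hj.1)
  have hσm : StrictMono σ := strictMono_nat_of_lt_succ fun n => by
    have h1 := hσ1 n
    have h2 : 0 < 1 / tw Q n ^ 5 := by have := hq n; positivity
    linarith
  have hσb : ∀ n, σ n ≤ ∑' k, d k := fun n =>
    (le_of_tendsto (hσ n) ((hSb n).mono fun j hj => hj.2)).trans
      (hds.sum_le_tsum _ fun k _ => hd0 k)
  have hbdd : BddAbove (range σ) := ⟨∑' k, d k, by rintro _ ⟨n, rfl⟩; exact hσb n⟩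
  obtain ⟨T, hT⟩ : ∃ T, T = ⨆ n, σ n := ⟨_, rfl⟩
  have hσl : Tendsto σ atTop (𝓝 T) := by
    rw [hT]
    exact tendsto_atTop_ciSup hσm.monotone hbdd
  have hσT : ∀ n, σ n < T := fun n => by
    refine (hσm (Nat.lt_succ_self n)).trans_le ?_
    rw [hT]
    exact le_ciSup hbdd (n + 1)
  have hT0 : 0 < T := by rw [← hσ0]; exact hσT 0
  have hσnn : ∀ n, 0 ≤ σ n := fun n => by
    rw [← hσ0]
    exact hσm.monotone (Nat.zero_le n)
  -- the modes
  have hXl : ∀ m (t : ℝ), ∃ L, Tendsto (fun j => X j m (max t 0)) U (𝓝 L) := fun m t =>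
    ulim (C := M) (Eventually.of_forall fun j => hmode j _ (le_max_right _ _) m)
  choose x hx' using hXl
  have hx : ∀ m (t : ℝ), 0 ≤ t → Tendsto (fun j => X j m t) U (𝓝 (x m t)) := by
    intro m t ht
    have := hx' m t
    rwa [max_eq_left ht] at this
  have hxlip : ∀ m (s t : ℝ), 0 ≤ s → 0 ≤ t → |x m s - x m t| ≤ CC ε (tw Q) m * |s - t| := by
    intro m s t hs ht
    exact le_of_tendsto ((hx m s hs).sub (hx m t ht)).abs
      (Eventually.of_forall fun j => hlip j m s t hs ht)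
  -- joint convergence
  have hjoint : ∀ m (t T₁ : ℝ), 0 ≤ t →
      Tendsto (fun p : ℕ × ℝ => X p.1 m p.2) (U ×ˢ 𝓝[Icc 0 T₁] t) (𝓝 (x m t)) := by
    intro m t T₁ ht
    have h1 : Tendsto (fun p : ℕ × ℝ => X p.1 m t) (U ×ˢ 𝓝[Icc 0 T₁] t) (𝓝 (x m t)) :=
      (hx m t ht).comp tendsto_fst
    have h2 : Tendsto (fun p : ℕ × ℝ => CC ε (tw Q) m * |p.2 - t|) (U ×ˢ 𝓝[Icc 0 T₁] t)
        (𝓝 0) := by
      have h3 : Tendsto (fun r : ℝ => CC ε (tw Q) m * |r - t|) (𝓝[Icc 0 T₁] t)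
          (𝓝 (CC ε (tw Q) m * |t - t|)) := by
        refine Tendsto.mono_left ?_ nhdsWithin_le_nhds
        have : Continuous fun r : ℝ => CC ε (tw Q) m * |r - t| := by fun_prop
        exact this.tendsto t
      rw [sub_self, abs_zero, mul_zero] at h3
      exact h3.comp tendsto_snd
    have h4 : Tendsto (fun p : ℕ × ℝ => X p.1 m p.2 - X p.1 m t) (U ×ˢ 𝓝[Icc 0 T₁] t)
        (𝓝 0) := by
      refine squeeze_zero_norm' ?_ h2
      have h5 : ∀ᶠ r in 𝓝[Icc 0 T₁] t, r ∈ Icc 0 T₁ := self_mem_nhdsWithin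
      filter_upwards [tendsto_snd.eventually h5] with p hp
      rw [Real.norm_eq_abs]
      exact hlip p.1 m p.2 t hp.1 ht
    have h6 := h4.add h1
    rw [zero_add] at h6
    exact h6.congr fun p => by ring
  -- every time before `T` is before some `σ (n + 1)`
  have hex : ∀ t < T, ∀ m : ℕ, ∃ n, m ≤ n ∧ t < σ (n + 1) := by
    intro t ht m
    have h1 : ∀ᶠ n in atTop, t < σ n := hσl.eventually (lt_mem_nhds ht)
    obtain ⟨n, hn1, hn2⟩ := (h1.and (eventually_ge_atTop (m + 1))).exists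
    exact ⟨n - 1, by omega, by rwa [Nat.sub_add_cancel (by omega)]⟩
  -- domination
  have hdom : ∀ (n : ℕ) (T₁ : ℝ), T₁ < σ (n + 1) → ∀ᶠ j in U, ∀ r ∈ Icc 0 T₁, ∀ m ≥ n + 1,
      |X j (m + 2) r| ≤ uu Q m := by
    intro n T₁ hT₁
    filter_upwards [(hσ (n + 1)).eventually (lt_mem_nhds hT₁), ev_ge n] with j hj1 hj2 r hr m hm
    exact (h j).act n (by omega) r ⟨hr.1, hr.2.trans hj1.le⟩ m hm
  -- the summable bound
  have hbs : ∀ n : ℕ, Summable (fun m => (if m < n + 3 then M else 0) + uu Q (m - 2)) := by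
    intro n
    refine Summable.add (summable_of_ne_finset_zero (s := Finset.range (n + 3)) ?_) ?_
    · intro m hm
      rw [Finset.mem_range] at hm
      rw [if_neg hm]
    · rw [← summable_nat_add_iff 2]
      exact (uu_summable hQ).congr fun m => by rw [Nat.add_sub_cancel]
  have hbnd : ∀ (n : ℕ) (T₁ : ℝ), T₁ < σ (n + 1) → ∀ᶠ j in U, ∀ r ∈ Icc 0 T₁, ∀ m,
      X j m r ^ 2 ≤ (if m < n + 3 then M else 0) + uu Q (m - 2) := by
    intro n T₁ hT₁
    filter_upwards [hdom n T₁ hT₁] with j hj r hr m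
    by_cases hm : m < n + 3
    · rw [if_pos hm]
      have h1 := hmsq j r hr.1 m
      have h2 := uu_pos Q (m - 2)
      linarith
    · rw [if_neg hm, zero_add]
      obtain ⟨m', rfl⟩ : ∃ m', m = m' + 2 := ⟨m - 2, by omega⟩
      rw [Nat.add_sub_cancel]
      have h1 := hj r hr m' (by omega)
      have h2 := uu_one hQ m'
      have h3 := uu_pos Q m'
      have h4 : X j (m' + 2) r ^ 2 ≤ uu Q m' ^ 2 := by
        rw [← sq_abs (X j (m' + 2) r)]
        exact pow_le_pow_left₀ (abs_nonneg _) h1 2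
      nlinarith
  have hzero : ∀ j m t, j + 3 ≤ m → X j m t = 0 := fun j m t hm => (h j).fs.zero m hm t
  -- the energy
  have hen : ∀ t ∈ Ico 0 T, Tendsto (fun j => ∑ m ∈ Finset.range (j + 3), X j m t ^ 2) U
      (𝓝 (∑' m, x m t ^ 2)) := by
    intro t ht
    obtain ⟨n, -, hn⟩ := hex t ht.2 0
    have h1 : Tendsto (fun j => ∑' m, X j m t ^ 2) U (𝓝 (∑' m, x m t ^ 2)) := by
      refine tendsto_tsum_of_dominated_convergence (hbs n) (fun m => ?_) ?_
      · exact (hx m t ht.1).pow 2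
      · filter_upwards [hbnd n t hn] with j hj m
        rw [Real.norm_eq_abs, abs_of_nonneg (sq_nonneg _)]
        exact hj t ⟨ht.1, le_rfl⟩ m
    refine h1.congr fun j => ?_
    rw [tsum_eq_sum]
    intro m hm
    rw [Finset.mem_range] at hm
    rw [hzero j m t (by omega)]
    norm_num
  refine ⟨T, σ, x, hT0, hσ0, hσm, hσT, hσl, ?_, ?_, ?_, ?_, ?_, ?_, ?_, ?_⟩
  · refine tendsto_nhds_unique (hx 0 0 le_rfl) (tendsto_const_nhds.congr fun j => ?_)
    exact (h j).ini0.symm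
  · refine tendsto_nhds_unique (hx 1 0 le_rfl) (tendsto_const_nhds.congr fun j => ?_)
    exact (h j).ini1.symm
  · intro n
    refine tendsto_nhds_unique (hx (n + 2) 0 le_rfl) (tendsto_const_nhds.congr' ?_)
    filter_upwards [ev_ge n] with j hj
    exact ((h j).ini n (by omega)).symm
  · -- the differential equation
    intro n t ht
    obtain ⟨n', -, hn'⟩ := hex t ht.2 0
    obtain ⟨T₁, hT₁, hT₁'⟩ := exists_between hn'
    refine deriv_lim (X := fun j => X j n)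
      (F := fun j r => yN (La (tw Q)) (fun _ => 0) (j + 3) (fun m => X j m r) n)
      ht.1 hT₁ ?_ (fun r hr => hx n r hr) ?_
    · filter_upwards [ev_ge n] with j hj r hr
      have h1 := (h j).fs.ode n (by omega) r hr
      rwa [zero_mul, neg_zero, zero_add, one_mul] at h1
    · have hj := fun m => hjoint m t T₁ ht.1
      have htail : Tendsto (fun p : ℕ × ℝ => ∑' m : ℕ, X p.1 (n + 1 + m) p.2 ^ 2)
          (U ×ˢ 𝓝[Icc 0 T₁] t) (𝓝 (∑' m : ℕ, x (n + 1 + m) t ^ 2)) := by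
        refine tendsto_tsum_of_dominated_convergence
          (bound := fun m => (if n + 1 + m < n' + 3 then M else 0) + uu Q (n + 1 + m - 2)) ?_
          (fun m => (hj (n + 1 + m)).pow 2) ?_
        · have h1 := (summable_nat_add_iff (n + 1)).2 (hbs n')
          refine h1.congr fun m => ?_
          rw [add_comm m (n + 1)]
        · have h5 : ∀ᶠ r in 𝓝[Icc 0 T₁] t, r ∈ Icc 0 T₁ := self_mem_nhdsWithin
          filter_upwards [tendsto_snd.eventually h5,
            tendsto_fst.eventually (hbnd n' T₁ hT₁')] with p hp1 hp2 m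
          rw [Real.norm_eq_abs, abs_of_nonneg (sq_nonneg _)]
          exact hp2 p.2 hp1 (n + 1 + m)
      have hy : Tendsto (fun p : ℕ × ℝ => yq (La (tw Q)) (fun _ => 0) (fun m => X p.1 m p.2) n)
          (U ×ˢ 𝓝[Icc 0 T₁] t) (𝓝 (yq (La (tw Q)) (fun _ => 0) (fun m => x m t) n)) := by
        unfold yq
        refine Tendsto.add (((((hj n).mul (tendsto_finsetSum _ fun i _ =>
          (hj i).const_mul (La (tw Q) i))).sub (htail.const_mul (La (tw Q) n)))).sub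
            (((hj n).const_mul 0).mul (hj (n + 1)))) ?_
        split_ifs
        · exact tendsto_const_nhds
        · exact ((hj (n - 1)).pow 2).const_mul _
      refine hy.congr fun p => ?_
      exact (yN_eq (fun m hm => hzero p.1 m p.2 hm) n).symm
  · -- the modes which are not active
    intro n t ht m hm
    refine le_of_forall_pos_le_add fun e he => ?_
    -- a time before `t`
    have hCC := CC_nonneg hε (tw Q) (m + 2)
    obtain ⟨s, hs0, hst, hs1⟩ : ∃ s, 0 ≤ s ∧ s < σ (n + 1) ∧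
        |t - s| ≤ e / (CC ε (tw Q) (m + 2) + 1) := by
      rcases lt_or_eq_of_le ht.2 with hlt | heq
      · exact ⟨t, ht.1, hlt, by rw [sub_self, abs_zero]; positivity⟩
      · have hpos : 0 < σ (n + 1) := by rw [← hσ0]; exact hσm (Nat.succ_pos n)
        have he' : 0 < e / (CC ε (tw Q) (m + 2) + 1) := by positivity
        refine ⟨max 0 (t - e / (CC ε (tw Q) (m + 2) + 1)), le_max_left _ _,
          max_lt hpos (by linarith), ?_⟩
        rw [abs_of_nonneg]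
        · have := le_max_right 0 (t - e / (CC ε (tw Q) (m + 2) + 1))
          linarith
        · have : max 0 (t - e / (CC ε (tw Q) (m + 2) + 1)) ≤ t := max_le ht.1 (by linarith)
          linarith
    have h1 : |x (m + 2) s| ≤ uu Q m := by
      refine le_of_tendsto (hx (m + 2) s hs0).abs ?_
      filter_upwards [hdom n s hst] with j hj
      exact hj s ⟨hs0, le_rfl⟩ m hm
    have h2 := hxlip (m + 2) t s ht.1 hs0
    have h3 : CC ε (tw Q) (m + 2) * |t - s| ≤ e := by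
      calc CC ε (tw Q) (m + 2) * |t - s| ≤
            (CC ε (tw Q) (m + 2) + 1) * (e / (CC ε (tw Q) (m + 2) + 1)) := by
            apply mul_le_mul (by linarith) hs1 (abs_nonneg _) (by positivity)
        _ = e := by field_simp
    have h4 := abs_sub_abs_le_abs_sub (x (m + 2) t) (x (m + 2) s)
    have h5 : uu Q m = Real.exp (-rho (tw Q) m) := rfl
    linarith
  · -- the energy is constant
    intro t ht
    refine tendsto_nhds_unique (hen t ht) ((hen 0 ⟨le_rfl, hT0⟩).congr fun j => ?_)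
    exact ((h j).en t ht.1).symm
  · exact le_of_tendsto (hen 0 ⟨le_rfl, hT0⟩) (Eventually.of_forall fun j => (h j).upp)
  · -- the modes which have handed over their energy
    intro m t ht
    refine le_of_forall_pos_le_add fun e he => ?_
    have hCC := CC_nonneg hε (tw Q) m
    have he' : 0 < e / (CC ε (tw Q) m + 1) := by positivity
    have ht0 : 0 ≤ t := (hσnn _).trans ht.1
    obtain ⟨s, hs1, hs2⟩ := exists_between
      (lt_min ht.2 (by linarith : t < t + e / (CC ε (tw Q) m + 1)))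
    rw [lt_min_iff] at hs2
    have hs0 : 0 ≤ s := ht0.trans hs1.le
    obtain ⟨n, hmn, hn⟩ := hex s hs2.1 m
    have h1 : |x m s| ≤ ε / 2 ^ m := by
      refine le_of_tendsto (hx m s hs0).abs ?_
      filter_upwards [(hσ (n + 1)).eventually (lt_mem_nhds hn),
        (hσ (m + 1)).eventually (gt_mem_nhds (ht.1.trans_lt hs1)), ev_ge n] with j hj1 hj2 hj3
      exact (h j).left m n hmn (by omega) s ⟨hj2.le, hj1.le⟩
    have h2 := hxlip m t s ht0 hs0
    have h3 : CC ε (tw Q) m * |t - s| ≤ e := by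
      have h4 : |t - s| ≤ e / (CC ε (tw Q) m + 1) := by
        rw [abs_sub_comm, abs_of_nonneg (by linarith)]
        linarith
      calc CC ε (tw Q) m * |t - s| ≤ (CC ε (tw Q) m + 1) * (e / (CC ε (tw Q) m + 1)) := by
            apply mul_le_mul (by linarith) h4 (abs_nonneg _) (by positivity)
        _ = e := by field_simp
    have h4 := abs_sub_abs_le_abs_sub (x m t) (x m s)
    linarith

/-! ### (E4) -/

namespace E34

/-- the properties of the scales which are used -/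
structure Gr (q : ℕ → ℝ) (r : ℝ) : Prop where
  one : ∀ n, 1 ≤ q n
  mono : ∀ n, q n ≤ q (n + 1)
  r0 : 0 ≤ r
  r1 : r < 1
  geo : ∀ n m, (q (n + m))⁻¹ ≤ r ^ m

variable {q : ℕ → ℝ} {r T : ℝ}

lemma Gr.pos (h : Gr q r) (n : ℕ) : 0 < q n := lt_of_lt_of_le one_pos (h.one n)

lemma Gr.le (h : Gr q r) {m n : ℕ} (hmn : m ≤ n) : q m ≤ q n :=
  monotone_nat_of_le_succ h.mono hmn

/-! ### Rapid decay -/

lemma rap_congr {a b : ℕ → ℝ → ℝ} (h : ∀ n, ∀ t ∈ Ico 0 T, a n t = b n t)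
    (ha : RQT q T a) : RQT q T b := by
  intro k T' hT'
  obtain ⟨M, hM⟩ := ha k T' hT'
  exact ⟨M, fun t ht n => by rw [← h n t ⟨ht.1, ht.2.trans_lt hT'⟩]; exact hM t ht n⟩

/-- a nonnegative bound -/
lemma rap_nn {a : ℕ → ℝ → ℝ} (ha : RQT q T a) (k : ℕ) {T' : ℝ} (hT' : T' < T) :
    ∃ M, 0 ≤ M ∧ ∀ t ∈ Icc 0 T', ∀ n, q n ^ k * |a n t| ≤ M := by
  obtain ⟨M, hM⟩ := ha k T' hT'
  exact ⟨max M 0, le_max_right _ _, fun t ht n => (hM t ht n).trans (le_max_left _ _)⟩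

lemma rap_add (hq : Gr q r) {a b : ℕ → ℝ → ℝ} (ha : RQT q T a) (hb : RQT q T b) :
    RQT q T (fun n t => a n t + b n t) := by
  intro k T' hT'
  obtain ⟨M, hM⟩ := ha k T' hT'
  obtain ⟨N, hN⟩ := hb k T' hT'
  refine ⟨M + N, fun t ht n => ?_⟩
  have hp : (0 : ℝ) < q n ^ k := pow_pos (hq.pos n) _
  calc q n ^ k * |a n t + b n t| ≤ q n ^ k * (|a n t| + |b n t|) := by
        gcongr; exact abs_add_le _ _
    _ = q n ^ k * |a n t| + q n ^ k * |b n t| := by ring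
    _ ≤ M + N := add_le_add (hM t ht n) (hN t ht n)

lemma rap_w (hq : Gr q r) {a : ℕ → ℝ → ℝ} (ha : RQT q T a) (w : ℕ → ℝ) (C : ℝ) (j : ℕ)
    (hw : ∀ n, |w n| ≤ C * q n ^ j) : RQT q T (fun n t => w n * a n t) := by
  intro k T' hT'
  obtain ⟨M, hM⟩ := ha (k + j) T' hT'
  refine ⟨C * M, fun t ht n => ?_⟩
  have hp : (0 : ℝ) < q n ^ k := pow_pos (hq.pos n) _
  have hp2 : (0 : ℝ) < q 0 ^ j := pow_pos (hq.pos 0) _
  have hC : 0 ≤ C := by
    have := (abs_nonneg _).trans (hw 0)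
    exact nonneg_of_mul_nonneg_left this hp2
  calc q n ^ k * |w n * a n t| = q n ^ k * |w n| * |a n t| := by rw [abs_mul]; ring
    _ ≤ q n ^ k * (C * q n ^ j) * |a n t| := by gcongr; exact hw n
    _ = C * (q n ^ (k + j) * |a n t|) := by rw [pow_add]; ring
    _ ≤ C * M := by gcongr; exact hM t ht n

lemma weak0 (hq : Gr q r) {k n : ℕ} {a M : ℝ} (h : q n ^ k * |a| ≤ M) : |a| ≤ M := by
  refine le_trans ?_ h
  have : 1 ≤ q n ^ k := one_le_pow₀ (hq.one n)
  nlinarith [abs_nonneg a]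

lemma rap_mul (hq : Gr q r) {a b : ℕ → ℝ → ℝ} (ha : RQT q T a) (hb : RQT q T b) :
    RQT q T (fun n t => a n t * b n t) := by
  intro k T' hT'
  obtain ⟨M, hM0, hM⟩ := rap_nn ha k hT'
  obtain ⟨N, hN⟩ := hb 0 T' hT'
  refine ⟨M * N, fun t ht n => ?_⟩
  have h2 : |b n t| ≤ N := weak0 hq (hN t ht n)
  calc q n ^ k * |a n t * b n t| = (q n ^ k * |a n t|) * |b n t| := by
        rw [abs_mul]; ring
    _ ≤ M * N := mul_le_mul (hM t ht n) h2 (abs_nonneg _) hM0

/-- a rapidly decreasing family is dominated by a geometric series -/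
lemma room (hq : Gr q r) {k n m : ℕ} {a M : ℝ} (hM0 : 0 ≤ M)
    (h : q (n + m) ^ (k + 1) * |a| ≤ M) : q (n + m) ^ k * |a| ≤ M * r ^ m := by
  have hp := hq.pos (n + m)
  calc q (n + m) ^ k * |a| = (q (n + m) ^ (k + 1) * |a|) * (q (n + m))⁻¹ := by
        field_simp
        ring
    _ ≤ M * r ^ m := mul_le_mul h (hq.geo n m) (by positivity) hM0

lemma rap_geo (hq : Gr q r) {k n m : ℕ} {a M : ℝ} (hM0 : 0 ≤ M)
    (h : q (n + 1 + m) ^ (k + 1) * |a| ≤ M) : q n ^ k * |a| ≤ M * r ^ m := by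
  refine le_trans ?_ (room hq hM0 h)
  exact mul_le_mul_of_nonneg_right
    (pow_le_pow_left₀ (hq.pos n).le (hq.le (by omega)) k) (abs_nonneg _)

lemma sum_geo (hq : Gr q r) (n : ℕ) : ∑ i ∈ Finset.range n, r ^ i ≤ (1 - r)⁻¹ :=
  sum_le_hasSum _ (fun i _ => pow_nonneg hq.r0 i) (hasSum_geometric_of_lt_one hq.r0 hq.r1)

lemma rap_ps (hq : Gr q r) {Λ : ℕ → ℝ} (hΛ : ∀ n, |Λ n| ≤ 2 * q n ^ 5) {a b : ℕ → ℝ → ℝ}
    (ha : RQT q T a) (hb : RQT q T b) :
    RQT q T (fun n t => a n t * ∑ i ∈ Finset.range n, Λ i * b i t) := by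
  intro k T' hT'
  obtain ⟨M, hM0, hM⟩ := rap_nn ha k hT'
  obtain ⟨N, hN0, hN⟩ := rap_nn hb (5 + 1) hT'
  refine ⟨M * (2 * (N * (1 - r)⁻¹)), fun t ht n => ?_⟩
  have h2 : |∑ i ∈ Finset.range n, Λ i * b i t| ≤ 2 * (N * (1 - r)⁻¹) := by
    calc |∑ i ∈ Finset.range n, Λ i * b i t| ≤
        ∑ i ∈ Finset.range n, |Λ i * b i t| := Finset.abs_sum_le_sum_abs _ _
      _ ≤ ∑ i ∈ Finset.range n, 2 * (N * r ^ i) := by
          refine Finset.sum_le_sum fun i _ => ?_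
          rw [abs_mul]
          have h3 : q (0 + i) ^ 5 * |b i t| ≤ N * r ^ i :=
            room hq hN0 (by simpa using hN t ht i)
          rw [zero_add] at h3
          calc |Λ i| * |b i t| ≤ (2 * q i ^ 5) * |b i t| :=
                mul_le_mul_of_nonneg_right (hΛ i) (abs_nonneg _)
            _ = 2 * (q i ^ 5 * |b i t|) := by ring
            _ ≤ _ := mul_le_mul_of_nonneg_left h3 (by norm_num)
      _ = 2 * (N * ∑ i ∈ Finset.range n, r ^ i) := by rw [Finset.mul_sum, Finset.mul_sum]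
      _ ≤ 2 * (N * (1 - r)⁻¹) := by gcongr; exact sum_geo hq n
  calc q n ^ k * |a n t * ∑ i ∈ Finset.range n, Λ i * b i t| =
        (q n ^ k * |a n t|) * |∑ i ∈ Finset.range n, Λ i * b i t| := by
        rw [abs_mul]; ring
    _ ≤ _ := mul_le_mul (hM t ht n) h2 (abs_nonneg _) hM0

lemma rap_tail (hq : Gr q r) {a : ℕ → ℝ → ℝ} (ha : RQT q T a) :
    RQT q T (fun n t => ∑' m : ℕ, a (n + 1 + m) t) := by
  intro k T' hT'
  obtain ⟨M, hM0, hM⟩ := rap_nn ha (k + 1) hT'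
  refine ⟨M * (1 - r)⁻¹, fun t ht n => ?_⟩
  have hb : ∀ m, q n ^ k * |a (n + 1 + m) t| ≤ M * r ^ m := fun m =>
    rap_geo hq hM0 (hM t ht (n + 1 + m))
  have hg : HasSum (fun m : ℕ => M * r ^ m) (M * (1 - r)⁻¹) :=
    (hasSum_geometric_of_lt_one hq.r0 hq.r1).mul_left _
  have hp : (0 : ℝ) < q n ^ k := pow_pos (hq.pos n) _
  have hsm : Summable (fun m : ℕ => q n ^ k * |a (n + 1 + m) t|) :=
    Summable.of_nonneg_of_le (fun m => by positivity) hb hg.summable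
  have hsm2 : Summable (fun m : ℕ => |a (n + 1 + m) t|) := by
    have := hsm.mul_left (q n ^ k)⁻¹
    refine this.congr fun m => ?_
    field_simp
  calc q n ^ k * |∑' m : ℕ, a (n + 1 + m) t| ≤ q n ^ k * ∑' m : ℕ, |a (n + 1 + m) t| := by
        gcongr
        have := norm_tsum_le_tsum_norm (f := fun m : ℕ => a (n + 1 + m) t) hsm2
        simpa [Real.norm_eq_abs] using this
    _ = ∑' m : ℕ, q n ^ k * |a (n + 1 + m) t| := by rw [tsum_mul_left]
    _ ≤ M * (1 - r)⁻¹ := hasSum_le hb hsm.hasSum hg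

/-! ### Derivatives -/

/-- `a'` is the time derivative of `a` -/
def Der (T : ℝ) (a a' : ℕ → ℝ → ℝ) : Prop :=
  ∀ n, ∀ t ∈ Ico 0 T, HasDerivWithinAt (a n) (a' n t) (Ico 0 T) t

/-- Differentiation of the tail sums. -/
lemma der_tail (hq : Gr q r) {a a' : ℕ → ℝ → ℝ} (ha : RQT q T a) (ha' : RQT q T a')
    (hd : Der T a a') :
    Der T (fun n t => ∑' m : ℕ, a (n + 1 + m) t) (fun n t => ∑' m : ℕ, a' (n + 1 + m) t) := by
  intro n t ht
  obtain ⟨T', hT1, hT2⟩ := exists_between ht.2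
  obtain ⟨M, hM0, hM⟩ := rap_nn ha' (0 + 1) hT2
  obtain ⟨N, hN0, hN⟩ := rap_nn ha (0 + 1) hT2
  have hsub : Icc 0 T' ⊆ Ico 0 T := fun τ hτ => ⟨hτ.1, hτ.2.trans_lt hT2⟩
  have htT' : t ∈ Icc 0 T' := ⟨ht.1, hT1.le⟩
  have hb : ∀ m, ∀ τ ∈ Icc 0 T', |a' (n + 1 + m) τ| ≤ M * r ^ m := fun m τ hτ => by
    have := rap_geo (k := 0) hq hM0 (hM τ hτ (n + 1 + m))
    simpa using this
  have hb2 : ∀ m, ∀ τ ∈ Icc 0 T', |a (n + 1 + m) τ| ≤ N * r ^ m := fun m τ hτ => by
    have := rap_geo (k := 0) hq hN0 (hN τ hτ (n + 1 + m))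
    simpa using this
  have hgeo : ∀ C : ℝ, Summable (fun m : ℕ => C * r ^ m) := fun C =>
    (summable_geometric_of_lt_one hq.r0 hq.r1).mul_left _
  have hsa : ∀ τ ∈ Icc 0 T', Summable (fun m : ℕ => a (n + 1 + m) τ) := fun τ hτ =>
    Summable.of_norm_bounded (hgeo N) (fun m => hb2 m τ hτ)
  have key : HasDerivWithinAt (fun t => ∑' m : ℕ, a (n + 1 + m) t)
      (∑' m : ℕ, a' (n + 1 + m) t) (Icc 0 T') t := by
    rw [hasDerivWithinAt_iff_tendsto_slope]
    have hlim : Tendsto (fun τ => ∑' m : ℕ, slope (a (n + 1 + m)) t τ) (𝓝[Icc 0 T' \ {t}] t)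
        (𝓝 (∑' m : ℕ, a' (n + 1 + m) t)) := by
      refine tendsto_tsum_of_dominated_convergence (bound := fun m : ℕ => M * r ^ m) (hgeo M)
        (fun m => ?_) ?_
      · have := (hd (n + 1 + m) t ht).mono hsub
        rwa [hasDerivWithinAt_iff_tendsto_slope] at this
      · filter_upwards [self_mem_nhdsWithin] with τ hτ m
        have h3 := (convex_Icc (0 : ℝ) T').norm_image_sub_le_of_norm_hasDerivWithin_le
          (f := a (n + 1 + m)) (f' := a' (n + 1 + m)) (C := M * r ^ m)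
          (fun x hx => (hd (n + 1 + m) x (hsub hx)).mono hsub) (fun x hx => hb m x hx) htT' hτ.1
        have h4 : 0 < ‖τ - t‖ := norm_pos_iff.2 (sub_ne_zero.2 hτ.2)
        rw [slope_def_field, norm_div, div_le_iff₀ h4]
        exact h3
    refine hlim.congr' ?_
    filter_upwards [self_mem_nhdsWithin] with τ hτ
    simp only [slope_def_field]
    rw [tsum_div_const, (hsa τ hτ.1).tsum_sub (hsa t htT')]
  have hmem : Icc 0 T' ∈ 𝓝[Ico 0 T] t := by
    rw [mem_nhdsWithin]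
    exact ⟨Iio T', isOpen_Iio, hT1, fun τ hτ => ⟨hτ.2.1, le_of_lt hτ.1⟩⟩
  exact key.mono_of_mem_nhdsWithin hmem

/-- families with `k` rapidly decreasing derivatives -/
def D (q : ℕ → ℝ) (T : ℝ) : ℕ → (ℕ → ℝ → ℝ) → Prop
  | 0, a => RQT q T a
  | k + 1, a => RQT q T a ∧ ∃ a', Der T a a' ∧ D q T k a'

lemma D.rap {k : ℕ} {a : ℕ → ℝ → ℝ} (h : D q T k a) : RQT q T a := by
  cases k with
  | zero => exact h
  | succ k => exact h.1

lemma D.pred : ∀ {k : ℕ} {a : ℕ → ℝ → ℝ}, D q T (k + 1) a → D q T k a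
  | 0, _, h => h.1
  | k + 1, _, h => by
      obtain ⟨h1, a', h2, h3⟩ := h
      exact ⟨h1, a', h2, h3.pred⟩

lemma D.congr {k : ℕ} {a b : ℕ → ℝ → ℝ} (h : ∀ n, ∀ t ∈ Ico 0 T, a n t = b n t)
    (ha : D q T k a) : D q T k b := by
  cases k with
  | zero => exact rap_congr h ha
  | succ k =>
    obtain ⟨h1, a', h2, h3⟩ := ha
    refine ⟨rap_congr h h1, a', fun n t ht => ?_, h3⟩
    exact (h2 n t ht).congr (fun τ hτ => (h n τ hτ).symm) (h n t ht).symm

lemma D.add (hq : Gr q r) : ∀ {k : ℕ} {a b : ℕ → ℝ → ℝ}, D q T k a → D q T k b →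
    D q T k (fun n t => a n t + b n t)
  | 0, _, _, ha, hb => rap_add hq ha hb
  | k + 1, _, _, ha, hb => by
      obtain ⟨h1, a', h2, h3⟩ := ha
      obtain ⟨g1, b', g2, g3⟩ := hb
      exact ⟨rap_add hq h1 g1, _, fun n t ht => (h2 n t ht).add (g2 n t ht), D.add hq h3 g3⟩

lemma D.w (hq : Gr q r) (w : ℕ → ℝ) (C : ℝ) (j : ℕ) (hw : ∀ n, |w n| ≤ C * q n ^ j) :
    ∀ {k : ℕ} {a : ℕ → ℝ → ℝ}, D q T k a → D q T k (fun n t => w n * a n t)
  | 0, _, ha => rap_w hq ha w C j hw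
  | k + 1, _, ha => by
      obtain ⟨h1, a', h2, h3⟩ := ha
      exact ⟨rap_w hq h1 w C j hw, _, fun n t ht => (h2 n t ht).const_mul (w n),
        D.w hq w C j hw h3⟩

lemma D.mul (hq : Gr q r) : ∀ {k : ℕ} {a b : ℕ → ℝ → ℝ}, D q T k a → D q T k b →
    D q T k (fun n t => a n t * b n t)
  | 0, _, _, ha, hb => rap_mul hq ha hb
  | k + 1, a, b, ha, hb => by
      have ha0 := ha.pred
      have hb0 := hb.pred
      obtain ⟨h1, a', h2, h3⟩ := ha
      obtain ⟨g1, b', g2, g3⟩ := hb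
      exact ⟨rap_mul hq h1 g1, _, fun n t ht => (h2 n t ht).mul (g2 n t ht),
        D.add hq (D.mul hq h3 hb0) (D.mul hq ha0 g3)⟩

lemma D.ps (hq : Gr q r) {Λ : ℕ → ℝ} (hΛ : ∀ n, |Λ n| ≤ 2 * q n ^ 5) :
    ∀ {k : ℕ} {a b : ℕ → ℝ → ℝ}, D q T k a → D q T k b →
    D q T k (fun n t => a n t * ∑ i ∈ Finset.range n, Λ i * b i t)
  | 0, _, _, ha, hb => rap_ps hq hΛ ha hb
  | k + 1, a, b, ha, hb => by
      have ha0 := ha.pred
      have hb0 := hb.pred
      obtain ⟨h1, a', h2, h3⟩ := ha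
      obtain ⟨g1, b', g2, g3⟩ := hb
      refine ⟨rap_ps hq hΛ h1 g1, _, fun n t ht => ?_,
        D.add hq (D.ps hq hΛ h3 hb0) (D.ps hq hΛ ha0 g3)⟩
      exact (h2 n t ht).mul (HasDerivWithinAt.fun_sum fun i _ => (g2 i t ht).const_mul _)

lemma D.tail (hq : Gr q r) : ∀ {k : ℕ} {a : ℕ → ℝ → ℝ}, D q T k a →
    D q T k (fun n t => ∑' m : ℕ, a (n + 1 + m) t)
  | 0, _, ha => rap_tail hq ha
  | k + 1, _, ha => by
      obtain ⟨h1, a', h2, h3⟩ := ha
      exact ⟨rap_tail hq h1, _, der_tail hq h1 h3.rap h2, D.tail hq h3⟩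

/-- the right-hand side of the reduced system -/
lemma D.rhs (hq : Gr q r) {Λ : ℕ → ℝ} (hΛ : ∀ n, |Λ n| ≤ 2 * q n ^ 5) {k : ℕ} {x : ℕ → ℝ → ℝ}
    (hx : D q T k x) : D q T k (fun n t => yq Λ (fun _ => 0) (fun m => x m t) n) := by
  have h2 := hx.ps hq hΛ hx
  have h3 := ((hx.mul hq hx).tail hq).w hq (fun n => -Λ n) 2 5 (fun n => by
    rw [abs_neg]; exact hΛ n)
  refine D.congr ?_ (h2.add hq h3)
  intro n t _
  simp only [yq, sq]
  split_ifs <;> ring

/-- the bootstrap -/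
lemma smooth (hq : Gr q r) {Λ : ℕ → ℝ} (hΛ : ∀ n, |Λ n| ≤ 2 * q n ^ 5) {x : ℕ → ℝ → ℝ}
    (hx : RQT q T x) (hd : Der T x (fun n t => yq Λ (fun _ => 0) (fun m => x m t) n)) :
    SmR q T x := by
  have hD : ∀ k, D q T k x := by
    intro k
    induction k with
    | zero => exact hx
    | succ k ih => exact ⟨hx, _, hd, ih.rhs hq hΛ⟩
  have step : ∀ a : {a : ℕ → ℝ → ℝ // ∀ k, D q T k a},
      ∃ a' : {a : ℕ → ℝ → ℝ // ∀ k, D q T k a}, Der T a.1 a'.1 := by
    rintro ⟨a, ha⟩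
    obtain ⟨_, a', h2, _⟩ := ha 1
    refine ⟨⟨a', fun k => ?_⟩, h2⟩
    obtain ⟨_, b, g2, g3⟩ := ha (k + 1)
    refine D.congr ?_ g3
    intro n t ht
    exact (uniqueDiffOn_Ico (0 : ℝ) T t ht).eq_deriv _ (g2 n t ht) (h2 n t ht)
  choose f hf using step
  refine ⟨fun k => (f^[k] ⟨x, hD⟩).1, rfl, fun k => (f^[k] ⟨x, hD⟩).2 0, fun k n t ht => ?_⟩
  beta_reduce
  rw [Function.iterate_succ_apply']
  exact hf _ n t ht

/-! ### The scales and the cascade -/

lemma gr {Q : ℝ} (hQ : 4 ≤ Q) : Gr (tw Q) (1 / 2) where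
  one n := by have := tw_four hQ n; linarith
  mono n := tw_mono hQ n
  r0 := by norm_num
  r1 := by norm_num
  geo n m := by
    have h1 := tw_geo hQ n m
    have h2 := tw_four hQ n
    have h3 : (0 : ℝ) < 2 ^ m := by positivity
    rw [one_div, inv_pow]
    exact inv_anti₀ h3 (by nlinarith)

lemma la {q : ℕ → ℝ} {r : ℝ} (hq : Gr q r) (n : ℕ) : |La q n| ≤ 2 * q n ^ 5 := by
  unfold La
  have h : 0 ≤ q n ^ 5 := pow_nonneg (hq.pos n).le 5
  rw [abs_of_nonneg h]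
  linarith

lemma rapx {Q : ℝ} (hQ : 4 ≤ Q) {ε : ℝ} {σ : ℕ → ℝ} {x : ℕ → ℝ → ℝ}
    (h : DI ε (tw Q) T σ x) : RQT (tw Q) T x := by
  have hq := gr hQ
  intro k T' hT'
  obtain ⟨n, hn⟩ : ∃ n, T' ≤ σ (n + 1) := by
    have h1 := h.σl.eventually (lt_mem_nhds hT')
    obtain ⟨N, hN⟩ := Filter.eventually_atTop.1 h1
    exact ⟨N, (hN (N + 1) (Nat.le_succ N)).le⟩
  have hcont : ∀ m, ContinuousOn (x m) (Icc 0 T') := fun m t ht =>
    ((h.ode m t ⟨ht.1, ht.2.trans_lt hT'⟩).continuousWithinAt).mono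
      (fun τ hτ => ⟨hτ.1, hτ.2.trans_lt hT'⟩)
  have hbd : ∀ m, ∃ B, 0 ≤ B ∧ ∀ t ∈ Icc 0 T', tw Q m ^ k * |x m t| ≤ B := by
    intro m
    obtain ⟨B, hB⟩ := isCompact_Icc.exists_bound_of_continuousOn (hcont m)
    refine ⟨tw Q m ^ k * max B 0, mul_nonneg (pow_nonneg (hq.pos m).le _) (le_max_right _ _),
      fun t ht => ?_⟩
    exact mul_le_mul_of_nonneg_left ((hB t ht).trans (le_max_left _ _))
      (pow_nonneg (hq.pos m).le _)
  choose B hB0 hB using hbd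
  refine ⟨Real.exp (k ^ 2) + ∑ m ∈ Finset.range (n + 3), B m, fun t ht m => ?_⟩
  rcases lt_or_ge m (n + 3) with hm | hm
  · have h1 := hB m t ht
    have h2 : B m ≤ ∑ m ∈ Finset.range (n + 3), B m :=
      Finset.single_le_sum (fun i _ => hB0 i) (Finset.mem_range.2 hm)
    have h3 := Real.exp_pos ((k : ℝ) ^ 2)
    linarith
  · obtain ⟨m', rfl⟩ : ∃ m', m = m' + 2 := ⟨m - 2, by omega⟩
    have h1 := h.act n t ⟨ht.1, ht.2.trans hn⟩ m' (by omega)
    have h2 : tw Q (m' + 2) ^ k * |x (m' + 2) t| ≤ tw Q (m' + 2) ^ k * uu Q m' :=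
      mul_le_mul_of_nonneg_left h1 (pow_nonneg (hq.pos _).le _)
    have h3 := uu_pow hQ k m'
    have h4 : 0 ≤ ∑ m ∈ Finset.range (n + 3), B m := Finset.sum_nonneg fun i _ => hB0 i
    linarith

end E34

open E34 in
/-- **(E4)** The cascade is smooth in time with rapid decay. -/
theorem t_E4 : S_E4 := by
  intro ε Q T σ x hQ h
  exact smooth (gr hQ) (la (gr hQ)) (rapx hQ h) h.ode

end Pool.Agent.N976.EE
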