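import Pool.Agent.N976.EE.Def
import Pool.Agent.N976.EN.X1
import Pool.Agent.N976.UE.X1

/-! (E5) The table of the interactions of the packets, for all very lacunary sequences of scales. -/

open Set Filter Topology MeasureTheory
open scoped ContDiff

set_option autoImplicit false

namespace Pool.Agent.N976.EE

open Pool.Agent.N976.SC Pool.Agent.N976.EN Pool.Agent.N976.UE

namespace E5

open Pool.Agent.N976.SC.T4 Pool.Agent.N976.UE.X

/-- the constraint fields -/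
noncomputable def R4 (r : Fin 3 × ℕ → E3 → E3) : Fin 4 × ℕ → E3 → E3
  | (0, n) => r (0, n)
  | (1, n) => r (1, n)
  | (2, n) => r (2, n)
  | (3, _) => fun _ => 0

section

variable {q : ℕ → ℝ} {β lam : ℝ} {P : E3 → E3} {r : Fin 3 × ℕ → E3 → E3}

lemma SP (h : TX q β lam P r) : Sm P := Sm.of_out h.sm h.out

lemma r0 (h : TX q β lam P r) (y : E3) :
    r (0, 0) y = adv (pq P (q 0)) (pq P (q 0)) y := by
  have := h.pd 0 y
  rw [Finset.sum_range_one, Finset.sum_range_zero, smul_zero, add_zero] at this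
  exact this.symm

lemma r0s (h : TX q β lam P r) (n : ℕ) (y : E3) :
    r (0, n + 1) y = adv (pq P (q (n + 1))) (pq P (q (n + 1))) y -
      adv (pq P (q n)) (pq P (q n)) y - (β * q n ^ 5) • pq P (q n) y := by
  rw [h.pd (n + 1) y, h.pd n y, Finset.sum_range_succ (fun k => r (0, k) y) (n + 1),
    Finset.sum_range_succ (fun j => q j ^ 5 • pq P (q j) y) n]
  module

lemma r1s (h : TX q β lam P r) (h0 : q 0 ≠ 0) (n : ℕ) (y : E3) :
    r (1, n + 1) y = β • pq P (q (n + 1)) y + (q 0 ^ 5)⁻¹ •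
      (adv (pq P (q 0)) (pq P (q (n + 1))) y + adv (pq P (q (n + 1))) (pq P (q 0)) y) := by
  rw [h.pc 0 (n + 1) y (Nat.succ_pos n), smul_smul, inv_mul_cancel₀ (pow_ne_zero 5 h0), one_smul]
  module

lemma r2 (h : TX q β lam P r) (n : ℕ) (y : E3) :
    r (2, n) y = lap (pq P (q n)) y + (lam * q n ^ 4) • pq P (q n) y := by
  rw [h.pl n y]
  module

lemma f0 (h : TX q β lam P r) (h1 : ∀ n, 1 ≤ q n) (hm : ∀ n, q n ≤ q (n + 1)) :
    Pg q (fun n => r (0, n)) := by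
  obtain ⟨a1, a2, a3, a4⟩ := Pg_pk h1 (SP h)
  obtain ⟨C, K, hC, g1⟩ := Pg.adv h1 a1 a2
  obtain ⟨C', K', hC', g2⟩ := a1.smul h1 ((Pc.const β).mul h1 (Pc.pow h1 5))
  refine ⟨2 * C + C', K + K', by positivity, fun n y => ?_⟩
  cases n with
  | zero =>
    change ‖r (0, 0) y‖ ≤ _
    rw [r0 h]
    have h3 : q 0 ^ K ≤ q 0 ^ (K + K') := pow_le_pow_right₀ (h1 0) (by omega)
    have h4 : 0 ≤ q 0 ^ (K + K') := by have := h1 0; positivity
    calc ‖adv (pq P (q 0)) (pq P (q 0)) y‖ ≤ C * q 0 ^ K := g1 0 y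
      _ ≤ C * q 0 ^ (K + K') := by gcongr
      _ ≤ (2 * C + C') * q 0 ^ (K + K') := by
        apply mul_le_mul_of_nonneg_right _ h4
        linarith
  | succ n =>
    change ‖r (0, n + 1) y‖ ≤ _
    rw [r0s h]
    have e0 : 0 ≤ q n := by linarith [h1 n]
    have e1 : q (n + 1) ^ K ≤ q (n + 1) ^ (K + K') := pow_le_pow_right₀ (h1 _) (by omega)
    have e2 : q n ^ K ≤ q (n + 1) ^ K := pow_le_pow_left₀ e0 (hm n) K
    have e3 : q n ^ K' ≤ q (n + 1) ^ K' := pow_le_pow_left₀ e0 (hm n) K'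
    have e4 : q (n + 1) ^ K' ≤ q (n + 1) ^ (K + K') := pow_le_pow_right₀ (h1 _) (by omega)
    calc _ ≤ ‖adv (pq P (q (n + 1))) (pq P (q (n + 1))) y‖ + ‖adv (pq P (q n)) (pq P (q n)) y‖ +
          ‖(β * q n ^ 5) • pq P (q n) y‖ := by
          refine (norm_sub_le _ _).trans ?_
          gcongr
          exact norm_sub_le _ _
      _ ≤ C * q (n + 1) ^ K + C * q n ^ K + C' * q n ^ K' :=
          add_le_add (add_le_add (g1 (n + 1) y) (g1 n y)) (g2 n y)
      _ ≤ C * q (n + 1) ^ (K + K') + C * q (n + 1) ^ (K + K') + C' * q (n + 1) ^ (K + K') := by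
          gcongr
          · exact e2.trans e1
          · exact e3.trans e4
      _ = (2 * C + C') * q (n + 1) ^ (K + K') := by ring

lemma f1 (h : TX q β lam P r) (h1 : ∀ n, 1 ≤ q n) : Pg q (fun n => r (1, n)) := by
  have hP := SP h
  obtain ⟨a1, a2, a3, a4⟩ := Pg_pk h1 hP
  have hq0 : 0 < q 0 := by linarith [h1 0]
  have hS0 : Sm (pk (q 0) P 1) := hP.pk hq0 1
  have c0 : Pg q (fun _ : ℕ => pk (q 0) P 1) := by
    obtain ⟨C, hC⟩ := bdd_of hS0.sm.continuous hS0.cs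
    exact ⟨C, 0, (norm_nonneg _).trans (hC 0), fun n y => by simpa using hC y⟩
  have c1 : Pg q (fun _ : ℕ => fderiv ℝ (pk (q 0) P 1)) := by
    obtain ⟨C, hC⟩ := bdd_of (cd_fderiv hS0.sm).continuous (hS0.cs.fderiv (𝕜 := ℝ))
    exact ⟨C, 0, (norm_nonneg _).trans (hC 0), fun n y => by simpa using hC y⟩
  have b1 := Pg.adv h1 c0 a2
  have b2 := Pg.adv h1 a1 c1
  obtain ⟨C, K, hC, g1⟩ := (a1.smul h1 (Pc.const β)).add h1
    ((b1.add h1 b2).smul h1 (Pc.const (q 0 ^ 5)⁻¹))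
  have hS1 : Sm (r (1, 0)) := by
    refine Sm.of_out (h.rsm _) (R := 1 / q 0 ^ 2) fun y hy => h.rout0 1 y ?_
    rwa [div_le_iff₀ (by positivity), mul_comm] at hy
  obtain ⟨C', hC'⟩ := bdd_of hS1.sm.continuous hS1.cs
  have hC'0 : 0 ≤ C' := (norm_nonneg _).trans (hC' 0)
  refine ⟨C' + C, K, by positivity, fun n y => ?_⟩
  have h3 : 1 ≤ q n ^ K := one_le_pow₀ (h1 n)
  cases n with
  | zero =>
    calc ‖r (1, 0) y‖ ≤ C' := hC' y
      _ ≤ (C' + C) * q 0 ^ K := by nlinarith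
  | succ n =>
    change ‖r (1, n + 1) y‖ ≤ _
    rw [r1s h hq0.ne']
    calc _ ≤ C * q (n + 1) ^ K := g1 (n + 1) y
      _ ≤ (C' + C) * q (n + 1) ^ K := by
        apply mul_le_mul_of_nonneg_right _ (by linarith)
        linarith

lemma f2 (h : TX q β lam P r) (h1 : ∀ n, 1 ≤ q n) : Pg q (fun n => r (2, n)) := by
  obtain ⟨a1, a2, a3, a4⟩ := Pg_pk h1 (SP h)
  exact (a4.add h1 (a1.smul h1 ((Pc.const lam).mul h1 (Pc.pow h1 4)))).congr fun n y => r2 h n y

lemma rbd (h : TX q β lam P r) (h1 : ∀ n, 1 ≤ q n) (hm : ∀ n, q n ≤ q (n + 1)) :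
    ∃ (C : ℝ) (K : ℕ), ∀ i n y, ‖R4 r (i, n) y‖ ≤ C * q n ^ K := by
  obtain ⟨C0, K0, hC0, g0⟩ := f0 h h1 hm
  obtain ⟨C1, K1, hC1, g1⟩ := f1 h h1
  obtain ⟨C2, K2, hC2, g2⟩ := f2 h h1
  refine ⟨C0 + C1 + C2, K0 + K1 + K2, fun i n y => ?_⟩
  have key : ∀ (C : ℝ) (K : ℕ) (x : ℝ), 0 ≤ C → C ≤ C0 + C1 + C2 → K ≤ K0 + K1 + K2 →
      x ≤ C * q n ^ K → x ≤ (C0 + C1 + C2) * q n ^ (K0 + K1 + K2) := by
    intro C K x hC h3 h4 h5
    have h6 : q n ^ K ≤ q n ^ (K0 + K1 + K2) := pow_le_pow_right₀ (h1 n) h4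
    have h7 : 0 ≤ q n ^ K := by have := h1 n; positivity
    exact h5.trans (mul_le_mul h3 h6 h7 (hC.trans h3))
  fin_cases i
  · exact key C0 K0 _ hC0 (by linarith) (by omega) (g0 n y)
  · exact key C1 K1 _ hC1 (by linarith) (by omega) (g1 n y)
  · exact key C2 K2 _ hC2 (by linarith) (by omega) (g2 n y)
  · have h3 : 0 ≤ (C0 + C1 + C2) * q n ^ (K0 + K1 + K2) := by have := h1 n; positivity
    simpa [R4] using h3

end

end E5

open E5 Pool.Agent.N976.SC.T4 Pool.Agent.N976.UE.X in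
/-- (E5) The table, for all very lacunary sequences of scales. -/
theorem t_E5 : S_E5 := by
  obtain ⟨C₀, β, lam, P, hT⟩ := Pool.Agent.N976.EN.t_TX
  refine ⟨max C₀ 2, β, lam, ip P P, fun q hq1 hq2 => ?_⟩
  have q2 : ∀ n, 2 ≤ q n := fun n => (le_max_right _ _).trans (hq1 n)
  have q0 : ∀ n, 0 < q n := fun n => by linarith [q2 n]
  have hm : ∀ n, q n ≤ q (n + 1) := fun n => by
    have h1 := hq2 n
    have h2 : 2 * q n ≤ max C₀ 2 * q n := mul_le_mul_of_nonneg_right (le_max_right _ _) (q0 n).le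
    linarith [q0 n]
  obtain ⟨r, h⟩ := hT q (fun n => (le_max_left _ _).trans (hq1 n)) fun n =>
    (mul_le_mul_of_nonneg_right (le_max_left _ _) (q0 n).le).trans (hq2 n)
  have h1 : ∀ n, 1 ≤ q n := fun n => by linarith [q2 n]
  have hP := SP h
  obtain ⟨N, hN, hn⟩ := h.norm
  have hNP : ip P P = N := by
    have := hn 0 0
    rw [if_pos rfl] at this
    rw [← this]
    exact (ip_pk (q0 0) 1 P P).symm
  refine ⟨fun n => pq P (q n), R4 r, fun n => rfl, ?_⟩
  constructor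
  · exact h.β0
  · exact h.lam0
  · rw [hNP]; exact hN
  · exact fun n => (hP.pk (q0 n) 1).sm
  · intro n y hy
    exact pk_out h.out (by linarith [q2 n]) 1 y (by rw [mul_one]; exact hy)
  · exact fun n y => divg_pk hP.diff h.div 1 y
  · intro j
    obtain ⟨C, K, -, hK⟩ := Pg_it h1 hP j
    exact ⟨C, K, hK⟩
  · rintro ⟨i, n⟩
    fin_cases i
    · exact h.rsm _
    · exact h.rsm _
    · exact h.rsm _
    · exact contDiff_const
  · intro i y hy
    fin_cases i
    · exact h.rout0 0 y hy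
    · exact h.rout0 1 y hy
    · exact h.rout0 2 y hy
    · rfl
  · intro i n y hy
    fin_cases i
    · exact h.rout 0 n y hy
    · exact h.rout 1 n y hy
    · exact h.rout 2 n y hy
    · rfl
  · exact rbd h h1 hm
  · intro m n
    simp only [div_one]
    rw [hNP]
    exact hn m n
  · rintro m ⟨i, n⟩
    fin_cases i
    · exact h.orth m _
    · exact h.orth m _
    · exact h.orth m _
    · exact ip_zero_of fun y => Or.inr rfl
  · intro n y
    simp only [mul_zero, zero_smul, sub_zero, one_mul]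
    exact h.pd n y
  · intro m n y hmn
    simp only [mul_zero, zero_smul, add_zero, mul_one]
    have e : (if n = m + 1 then R4 r (3, m) y else 0) = 0 := by
      split_ifs <;> rfl
    rw [e, add_zero]
    exact h.pc m n y hmn
  · exact fun n y => h.pl n y

end Pool.Agent.N976.EE
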