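import Pool.Agent.N976.EE.Def
import Pool.Agent.N976.UE.Z1
import Pool.Agent.N976.UE.Z2
import Pool.Agent.N976.UE.Z34

/-!
# (E6), (E7), (E8): the residual, products, the reaction coefficients
-/

open Set Filter Topology MeasureTheory
open scoped ContDiff InnerProductSpace

set_option autoImplicit false
set_option linter.unusedSectionVars false

namespace Pool.Agent.N976.EE

open Pool.Agent.N976.SC Pool.Agent.N976.EN Pool.Agent.N976.UE

namespace E678

open Pool.Agent.N976.UE.Z2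

/-! ### (E6) (adapted from `UE/Z2.lean`) -/

/-- The properties of the coefficients which are used. -/
structure Cq (q Λ b γ : ℕ → ℝ) : Prop where
  lam : Po q Λ
  b : Po q b
  g : ∀ a : ℕ → ℝ, Ra q a → Ra q (fun n => γ n * a (n + 1))

section main

variable {ν : ℝ} {q Λ b V γ : ℕ → ℝ} {β lam N : ℝ} {P : ℕ → E3 → E3} {r : Fin 4 × ℕ → E3 → E3}

theorem ra_ly (hq : Lac q) (hC : Cq q Λ b γ) {a : ℕ → ℝ} (ha : Ra q a) (i : Fin 4) :
    Ra q (fun n => ly ν Λ a (i, n)) := by
  fin_cases i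
  · exact ha.tail hq
  · have h1 := ha.mul hq (Po.sum hq (hC.lam.smul hq (ha.po hq)))
    have h2 : (fun n => ly ν Λ a (1, n)) =
        fun n => (∑ i ∈ Finset.range n, Λ i • a i) * a n := by
      funext n
      simp only [ly, smul_eq_mul]
      exact mul_comm _ _
    exact h2 ▸ h1
  · have h1 := ha.mul hq (Po.const hq (-ν))
    have h2 : (fun n => ly ν Λ a (2, n)) = fun n => -ν * a n := by
      funext n
      show -(ν * a n) = _
      ring
    exact h2 ▸ h1
  · have h1 := (ha.shift hq).mul hq (ha.po hq)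
    exact h1

theorem w_po (hq : Lac q) (hT : TY q Λ b V γ β lam N P r) (hC : Cq q Λ b γ) (y : E3) :
    Po q (fun n => (b (n + 1) * γ n) • P (n + 1) y) := by
  obtain ⟨C0, K0, h0⟩ := bd0 hT
  obtain ⟨C1, K1, h1⟩ := bd1 hT
  obtain ⟨C2, K2, h2⟩ := hT.rbd
  have hP : Po q (fun n => P n y) := Po.of_le hq fun n => h0 n y
  have hr : Po q (fun n => r (0, n) y) := Po.of_le hq fun n => h2 0 n y
  have hrs : Po q (fun n => ∑ k ∈ Finset.range (n + 1), r (0, k) y) := by
    have := (Po.sum hq hr).add hq hr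
    simpa only [Finset.sum_range_succ] using this
  have hs : Po q (fun n => ∑ j ∈ Finset.range n, (b j * Λ j) • P j y) :=
    Po.sum hq ((hC.b.smul hq hC.lam).smul hq hP)
  have hadv : Po q (fun n => adv (P n) (P n) y) := by
    refine Po.of_le hq (C := C1 * C0) (K := K1 + K0) fun n => ?_
    refine (ContinuousLinearMap.le_opNorm _ _).trans ?_
    calc ‖fderiv ℝ (P n) y‖ * ‖P n y‖ ≤ (C1 * q n ^ K1) * (C0 * q n ^ K0) := by
          gcongr
          · exact (norm_nonneg _).trans (h1 n y)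
          · exact h1 n y
          · exact h0 n y
      _ = _ := by ring
  have h3 := ((Po.const hq β⁻¹).smul hq (hrs.sub hq hadv)).add hq hs
  refine Eq.mp ?_ h3
  congr 1
  funext n
  have h4 := hT.pd n y
  have h5 := hT.β0
  rw [h4]
  have h6 : ∀ (R T W : E3), β⁻¹ • (R - (R + β • (T - W))) + T = W := by
    intro R T W
    have h7 : β⁻¹ • (R - (R + β • (T - W))) + T = (β⁻¹ * β) • (W - T) + T := by module
    rw [h7, inv_mul_cancel₀ h5.ne']
    module
  exact h6 _ _ _

theorem point (hq : Lac q) (hT : TY q Λ b V γ β lam N P r) (hC : Cq q Λ b γ) {a a' : ℕ → ℝ}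
    (ha : Ra q a) (ha' : Ra q a')
    (haa : ∀ n, a' n = -(ν * lam * V n * a n) + β * b n * yq Λ γ a n) (y : E3) :
    HasSum (fun p => ly ν Λ a p • r p y)
    (sp P a' y + adv (sp P a) (sp P a) y - ν • lap (sp P a) y) := by
  obtain ⟨C0, K0, h0⟩ := bd0 hT
  obtain ⟨C2, K2, h2⟩ := hT.rbd
  have hP : Po q (fun n => P n y) := Po.of_le hq fun n => h0 n y
  have hr : ∀ i, Po q (fun n => r (i, n) y) := fun i => Po.of_le hq fun n => h2 i n y
  have hbΛ : Po q (fun j => (b j * Λ j) • P j y) :=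
    (hC.b.smul hq hC.lam).smul hq hP
  have hL := fun i => (ra_ly (ν := ν) hq hC ha i).hs hq (hr i)
  have H0 := sp_hs hq hT ha' y
  obtain ⟨hn, H⟩ := sp_adv hq hT ha y
  obtain ⟨D, L, H1, H2, hA⟩ := split hn H
  have H3 := sp_lap hq hT ha y
  obtain ⟨S0, H4, H5⟩ := tri hq ha (hr 0)
  obtain ⟨T0, H6, H7⟩ := tri' hq ha hbΛ
  have H11 := (ha.sq hq).hs hq (w_po hq hT hC y)
  have H12 := ((hC.g _ ha).mul hq (hC.b.smul hq (ha.po hq))).hs hq hP
  have e0 := (hL 0).unique H5
  -- the two sides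
  have A1 := (H0.add (H1.add H2)).sub (H3.const_smul ν)
  have A2 := (((H4.add (hL 1)).add (hL 2)).add (shift (hL 3))).add
    ((((H6.sub H7).add ((shift H11).sub H11)).add ((shift H12).sub H12)).const_smul β)
  have A3 := A1.unique (A2.congr_fun fun n => ?_)
  · have A4 := four (f := fun p => ly ν Λ a p • r p y) hL
    rw [Fin.sum_univ_four, e0] at A4
    rw [hA, A3]
    simpa only [sub_self, add_zero, smul_zero] using A4
  · have e1 : ∀ n, ly ν Λ a (1, n) = a n * ∑ i ∈ Finset.range n, Λ i * a i := fun _ => rfl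
    have e2 : ∀ n, ly ν Λ a (2, n) = -(ν * a n) := fun _ => rfl
    have e3 : ∀ n, ly ν Λ a (3, n) = a n * a (n + 1) := fun _ => rfl
    simp only [smul_eq_mul, e1, e2, e3]
    rw [off hT a y n, hT.pd n y, hT.pl n y, haa n, yq]
    rcases n with _ | n
    · simp only [if_true]
      module
    · simp only [Nat.add_eq_zero_iff, one_ne_zero, and_false, if_false, Nat.add_sub_cancel]
      module

theorem second (hq : Lac q) (hT : TY q Λ b V γ β lam N P r) (hC : Cq q Λ b γ) {a a' : ℕ → ℝ}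
    (ha : Ra q a) (ha' : Ra q a')
    (haa : ∀ n, a' n = -(ν * lam * V n * a n) + β * b n * yq Λ γ a n) {v : E3 → E3}
    (hv : LocallyIntegrable v volume) (hvr : ∀ p, ip v (r p) = 0) :
    ip v (fun y => sp P a' y + adv (sp P a) (sp P a) y - ν • lap (sp P a) y) = 0 := by
  obtain ⟨C, K, h2⟩ := hT.rbd
  set g : E3 → ℝ := (Metric.closedBall (0 : E3) 1).indicator (fun y => ‖v y‖) with hg
  have hgi : Integrable g volume := by
    rw [hg, integrable_indicator_iff Metric.isClosed_closedBall.measurableSet]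
    exact (hv.integrableOn_isCompact (isCompact_closedBall (0 : E3) 1)).norm
  set F : Fin 4 × ℕ → E3 → ℝ := fun p y => inner ℝ (v y) (ly ν Λ a p • r p y) with hF
  set B : Fin 4 × ℕ → ℝ := fun p => ‖ly ν Λ a p • (C * q p.2 ^ K)‖ with hB
  have hout : ∀ (p : Fin 4 × ℕ) (y : E3), 1 < ‖y‖ → r p y = 0 := by
    rintro ⟨i, n⟩ y hy
    have hsq : ∀ n, 1 ≤ q n ^ 2 * ‖y‖ := by
      intro n
      have := hq.one_le n
      have h3 : 1 ≤ q n ^ 2 := one_le_pow₀ this
      nlinarith
    rcases n with _ | n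
    · exact hT.rout0 i y (hsq 0)
    · exact hT.rout i n y (hsq n)
  have hbd : ∀ p y, ‖F p y‖ ≤ B p * g y := by
    intro p y
    by_cases hy : y ∈ Metric.closedBall (0 : E3) 1
    · rw [hg, Set.indicator_of_mem hy]
      simp only [hF, hB]
      refine (norm_inner_le_norm _ _).trans ?_
      rw [norm_smul, norm_smul, mul_comm]
      gcongr
      exact (h2 p.1 p.2 y).trans (le_abs_self _)
    · have h3 : 1 < ‖y‖ := by simpa using hy
      rw [hg, Set.indicator_of_notMem hy]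
      simp [hF, hout p y h3]
  have hFm : ∀ p, AEStronglyMeasurable (F p) volume := fun p =>
    hv.aestronglyMeasurable.inner
      (((hT.rsm p).continuous.const_smul (ly ν Λ a p)).aestronglyMeasurable)
  have hFi : ∀ p, Integrable (F p) volume := fun p =>
    Integrable.mono' (hgi.const_mul (B p)) (hFm p) (ae_of_all _ (hbd p))
  have hBs : Summable B := by
    have h3 : ∀ i : Fin 4, HasSum (fun n => B (i, n)) (∑' n, B (i, n)) := fun i =>
      ((ra_ly (ν := ν) hq hC ha i).sum hq (cpo hq C K)).hasSum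
    exact (four h3).summable
  have hFs : Summable fun p => ∫ y, ‖F p y‖ := by
    refine Summable.of_nonneg_of_le (fun p => integral_nonneg fun y => norm_nonneg _)
      (fun p => ?_) (hBs.mul_right (∫ y, g y))
    rw [← integral_const_mul]
    exact integral_mono (hFi p).norm (hgi.const_mul (B p)) (hbd p)
  have h3 := hasSum_integral_of_summable_integral_norm hFi hFs
  have h4 : ∀ p, ∫ y, F p y = 0 := by
    intro p
    have h5 : ∀ y, F p y = ly ν Λ a p * inner ℝ (v y) (r p y) := fun y => by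
      simp only [hF, inner_smul_right]
    simp only [h5]
    rw [integral_const_mul]
    have h6 := hvr p
    unfold ip at h6
    rw [h6, mul_zero]
  have h5 : ∀ y, ∑' p, F p y = inner ℝ (v y)
      (sp P a' y + adv (sp P a) (sp P a) y - ν • lap (sp P a) y) := by
    intro y
    have h6 := (point hq hT hC ha ha' haa y).mapL (innerSL ℝ (v y))
    simpa only [innerSL_apply_apply] using h6.tsum_eq
  simp only [h4, h5] at h3
  exact h3.unique hasSum_zero


theorem cq (hq : Lac q) : Cq q (La q) (fun _ => 1) (fun _ => 0) := by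
  refine ⟨Po.of_le hq (C := 1) (K := 5) fun n => ?_, Po.const hq 1, fun a _ k => ⟨0, fun n => ?_⟩⟩
  · have := hq.pos n
    rw [one_mul, La, Real.norm_eq_abs, abs_of_pos (by positivity)]
  · beta_reduce
    rw [zero_mul, abs_zero, mul_zero]

end main

/-! ### (E8) -/

section time

variable {q : ℕ → ℝ} {T : ℝ}

theorem mono_q (h4 : ∀ n, 4 ≤ q n) (hq : ∀ n, 4 * q n ≤ q (n + 1)) (n m : ℕ) : q m ≤ q (n + m) :=
  Lac.mono ⟨h4, hq⟩ (Nat.le_add_left m n)

/-- Termwise differentiation on `[0, T)`. -/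
theorem tsum_deriv (h4 : ∀ n, 4 ≤ q n) (hq : ∀ n, 4 * q n ≤ q (n + 1)) {b b' : ℕ → ℝ → ℝ}
    (hrb : RQT q T b) (hrb' : RQT q T b')
    (hb : ∀ n, ∀ t ∈ Ico 0 T, HasDerivWithinAt (b n) (b' n t) (Ico 0 T) t) {t : ℝ}
    (ht : t ∈ Ico 0 T) :
    HasDerivWithinAt (fun t => ∑' n, b n t) (∑' n, b' n t) (Ico 0 T) t := by
  have hq4 := Z1.q_ge h4 hq
  obtain ⟨T', hT1, hT'⟩ := exists_between ht.2
  have hT0 : 0 < T' := lt_of_le_of_lt ht.1 hT1
  have hT : 0 < T := hT0.trans hT'
  have key : HasDerivAt (fun t => ∑' n, T5b.xe b b' n t) (∑' n, b' n (max t 0)) t := by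
    obtain ⟨M, -, hM⟩ := Z1.rq_bd hq4 hrb' 0 hT'
    obtain ⟨M', -, hM'⟩ := Z1.rq_bd hq4 hrb 0 hT'
    refine hasDerivAt_tsum_of_isPreconnected (t := Ioo (-1) T') (y₀ := 0) (Z1.geo_sum M)
      isOpen_Ioo isPreconnected_Ioo
      (fun n w hw => T5b.hasDerivAt_xe hb hT n (lt_trans hw.2 hT')) (fun n w hw => ?_)
      ⟨by norm_num, hT0⟩ ?_ ⟨by linarith [ht.1], hT1⟩
    · have h1 := hM (max w 0) ⟨le_max_right _ _, max_le hw.2.le hT0.le⟩ n
      rw [pow_zero, mul_one] at h1
      exact h1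
    · refine Summable.of_norm_bounded (Z1.geo_sum M') fun n => ?_
      have h1 := hM' 0 ⟨le_rfl, hT0.le⟩ n
      rw [pow_zero, mul_one] at h1
      rw [T5b.xe_of_nonneg b b' n le_rfl]
      exact h1
  rw [max_eq_left ht.1] at key
  refine key.hasDerivWithinAt.congr (fun w hw => ?_) ?_
  · exact tsum_congr fun n => (T5b.xe_of_nonneg b b' n hw.1).symm
  · exact tsum_congr fun n => (T5b.xe_of_nonneg b b' n ht.1).symm

theorem rqt_mul (h4 : ∀ n, 4 ≤ q n) {b c : ℕ → ℝ → ℝ} (hb : RQT q T b) (hc : RQT q T c) :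
    RQT q T (fun n t => b n t * c n t) := by
  intro k T' hT'
  obtain ⟨M, hM⟩ := hb k T' hT'
  obtain ⟨M', hM'⟩ := hc 0 T' hT'
  refine ⟨|M| * |M'|, fun t ht n => ?_⟩
  have h1 := hM t ht n
  have h2 := hM' t ht n
  rw [pow_zero, one_mul] at h2
  have hq0 : 0 ≤ q n ^ k := pow_nonneg (by linarith [h4 n]) k
  rw [abs_mul, ← mul_assoc]
  exact mul_le_mul (h1.trans (le_abs_self _)) (h2.trans (le_abs_self _)) (abs_nonneg _)
    (abs_nonneg _)

theorem rqt_add {b c : ℕ → ℝ → ℝ} (h4 : ∀ n, 4 ≤ q n) (hb : RQT q T b) (hc : RQT q T c) :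
    RQT q T (fun n t => b n t + c n t) := by
  intro k T' hT'
  obtain ⟨M, hM⟩ := hb k T' hT'
  obtain ⟨M', hM'⟩ := hc k T' hT'
  refine ⟨M + M', fun t ht n => ?_⟩
  have hq0 : 0 ≤ q n ^ k := pow_nonneg (by linarith [h4 n]) k
  calc q n ^ k * |b n t + c n t| ≤ q n ^ k * (|b n t| + |c n t|) :=
        mul_le_mul_of_nonneg_left (abs_add_le _ _) hq0
    _ = q n ^ k * |b n t| + q n ^ k * |c n t| := mul_add _ _ _
    _ ≤ M + M' := add_le_add (hM t ht n) (hM' t ht n)

theorem rqt_shift (h4 : ∀ n, 4 ≤ q n) (hq : ∀ n, 4 * q n ≤ q (n + 1)) {b : ℕ → ℝ → ℝ}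
    (hb : RQT q T b) (n : ℕ) : RQT q T (fun m t => b (n + m) t) := by
  intro k T' hT'
  obtain ⟨M, hM⟩ := hb k T' hT'
  refine ⟨M, fun t ht m => le_trans ?_ (hM t ht (n + m))⟩
  have h1 := mono_q h4 hq n m
  have h2 : 0 ≤ q m := by linarith [h4 m]
  exact mul_le_mul_of_nonneg_right (pow_le_pow_left₀ h2 h1 k) (abs_nonneg _)

/-- Series of products are smooth. -/
theorem prod_smooth (h4 : ∀ n, 4 ≤ q n) (hq : ∀ n, 4 * q n ≤ q (n + 1)) (K : ℕ) :
    ∀ y z : ℕ → ℕ → ℝ → ℝ, (∀ k, RQT q T (y k)) → (∀ k, RQT q T (z k)) →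
      (∀ k n, ∀ t ∈ Ico 0 T, HasDerivWithinAt (y k n) (y (k + 1) n t) (Ico 0 T) t) →
      (∀ k n, ∀ t ∈ Ico 0 T, HasDerivWithinAt (z k n) (z (k + 1) n t) (Ico 0 T) t) →
      ContDiffOn ℝ K (fun t => ∑' m, y 0 m t * z 0 m t) (Ico 0 T) := by
  have hd : ∀ y z : ℕ → ℕ → ℝ → ℝ, (∀ k, RQT q T (y k)) → (∀ k, RQT q T (z k)) →
      (∀ k n, ∀ t ∈ Ico 0 T, HasDerivWithinAt (y k n) (y (k + 1) n t) (Ico 0 T) t) →
      (∀ k n, ∀ t ∈ Ico 0 T, HasDerivWithinAt (z k n) (z (k + 1) n t) (Ico 0 T) t) →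
      ∀ t ∈ Ico 0 T, HasDerivWithinAt (fun t => ∑' m, y 0 m t * z 0 m t)
        (∑' m, y 1 m t * z 0 m t + ∑' m, y 0 m t * z 1 m t) (Ico 0 T) t := by
    intro y z hy hz hyd hzd t ht
    have h1 := tsum_deriv h4 hq (b := fun m t => y 0 m t * z 0 m t)
      (b' := fun m t => y 1 m t * z 0 m t + y 0 m t * z 1 m t) (rqt_mul h4 (hy 0) (hz 0))
      (rqt_add h4 (rqt_mul h4 (hy 1) (hz 0)) (rqt_mul h4 (hy 0) (hz 1)))
      (fun n t ht => (hyd 0 n t ht).mul (hzd 0 n t ht)) ht
    have h2 : ∀ {b : ℕ → ℝ → ℝ}, RQT q T b → Summable fun m => b m t := by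
      intro b hb
      obtain ⟨M, -, hM⟩ := Z1.rq_bd (Z1.q_ge h4 hq) hb 0 ht.2
      refine Summable.of_norm_bounded (Z1.geo_sum M) fun n => ?_
      have h1 := hM t ⟨ht.1, le_rfl⟩ n
      rw [pow_zero, mul_one] at h1
      exact h1
    rw [(h2 (rqt_mul h4 (hy 1) (hz 0))).tsum_add (h2 (rqt_mul h4 (hy 0) (hz 1)))] at h1
    exact h1
  induction K with
  | zero =>
    intro y z hy hz hyd hzd
    rw [Nat.cast_zero, contDiffOn_zero]
    exact fun t ht => (hd y z hy hz hyd hzd t ht).continuousWithinAt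
  | succ K ih =>
    intro y z hy hz hyd hzd
    have hu : UniqueDiffOn ℝ (Ico (0 : ℝ) T) := uniqueDiffOn_Ico 0 T
    rw [Nat.cast_add, Nat.cast_one, contDiffOn_succ_iff_derivWithin hu]
    refine ⟨fun t ht => (hd y z hy hz hyd hzd t ht).differentiableWithinAt, by simp, ?_⟩
    have h1 := (ih (fun k => y (k + 1)) z (fun k => hy (k + 1)) hz (fun k => hyd (k + 1)) hzd).add
      (ih y (fun k => z (k + 1)) hy (fun k => hz (k + 1)) hyd (fun k => hzd (k + 1)))
    exact h1.congr fun t ht => (hd y z hy hz hyd hzd t ht).derivWithin (hu t ht)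

theorem mode_smooth (K n : ℕ) : ∀ y : ℕ → ℕ → ℝ → ℝ,
    (∀ k n, ∀ t ∈ Ico 0 T, HasDerivWithinAt (y k n) (y (k + 1) n t) (Ico 0 T) t) →
    ContDiffOn ℝ K (y 0 n) (Ico 0 T) := by
  induction K with
  | zero =>
    intro y hyd
    rw [Nat.cast_zero, contDiffOn_zero]
    exact fun t ht => (hyd 0 n t ht).continuousWithinAt
  | succ K ih =>
    intro y hyd
    have hu : UniqueDiffOn ℝ (Ico (0 : ℝ) T) := uniqueDiffOn_Ico 0 T
    rw [Nat.cast_add, Nat.cast_one, contDiffOn_succ_iff_derivWithin hu]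
    refine ⟨fun t ht => (hyd 0 n t ht).differentiableWithinAt, by simp, ?_⟩
    exact (ih (fun k => y (k + 1)) fun k => hyd (k + 1)).congr fun t ht =>
      (hyd 0 n t ht).derivWithin (hu t ht)

end time

end E678

open E678

/-- **(E6) The residual is the sum of the reaction forces.** -/
theorem t_E6 : S_E6 := by
  intro q β lam N P r hT h4 hqq a a' ha ha' haa
  have hq : Z2.Lac q := ⟨h4, hqq⟩
  have haa' : ∀ n, a' n = -(0 * lam * q n ^ 4 * a n) + β * 1 * yq (La q) (fun _ => 0) a n := by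
    intro n
    rw [haa n]
    ring
  refine ⟨fun y => ?_, fun v hv hvr => ?_⟩
  · have h1 := E678.point (ν := 0) hq hT (cq hq) ha ha' haa' y
    rwa [zero_smul, sub_zero] at h1
  · have h1 := E678.second (ν := 0) hq hT (cq hq) ha ha' haa' hv hvr
    simpa only [zero_smul, sub_zero] using h1

/-- **(E7) Products, energy outside of small balls.** -/
theorem t_E7 : S_E7 := by
  intro q β lam N P r hT h4 hq a ha
  refine ⟨?_, fun i => ?_, fun δ n₀ hδ hn₀ => ?_⟩
  · have h1 := Z34.ip_self hT h4 hq ha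
    simpa only [div_one] using h1
  · have h1 := Z34.ip_sum hT h4 hq ha ((hT.rsm i).continuous.locallyIntegrable (μ := volume))
    have h2 : (fun n => a n * ip (P n) (r i)) = fun _ => (0 : ℝ) := by
      ext n
      rw [hT.orth, mul_zero]
    rw [h2] at h1
    exact h1.unique hasSum_zero
  · set a' : ℕ → ℝ := fun n => if n < n₀ then a n else 0 with ha'
    have hRa' : Z34.RD q a' := by
      refine Z34.RD_of_le h4 ha fun n => ?_
      rw [ha']
      simp only
      split_ifs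
      · exact le_refl _
      · rw [abs_zero]; exact abs_nonneg _
    have h1 : ∀ y ∈ {y : E3 | δ ≤ ‖y‖}, ‖sp P a y‖ ^ 2 = ‖sp P a' y‖ ^ 2 := by
      intro y hy
      have hy' : δ ≤ ‖y‖ := hy
      have h2 : sp P a y = sp P a' y := by
        unfold sp
        refine tsum_congr fun n => ?_
        rw [ha']
        simp only
        split_ifs with h
        · rfl
        · have h3 : 1 / 2 ≤ q n ^ 2 * ‖y‖ := le_trans (hn₀ n (not_lt.1 h))
            (mul_le_mul_of_nonneg_left hy' (sq_nonneg _))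
          rw [hT.out n y h3, smul_zero, smul_zero]
      rw [h2]
    have hms : MeasurableSet {y : E3 | δ ≤ ‖y‖} := measurableSet_le measurable_const measurable_norm
    rw [setIntegral_congr_fun hms h1]
    have hcont : Continuous fun y => ‖sp P a' y‖ ^ 2 := ((Z34.sp_cont hT h4 hq hRa').norm).pow 2
    have hcs : HasCompactSupport fun y => ‖sp P a' y‖ ^ 2 :=
      (Z34.sp_cs hT h4 a').comp_left (g := fun v : E3 => ‖v‖ ^ 2) (by simp)
    have hint : Integrable (fun y => ‖sp P a' y‖ ^ 2) volume := hcont.integrable_of_hasCompactSupport hcs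
    refine le_trans (setIntegral_le_integral hint (Eventually.of_forall fun y => sq_nonneg _)) ?_
    have h5 : ∫ y, ‖sp P a' y‖ ^ 2 = ip (sp P a') (sp P a') := by
      unfold ip
      refine integral_congr_ae (Eventually.of_forall fun y => ?_)
      simp only [real_inner_self_eq_norm_sq]
    rw [h5, Z34.ip_self hT h4 hq hRa']
    have h6 : ∑' n, a' n ^ 2 / (1 : ℝ) = ∑ n ∈ Finset.range n₀, a n ^ 2 := by
      rw [tsum_eq_sum (s := Finset.range n₀)]
      · refine Finset.sum_congr rfl fun n hn => ?_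
        rw [ha']
        simp only [Finset.mem_range.1 hn, if_true, div_one]
      · intro n hn
        rw [ha']
        simp only
        rw [if_neg (by simpa using hn)]
        simp
    rw [h6]

/-- **(E8) The reaction coefficients are smooth in time and rapidly decreasing.** -/
theorem t_E8 : S_E8 := by
  intro q T X h4 hq hT hX
  obtain ⟨y, rfl, hR, hd⟩ := hX
  have hX1 : ∀ n, ContDiffOn ℝ ∞ (y 0 n) (Ico 0 T) := fun n =>
    contDiffOn_infty.2 fun K => mode_smooth K n y hd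
  refine ⟨?_, fun k T' hT' => ?_⟩
  · rintro ⟨i, n⟩
    fin_cases i
    · refine contDiffOn_infty.2 fun K => ?_
      have h1 := prod_smooth h4 hq K (fun k m => y k (n + m)) (fun k m => y k (n + m))
        (fun k => rqt_shift h4 hq (hR k) n) (fun k => rqt_shift h4 hq (hR k) n)
        (fun k m => hd k (n + m)) (fun k m => hd k (n + m))
      refine h1.congr fun t _ => ?_
      change ∑' m, y 0 (n + m) t ^ 2 = _
      exact tsum_congr fun m => sq _
    · have h1 : ContDiffOn ℝ ∞ (fun t => y 0 n t * ∑ i ∈ Finset.range n, La q i * y 0 i t)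
          (Ico 0 T) :=
        (hX1 n).mul (ContDiffOn.sum fun i _ => contDiffOn_const.mul (hX1 i))
      exact h1
    · have h1 : ContDiffOn ℝ ∞ (fun t => -(0 * y 0 n t)) (Ico 0 T) :=
        (contDiffOn_const.mul (hX1 n)).neg
      exact h1
    · exact (hX1 n).mul (hX1 (n + 1))
  · obtain ⟨M0, hM00, hM0⟩ := Z1.rq_bd (Z1.q_ge h4 hq) (hR 0) 0 hT'
    obtain ⟨M1, hM1⟩ := hR 0 k T' hT'
    obtain ⟨M2, hM2⟩ := hR 0 (k + 1) T' hT'
    obtain ⟨M3, hM3⟩ := hR 0 5 T' hT'
    have hq0 : ∀ n, 0 < q n := fun n => by linarith [h4 n]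
    have hqn : ∀ n : ℕ, (n : ℝ) ≤ q n := fun n => Z2.Lac.nat_le ⟨h4, hq⟩ n
    have hb0 : ∀ t ∈ Icc 0 T', ∀ n, |y 0 n t| ≤ M0 * (4⁻¹ : ℝ) ^ n := by
      intro t ht n
      have h1 := hM0 t ht n
      rwa [pow_zero, mul_one] at h1
    have hb1 : ∀ t ∈ Icc 0 T', ∀ n, |y 0 n t| ≤ M0 := by
      intro t ht n
      refine (hb0 t ht n).trans (mul_le_of_le_one_right hM00 ?_)
      exact pow_le_one₀ (by norm_num) (by norm_num)
    refine ⟨|M1| * M0 * (4 / 3) + |M2| * |M3| + |M1| * M0, fun t ht i n => ?_⟩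
    have hp1 : 0 ≤ |M1| * M0 * (4 / 3) := by positivity
    have hp2 : 0 ≤ |M2| * |M3| := by positivity
    have hp3 : 0 ≤ |M1| * M0 := by positivity
    have hqk : 0 ≤ q n ^ k := pow_nonneg (hq0 n).le k
    fin_cases i
    · change q n ^ k * |∑' m, y 0 (n + m) t ^ 2| ≤ _
      have hterm : ∀ m, q n ^ k * y 0 (n + m) t ^ 2 ≤ |M1| * M0 * (4⁻¹ : ℝ) ^ m := by
        intro m
        have h1 : q n ^ k ≤ q (n + m) ^ k :=
          pow_le_pow_left₀ (hq0 n).le (Z2.Lac.mono ⟨h4, hq⟩ (Nat.le_add_right n m)) k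
        have h2 := hM1 t ht (n + m)
        have h3 := hb0 t ht (n + m)
        have h5 : (4⁻¹ : ℝ) ^ (n + m) ≤ 4⁻¹ ^ m :=
          pow_le_pow_of_le_one (by norm_num) (by norm_num) (Nat.le_add_left m n)
        rw [← sq_abs, sq, ← mul_assoc]
        calc q n ^ k * |y 0 (n + m) t| * |y 0 (n + m) t|
            ≤ |M1| * (M0 * (4⁻¹ : ℝ) ^ m) := by
              refine mul_le_mul ?_ (h3.trans (mul_le_mul_of_nonneg_left h5 hM00)) (abs_nonneg _)
                (abs_nonneg _)
              exact ((mul_le_mul_of_nonneg_right h1 (abs_nonneg _)).trans h2).trans (le_abs_self _)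
          _ = _ := by ring
      have hs : Summable fun m => q n ^ k * y 0 (n + m) t ^ 2 :=
        Summable.of_nonneg_of_le (fun m => mul_nonneg hqk (sq_nonneg _)) hterm
          (Z1.geo_sum (|M1| * M0))
      rw [abs_of_nonneg (tsum_nonneg fun m => sq_nonneg _), ← tsum_mul_left]
      have h6 := hs.tsum_le_tsum hterm (Z1.geo_sum (|M1| * M0))
      rw [Z1.geo_tsum] at h6
      linarith
    · change q n ^ k * |y 0 n t * ∑ i ∈ Finset.range n, La q i * y 0 i t| ≤ _
      have h1 : |∑ i ∈ Finset.range n, La q i * y 0 i t| ≤ q n * |M3| := by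
        refine (Finset.abs_sum_le_sum_abs _ _).trans ?_
        have h2 : ∀ i ∈ Finset.range n, |La q i * y 0 i t| ≤ |M3| := by
          intro i _
          rw [La, abs_mul, abs_of_pos (pow_pos (hq0 i) 5)]
          exact (hM3 t ht i).trans (le_abs_self _)
        refine (Finset.sum_le_card_nsmul _ _ _ h2).trans ?_
        rw [Finset.card_range, nsmul_eq_mul]
        exact mul_le_mul_of_nonneg_right (hqn n) (abs_nonneg _)
      have h2 := hM2 t ht n
      rw [abs_mul]
      have h3 : q n ^ k * (|y 0 n t| * |∑ i ∈ Finset.range n, La q i * y 0 i t|) ≤ |M2| * |M3| := by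
        calc q n ^ k * (|y 0 n t| * |∑ i ∈ Finset.range n, La q i * y 0 i t|)
            ≤ q n ^ k * (|y 0 n t| * (q n * |M3|)) := by gcongr
          _ = q n ^ (k + 1) * |y 0 n t| * |M3| := by ring
          _ ≤ |M2| * |M3| :=
              mul_le_mul_of_nonneg_right (h2.trans (le_abs_self _)) (abs_nonneg _)
      linarith
    · change q n ^ k * |-(0 * y 0 n t)| ≤ _
      rw [zero_mul, neg_zero, abs_zero, mul_zero]
      linarith
    · change q n ^ k * |y 0 n t * y 0 (n + 1) t| ≤ _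
      have h2 := hM1 t ht n
      have h3 := hb1 t ht (n + 1)
      rw [abs_mul, ← mul_assoc]
      have h5 : q n ^ k * |y 0 n t| * |y 0 (n + 1) t| ≤ |M1| * M0 :=
        mul_le_mul (h2.trans (le_abs_self _)) h3 (abs_nonneg _) (abs_nonneg _)
      linarith

end Pool.Agent.N976.EE
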