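import Pool.Agent.N976.EE.Def2
import Pool.Agent.N976.EC.U7
import Pool.Agent.N976.EC.U8

/-!
# (E9) the flow on the torus (helper803)
-/

open Set Filter Topology MeasureTheory
open scoped ContDiff InnerProductSpace

set_option autoImplicit false

namespace Pool.Agent.N976.EE

open Pool.Agent.N976.SC Pool.Agent.N976.EC

namespace E9

lemma small_ball {E M : ℝ} (hE : 0 < E) : ∃ δ : ℝ, 0 < δ ∧
    M ^ 2 * (volume : Measure E3).real (Metric.ball (0 : E3) δ) < E := by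
  obtain ⟨V, hV⟩ : ∃ V : ℝ, V = (volume : Measure E3).real (Metric.ball (0 : E3) 1) := ⟨_, rfl⟩
  have hV0 : 0 ≤ V := by rw [hV]; exact measureReal_nonneg
  obtain ⟨δ, hδ0, hδ1, hδ⟩ : ∃ δ : ℝ, 0 < δ ∧ δ ≤ 1 ∧ δ * (M ^ 2 * V) < E := by
    refine ⟨min 1 (E / (2 * (M ^ 2 * V + 1))), by positivity, min_le_left _ _, ?_⟩
    have h1 : min 1 (E / (2 * (M ^ 2 * V + 1))) * (M ^ 2 * V) ≤
        E / (2 * (M ^ 2 * V + 1)) * (M ^ 2 * V + 1) := by
      apply mul_le_mul (min_le_right _ _) (by linarith) (by positivity) (by positivity)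
    have h2 : E / (2 * (M ^ 2 * V + 1)) * (M ^ 2 * V + 1) = E / 2 := by
      field_simp
    linarith
  refine ⟨δ, hδ0, ?_⟩
  have e : (volume : Measure E3).real (Metric.ball (0 : E3) δ) = δ ^ 3 * V := by
    rw [hV, measureReal_def, measureReal_def, Measure.addHaar_ball_of_pos volume 0 hδ0,
      ENNReal.toReal_mul, ENNReal.toReal_ofReal (by positivity)]
    congr 2
    simp
  rw [e]
  have h3 : δ ^ 3 ≤ δ := by
    calc δ ^ 3 = δ * δ ^ 2 := by ring
      _ ≤ δ * 1 := mul_le_mul_of_nonneg_left (pow_le_one₀ hδ0.le hδ1) hδ0.le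
      _ = δ := mul_one δ
  calc M ^ 2 * (δ ^ 3 * V) = δ ^ 3 * (M ^ 2 * V) := by ring
    _ ≤ δ * (M ^ 2 * V) := mul_le_mul_of_nonneg_right h3 (by positivity)
    _ < E := hδ

/-- The energy cannot concentrate while the field is bounded. -/
lemma no_conc {E A M δ : ℝ} {u : E3 → E3} (hc : Continuous u) (h0 : ∀ y, 1 ≤ ‖y‖ → u y = 0)
    (hM : ∀ y, ‖u y‖ ≤ M)
    (hδ : M ^ 2 * (volume : Measure E3).real (Metric.ball (0 : E3) δ) < E - A)
    (hout : ∫ y in {y : E3 | δ ≤ ‖y‖}, ‖u y‖ ^ 2 ≤ A) : ip u u < E := by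
  have hi : Integrable (fun y => ‖u y‖ ^ 2) := by
    refine Continuous.integrable_of_hasCompactSupport (by fun_prop) ?_
    refine HasCompactSupport.intro (isCompact_closedBall (0 : E3) 1) fun y hy => ?_
    rw [Metric.mem_closedBall, dist_zero_right, not_le] at hy
    rw [h0 y hy.le]
    simp
  have hms : MeasurableSet {y : E3 | δ ≤ ‖y‖} := measurableSet_le measurable_const measurable_norm
  have e1 : ip u u = ∫ y, ‖u y‖ ^ 2 := by
    unfold ip
    simp only [real_inner_self_eq_norm_sq]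
  have e2 : {y : E3 | δ ≤ ‖y‖}ᶜ = Metric.ball (0 : E3) δ := by
    ext y
    simp
  rw [e1, ← integral_add_compl hms hi, e2]
  have h1 : ∫ y in Metric.ball (0 : E3) δ, ‖u y‖ ^ 2 ≤
      M ^ 2 * (volume : Measure E3).real (Metric.ball (0 : E3) δ) := by
    refine (le_abs_self _).trans ?_
    rw [← Real.norm_eq_abs]
    refine norm_setIntegral_le_of_norm_le_const measure_ball_lt_top fun y _ => ?_
    rw [Real.norm_of_nonneg (by positivity)]
    exact pow_le_pow_left₀ (norm_nonneg _) (hM y) 2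
  linarith

lemma one_le_norm {x : V} (hx : 1 ≤ ∑ i, x i ^ 2) : 1 ≤ ‖(WithLp.toLp 2 x : E3)‖ := by
  rw [← U9.sq_norm] at hx
  by_contra hcon
  push Not at hcon
  have := norm_nonneg (WithLp.toLp 2 x : E3)
  nlinarith

lemma norm_toLp_le (x : V) : ‖(WithLp.toLp 2 x : E3)‖ ≤ 2 * ‖x‖ := by
  have h1 := U9.sq_norm x
  have h2 : ∑ i, x i ^ 2 ≤ ∑ _i : Fin 3, ‖x‖ ^ 2 := by
    refine Finset.sum_le_sum fun i _ => ?_
    have h3 : |x i| ≤ ‖x‖ := norm_le_pi_norm x i
    rw [← sq_abs]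
    exact pow_le_pow_left₀ (abs_nonneg _) h3 2
  rw [Finset.sum_const, Finset.card_univ, Fintype.card_fin, nsmul_eq_mul] at h2
  push_cast at h2
  have h4 : ‖(WithLp.toLp 2 x : E3)‖ ^ 2 ≤ (2 * ‖x‖) ^ 2 := by
    rw [h1]
    nlinarith [sq_nonneg ‖x‖]
  exact le_of_sq_le_sq h4 (by positivity)

lemma sum_sq {u : E3 → E3} (x : V) : ∑ i, dn u x i ^ 2 = ‖u (WithLp.toLp 2 x)‖ ^ 2 := by
  rw [EuclideanSpace.norm_sq_eq]
  unfold dn
  simp

lemma out_int {u : E3 → E3} (h0 : ∀ y, 1 ≤ ‖y‖ → u y = 0) {δ : ℝ} (hδ : 0 < δ) :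
    ∫ x in {x : V | x ∈ Q ∧ δ ^ 2 ≤ ∑ i, x i ^ 2}, ∑ i, lft u x i ^ 2 =
      ∫ y in {y : E3 | δ ≤ ‖y‖}, ‖u y‖ ^ 2 := by
  have hS : MeasurableSet {x : V | x ∈ Q ∧ δ ^ 2 ≤ ∑ i, x i ^ 2} := by
    have h1 : MeasurableSet {x : V | δ ^ 2 ≤ ∑ i, x i ^ 2} := by
      refine measurableSet_le measurable_const ?_
      fun_prop
    exact (measurableSet_Icc : MeasurableSet Q).inter h1
  have hB : MeasurableSet {y : E3 | δ ≤ ‖y‖} := measurableSet_le measurable_const measurable_norm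
  rw [← integral_indicator hS, ← integral_indicator hB, ← U8.int_E3]
  congr 1
  ext x
  by_cases hx : x ∈ Q
  · have e : (x ∈ {x : V | x ∈ Q ∧ δ ^ 2 ≤ ∑ i, x i ^ 2}) ↔
        ((WithLp.toLp 2 x : E3) ∈ {y : E3 | δ ≤ ‖y‖}) := by
      constructor
      · intro h
        have h1 := h.2
        rw [← U9.sq_norm] at h1
        exact le_of_sq_le_sq h1 (norm_nonneg _)
      · intro h
        refine ⟨hx, ?_⟩
        rw [← U9.sq_norm]
        exact pow_le_pow_left₀ hδ.le h 2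
    by_cases hd : (WithLp.toLp 2 x : E3) ∈ {y : E3 | δ ≤ ‖y‖}
    · rw [indicator_of_mem (e.2 hd), indicator_of_mem hd, U8.lft_Q h0 hx, sum_sq]
    · rw [indicator_of_notMem (fun h => hd (e.1 h)), indicator_of_notMem hd]
  · rw [indicator_of_notMem (fun h => hx h.1)]
    have h1 := h0 _ (U8.Q_out hx)
    by_cases hd : (WithLp.toLp 2 x : E3) ∈ {y : E3 | δ ≤ ‖y‖}
    · rw [indicator_of_mem hd, h1]
      simp
    · rw [indicator_of_notMem hd]

end E9

open E9

theorem t_E9 : S_E9 := by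
  intro ε T r l u hε h
  have L := t_LIFT
  have hT0 := h.T0
  have hout1 : ∀ t ∈ Ico 0 T, ∀ y, 1 ≤ ‖y‖ → u t y = 0 := fun t ht y hy =>
    h.out t ht y (by linarith)
  have hdo : ∀ t ∈ Ico 0 T, ∀ y, 1 ≤ ‖y‖ → dt T u t y = 0 := by
    intro t ht y hy
    unfold dt
    rw [derivWithin_congr (f := fun _ => (0 : E3)) (fun s hs => hout1 s hs y hy)
      (hout1 t ht y hy)]
    simp
  obtain ⟨F, hF⟩ : ∃ F : ℝ → E3 → E3, F = fun t y => dt T u t y + adv (u t) (u t) y := ⟨_, rfl⟩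
  have hF0 : ∀ t ∈ Ico 0 T, ∀ y, 1 ≤ ‖y‖ → F t y = 0 := by
    intro t ht y hy
    rw [hF]
    simp only
    rw [hdo t ht y hy]
    unfold adv
    rw [hout1 t ht y hy]
    simp
  have hFc : ∀ t ∈ Ico 0 T, Continuous (F t) := by
    intro t ht
    rw [hF]
    exact h.rsc t ht
  have hresT : ∀ t ∈ Ico 0 T, resT T (fun τ => lft (u τ)) t = lft (F t) := by
    intro t ht
    ext1 x
    unfold resT
    rw [L.dt T u h.sm t ht, U9.adv_lft L (h.smt t ht) (hout1 t ht), U9.lft_add, hF]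
  have hrc : ∀ p, Continuous (dn (r p)) := fun p => (U9.loc_of (h.rsm p) (h.rout p)).1.continuous
  have hupc : ∀ w : V → V, Continuous w → Continuous (up w) := fun w hw =>
    (PiLp.continuousLinearEquiv 2 ℝ (fun _ : Fin 3 => ℝ)).symm.continuous.comp
      (hw.comp (PiLp.continuousLinearEquiv 2 ℝ (fun _ : Fin 3 => ℝ)).continuous)
  have hresV : ∀ t ∈ Ico 0 T, ∀ w : V → V, Continuous w →
      (∀ p, ipT w (dn (r p)) = 0) → ipT (resT T (fun τ => lft (u τ)) t) w = 0 := by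
    intro t ht w hw hcon
    rw [hresT t ht, L.ip _ w (hFc t ht) (hF0 t ht) hw]
    have h1 := h.tst t ht (up w) (hupc w hw) (fun p => by
      rw [← L.ipd _ w (h.rsm p).continuous (h.rout p) hw]
      exact hcon p)
    have h2 : ip (F t) (up w) = ip (up w) (F t) := by
      unfold ip
      exact integral_congr_ae (ae_of_all _ fun y => real_inner_comm _ _)
    rw [h2, hF]
    exact h1
  have hSol : SolT (fun p => dn (r p)) T (fun τ => lft (u τ)) := by
    refine ⟨(L.sm T u h.sm hout1).of_le (by simp), fun t ht => L.per _, ?_, ?_,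
      fun t ht w hw hc => hresV t ht w hw.c1.continuous hc⟩
    · intro t ht x
      rw [U9.div_lft L (h.smt t ht) (hout1 t ht)]
      exact h.div t ht _
    · intro t ht p
      rw [L.ip _ _ (h.smt t ht).continuous (hout1 t ht) (hrc p), U9.up_dn]
      exact h.con t ht p
  have hen : ∀ t ∈ Ico 0 T, ipT (lft (u t)) (lft (u t)) = ip (u 0) (u 0) := by
    intro t ht
    rw [← h.en t ht]
    unfold ip
    refine U8.int_Q (fun y => inner ℝ (u t y) (u t y)) (fun x hx => ?_) fun y hy => ?_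
    · rw [U8.lft_Q (hout1 t ht) hx, real_inner_self_eq_norm_sq, ← sum_sq]
      exact Finset.sum_congr rfl fun i _ => by ring
    · simp only [hout1 t ht y hy, inner_zero_left]
  refine ⟨hSol, L.sm T u h.sm hout1, ?_, ?_, ?_, hen, ?_⟩
  · intro t ht x hx hx1
    rw [U8.lft_Q (hout1 t ht) hx]
    ext i
    unfold dn
    rw [hout1 t ht _ (one_le_norm hx1)]
    rfl
  · intro t ht x hx
    rw [hresT t ht, U8.lft_Q (hF0 t ht) hx, hF]
    exact (U8.J : E3 →L[ℝ] V).hasSum (h.res t ht (WithLp.toLp 2 x))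
  · intro T' v hT' hv hv0
    have hTT' : T' ≤ T := by
      by_contra hcon
      push Not at hcon
      have e := t_UNT _ T _ _ _ hrc hSol (U9.SolT.mono hv hcon.le) hv0.symm
      -- the bound
      have hK : IsCompact (Icc 0 T ×ˢ Q) := isCompact_Icc.prod isCompact_Icc
      have hvc : ContinuousOn (fun z : ℝ × V => v z.1 z.2) (Icc 0 T ×ˢ Q) :=
        hv.c1.continuousOn.mono fun z hz => ⟨⟨hz.1.1, hz.1.2.trans_lt hcon⟩, mem_univ _⟩
      obtain ⟨M, hM⟩ := hK.exists_bound_of_continuousOn hvc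
      have hub : ∀ t ∈ Ico 0 T, ∀ y, ‖u t y‖ ≤ 2 * |M| := by
        intro t ht y
        by_cases hy : ‖y‖ < 1
        · have hyQ : (WithLp.ofLp y : V) ∈ Q := by
            by_contra hnot
            have := U8.Q_out hnot
            have e3 : (WithLp.toLp 2 (WithLp.ofLp y) : E3) = y := rfl
            rw [e3] at this
            linarith
          have h1 := hM (t, WithLp.ofLp y) ⟨⟨ht.1, ht.2.le⟩, hyQ⟩
          simp only at h1
          rw [← e t ht, U8.lft_Q (hout1 t ht) hyQ] at h1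
          have h2 := norm_toLp_le (dn (u t) (WithLp.ofLp y))
          have e4 : (WithLp.toLp 2 (dn (u t) (WithLp.ofLp y)) : E3) = u t y := rfl
          rw [e4] at h2
          have h3 := le_abs_self M
          linarith
        · push Not at hy
          rw [hout1 t ht y hy, norm_zero]
          positivity
      obtain ⟨δ, hδ0, hδ⟩ := small_ball (M := 2 * |M|)
        (mul_pos (sub_pos.2 hε) h.pos)
      obtain ⟨t₀, ht₀, hc⟩ := h.cnc δ hδ0
      have htm : max t₀ 0 ∈ Ico 0 T := ⟨le_max_right _ _, max_lt ht₀ hT0⟩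
      have h1 := hc (max t₀ 0) ⟨le_max_left _ _, htm.2⟩ htm.1
      have h4 := no_conc (E := ip (u 0) (u 0)) (h.smt _ htm).continuous (hout1 _ htm) (hub _ htm)
        (lt_of_lt_of_eq hδ (by ring)) h1
      rw [h.en _ htm] at h4
      exact lt_irrefl _ h4
    refine ⟨hTT', fun t ht => ?_⟩
    exact t_UNT _ T' _ v _ hrc hv (U9.SolT.mono hSol hTT') hv0 t ht
  · intro δ hδ
    obtain ⟨t₀, ht₀, hc⟩ := h.cnc δ hδ
    refine ⟨t₀, ht₀, fun t ht h0 => ?_⟩
    rw [out_int (hout1 t ⟨h0, ht.2⟩) hδ]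
    exact hc t ht h0

end Pool.Agent.N976.EE
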