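import Pool.Agent.N976.EE.Main2
import Pool.Agent.N976.EE.E1
import Pool.Agent.N976.EE.E2
import Pool.Agent.N976.EE.E34
import Pool.Agent.N976.EE.E5
import Pool.Agent.N976.EE.E678
import Pool.Agent.N976.EE.E9
import Pool.Agent.N976.UE.Z1

/-! All the steps together. -/

set_option autoImplicit false

namespace Pool.Agent.N976.EE

theorem all : S_E2 ∧ S_E3 ∧ S_E4 ∧ S_E5 ∧ S_E6 ∧ S_E7 ∧ S_E8 ∧ S_E9 ∧ Pool.Agent.N976.UE.S_Z1 :=
  ⟨t_E2 t_E1, t_E3, t_E4, t_E5, t_E6, t_E7, t_E8, t_E9, Pool.Agent.N976.UE.t_Z1⟩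

end Pool.Agent.N976.EE
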