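import Pool.Agent.N976.EE.Def2

/-! Assembly: energy concentration for the Euler equations. -/

open Set Filter Topology MeasureTheory
open scoped ContDiff InnerProductSpace

set_option autoImplicit false

namespace Pool.Agent.N976.EE

open Pool.Agent.N976.SC Pool.Agent.N976.EN Pool.Agent.N976.UE

namespace Main

/-! ### The tower -/

lemma tw_ge {Q : ℝ} (n : ℕ) : Q ≤ tw Q n := by
  induction n with
  | zero => exact le_rfl
  | succ n ih =>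
    have : tw Q n + 1 ≤ Real.exp (tw Q n) := Real.add_one_le_exp _
    have e : tw Q (n + 1) = Real.exp (tw Q n) := rfl
    rw [e]; linarith

lemma tw_step {Q c : ℝ} (hc : 2 * c ≤ Q) (hQ : 0 < Q) (n : ℕ) : c * tw Q n ≤ tw Q (n + 1) := by
  have h1 : Q ≤ tw Q n := tw_ge n
  have e : tw Q (n + 1) = Real.exp (tw Q n) := rfl
  have h2 : 1 + tw Q n + tw Q n ^ 2 / 2 ≤ Real.exp (tw Q n) :=
    Real.quadratic_le_exp_of_nonneg (by linarith)
  rw [e]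
  nlinarith

section

variable {ε ε' β lam N T : ℝ} {q : ℕ → ℝ} {P : ℕ → E3 → E3} {r : Fin 4 × ℕ → E3 → E3}
  {σ : ℕ → ℝ} {x : ℕ → ℝ → ℝ}

/-- The modes, normalized. -/
noncomputable def Xn (β : ℝ) (x : ℕ → ℝ → ℝ) (n : ℕ) (t : ℝ) : ℝ := β⁻¹ * x n t

lemma smX (h : SmR q T x) : SmR q T (Xn β x) := by
  obtain ⟨y, rfl, hy, hd⟩ := h
  refine ⟨fun k n t => β⁻¹ * y k n t, rfl, ?_, fun k n t ht => (hd k n t ht).const_mul _⟩
  intro k j T' hT'
  obtain ⟨M, hM⟩ := hy k j T' hT'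
  refine ⟨|β⁻¹| * M, fun t ht n => ?_⟩
  have h1 := hM t ht n
  calc q n ^ j * |β⁻¹ * y k n t| = |β⁻¹| * (q n ^ j * |y k n t|) := by rw [abs_mul]; ring
    _ ≤ |β⁻¹| * M := mul_le_mul_of_nonneg_left h1 (abs_nonneg _)

lemma rp (h : SmR q T x) {t : ℝ} (ht : t ∈ Ico 0 T) : ∀ k : ℕ, ∃ M, ∀ n, q n ^ k * |x n t| ≤ M := by
  obtain ⟨y, rfl, hy, -⟩ := h
  intro k
  obtain ⟨M, hM⟩ := hy 0 k t ht.2
  exact ⟨M, fun n => hM t ⟨ht.1, le_rfl⟩ n⟩

/-- Sequences with rapid decay are square summable. -/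
lemma sq_sum {a : ℕ → ℝ} (hq : ∀ n, 4 ≤ q n) (hqq : ∀ n, 4 * q n ≤ q (n + 1))
    (h : ∀ k : ℕ, ∃ M, ∀ n, q n ^ k * |a n| ≤ M) : Summable fun n => a n ^ 2 := by
  obtain ⟨M, hM⟩ := h 1
  have hM0 : 0 ≤ M := le_trans (by have := hq 0; positivity) (hM 0)
  have hqn : ∀ n : ℕ, (4 : ℝ) ^ n ≤ q n := by
    intro n
    induction n with
    | zero => have := hq 0; simp; linarith
    | succ n ih => have := hqq n; rw [pow_succ]; linarith
  have hg : Summable fun n : ℕ => M ^ 2 * (1 / 16 : ℝ) ^ n :=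
    (summable_geometric_of_lt_one (by norm_num) (by norm_num)).mul_left _
  refine Summable.of_nonneg_of_le (fun n => sq_nonneg _) (fun n => ?_) hg
  have h1 := hM n
  rw [pow_one] at h1
  have h2 : (4 : ℝ) ^ n * |a n| ≤ M :=
    (mul_le_mul_of_nonneg_right (hqn n) (abs_nonneg _)).trans h1
  have h3 : ((4 : ℝ) ^ n * |a n|) ^ 2 ≤ M ^ 2 := pow_le_pow_left₀ (by positivity) h2 2
  have h4 : a n ^ 2 * 16 ^ n ≤ M ^ 2 := by
    have e : ((4 : ℝ) ^ n * |a n|) ^ 2 = a n ^ 2 * 16 ^ n := by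
      rw [mul_pow, sq_abs, ← pow_mul, mul_comm n 2, pow_mul]; norm_num; ring
    rwa [e] at h3
  rw [one_div_pow, mul_one_div, le_div_iff₀ (by positivity)]
  exact h4

lemma cont_at (hZ1 : S_Z1) (hT0 : 0 < T)
    (hT : TY q (La q) (fun _ => 1) (fun n => q n ^ 4) (fun _ => 0) β lam N P r)
    (hq : ∀ n, 4 ≤ q n) (hqq : ∀ n, 4 * q n ≤ q (n + 1)) {X : ℕ → ℝ → ℝ} (hX : SmR q T X)
    {t : ℝ} (ht : t ∈ Ico 0 T) : ContDiff ℝ ∞ (gU P X t) := by
  have h1 := (hZ1 T q (La q) _ _ _ β lam N P r X hT0 hT hq hqq hX).1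
  have h2 : ContDiff ℝ ∞ (fun y : E3 => ((t, y) : ℝ × E3)) := contDiff_const.prodMk contDiff_id
  have h3 := h1.comp (h2.contDiffOn (s := univ)) (fun y _ => ⟨ht, mem_univ _⟩)
  exact contDiffOn_univ.1 h3

theorem flw (hZ1 : S_Z1) (hE6 : S_E6) (hE7 : S_E7) (hε0 : 0 < ε) (hε1 : ε ≤ 1 / 2)
    (hT : TY q (La q) (fun _ => 1) (fun n => q n ^ 4) (fun _ => 0) β lam N P r)
    (hq : ∀ n, 4 ≤ q n) (hqq : ∀ n, 4 * q n ≤ q (n + 1)) (hI : DI ε q T σ x) (hS : SmR q T x) :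
    Flw ε T r (fun p t => ly 0 (La q) (fun n => Xn β x n t) p) (gU P (Xn β x)) := by
  have hβ := hT.β0
  have hN := hT.N0
  have hT0 := hI.T0
  have hSX : SmR q T (Xn β x) := smX hS
  have hq1 : ∀ n, 1 ≤ q n := fun n => by linarith [hq n]
  obtain ⟨z1, z2, z3⟩ := hZ1 T q (La q) _ _ _ β lam N P r (Xn β x) hT0 hT hq hqq hSX
  obtain ⟨y, hy0, hyR, hyd⟩ := hSX
  have hSX : SmR q T (Xn β x) := ⟨y, hy0, hyR, hyd⟩
  have hS1 : SmR q T (y 1) := ⟨fun k => y (k + 1), rfl, fun k => hyR (k + 1),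
    fun k => hyd (k + 1)⟩
  -- the time derivative of the modes
  have hdX : ∀ n, ∀ t ∈ Ico 0 T, derivWithin (Xn β x n) (Ico 0 T) t = y 1 n t := by
    intro n t ht
    have := (hyd 0 n t ht).derivWithin (uniqueDiffOn_Ico 0 T t ht)
    rwa [hy0] at this
  have hode : ∀ n, ∀ t ∈ Ico 0 T,
      y 1 n t = β * yq (La q) (fun _ => 0) (fun m => Xn β x m t) n := by
    intro n t ht
    rw [← hdX n t ht]
    have h1 := ((hI.ode n t ht).const_mul β⁻¹).derivWithin (uniqueDiffOn_Ico 0 T t ht)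
    have e : derivWithin (Xn β x n) (Ico 0 T) t =
        β⁻¹ * yq (La q) (fun _ => 0) (fun m => x m t) n := h1
    rw [e]
    unfold yq Xn
    have e1 : ∑ i ∈ Finset.range n, La q i * (β⁻¹ * x i t) =
        β⁻¹ * ∑ i ∈ Finset.range n, La q i * x i t := by
      rw [Finset.mul_sum]
      exact Finset.sum_congr rfl fun i _ => by ring
    have e2 : ∑' m : ℕ, (β⁻¹ * x (n + 1 + m) t) ^ 2 = β⁻¹ ^ 2 * ∑' m : ℕ, x (n + 1 + m) t ^ 2 := by
      rw [← tsum_mul_left]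
      exact tsum_congr fun m => by ring
    rw [e1, e2]
    have e3 : β * β⁻¹ = 1 := mul_inv_cancel₀ hβ.ne'
    have e4 : ∀ s : ℝ, β⁻¹ * s = β * (β⁻¹ * (β⁻¹ * s)) := by
      intro s
      rw [← mul_assoc, e3, one_mul]
    rw [e4]
    split_ifs <;> ring
  have hdt : ∀ t ∈ Ico 0 T, ∀ z, dt T (gU P (Xn β x)) t z = sp P (fun n => y 1 n t) z := by
    intro t ht z
    rw [(z2 t ht).2.2 z]
    have : (fun n => derivWithin (Xn β x n) (Ico 0 T) t) = fun n => y 1 n t := by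
      ext1 n
      exact hdX n t ht
    rw [this]
  have hres : ∀ t ∈ Ico 0 T,
      (∀ z, HasSum (fun p => ly 0 (La q) (fun n => Xn β x n t) p • r p z)
        (dt T (gU P (Xn β x)) t z + adv (gU P (Xn β x) t) (gU P (Xn β x) t) z)) ∧
      ∀ v : E3 → E3, LocallyIntegrable v volume → (∀ p, ip v (r p) = 0) →
        ip v (fun z => dt T (gU P (Xn β x)) t z + adv (gU P (Xn β x) t) (gU P (Xn β x) t) z) = 0 := by
    intro t ht
    have h1 := hE6 q β lam N P r hT hq hqq (fun n => Xn β x n t) (fun n => y 1 n t)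
      (rp hSX ht) (rp hS1 ht) (fun n => hode n t ht)
    simp only [hdt t ht]
    exact h1
  have hprod : ∀ t ∈ Ico 0 T, ip (gU P (Xn β x) t) (gU P (Xn β x) t) =
      N * (β⁻¹ ^ 2 * ∑' m, x m 0 ^ 2) := by
    intro t ht
    obtain ⟨h1, -, -⟩ := hE7 q β lam N P r hT hq hqq (fun n => Xn β x n t) (rp hSX ht)
    have h2 : ip (gU P (Xn β x) t) (gU P (Xn β x) t) = N * ∑' n, Xn β x n t ^ 2 := h1
    rw [h2, ← hI.en t ht]
    congr 1
    rw [← tsum_mul_left]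
    exact tsum_congr fun m => by unfold Xn; ring
  have h00 : (0 : ℝ) ∈ Ico 0 T := ⟨le_rfl, hT0⟩
  have hbig : 1 ≤ ∑' m, x m 0 ^ 2 := by
    have h1 : Summable fun m => x m 0 ^ 2 := sq_sum hq hqq (rp hS h00)
    have h2 := h1.le_tsum 0 (fun m _ => sq_nonneg _)
    rw [hI.ini0] at h2
    linarith
  have hE : 0 < N * (β⁻¹ ^ 2 * ∑' m, x m 0 ^ 2) := by
    have : 0 < ∑' m, x m 0 ^ 2 := by linarith
    positivity
  refine ⟨hT0, hT.rsm, ?_, z1, fun t ht => cont_at hZ1 hT0 hT hq hqq hSX ht,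
    fun t ht => (z2 t ht).1, fun t ht => (z2 t ht).2.1, ?_, fun t ht => (hres t ht).1, ?_, ?_, ?_,
    ?_, ?_⟩
  · rintro ⟨i, n⟩ z hz
    rcases n with _ | n
    · apply hT.rout0
      nlinarith [hq1 0]
    · apply hT.rout
      nlinarith [hq1 n]
  · intro t ht p
    exact (hE7 q β lam N P r hT hq hqq (fun n => Xn β x n t) (rp hSX ht)).2.1 p
  · intro t ht
    have h1 : Continuous (gU P (y 1) t) := (cont_at hZ1 hT0 hT hq hqq hS1 ht).continuous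
    have h2 : ContDiff ℝ ∞ (gU P (Xn β x) t) := cont_at hZ1 hT0 hT hq hqq hSX ht
    have h3 : Continuous (fderiv ℝ (gU P (Xn β x) t)) := h2.continuous_fderiv (by simp)
    have h4 : Continuous fun z => adv (gU P (Xn β x) t) (gU P (Xn β x) t) z :=
      h3.clm_apply h2.continuous
    refine (h1.add h4).congr fun z => ?_
    rw [hdt t ht z]
    rfl
  · intro t ht v hv hc
    exact (hres t ht).2 v hv.locallyIntegrable hc
  · intro t ht
    rw [hprod t ht, hprod 0 h00]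
  · rw [hprod 0 h00]
    exact hE
  · intro δ hδ
    obtain ⟨n₀, hn₀⟩ : ∃ n₀, ∀ n ≥ n₀, 1 / 2 ≤ q n ^ 2 * δ := by
      have hqn : ∀ n : ℕ, (n : ℝ) + 1 ≤ q n := by
        intro n
        induction n with
        | zero => have := hq 0; push_cast; linarith
        | succ n ih => have := hqq n; have := hq n; push_cast; linarith
      obtain ⟨n₀, hn₀⟩ := exists_nat_ge (1 / δ)
      refine ⟨n₀, fun n hn => ?_⟩
      have h1 := hqn n
      have h2 : (n₀ : ℝ) ≤ n := by exact_mod_cast hn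
      have h3 : 1 / δ ≤ q n := by linarith
      rw [div_le_iff₀ hδ] at h3
      nlinarith [hq n]
    refine ⟨σ n₀, hI.σT n₀, fun t ht h0 => ?_⟩
    have htm : t ∈ Ico 0 T := ⟨h0, ht.2⟩
    obtain ⟨-, -, k3⟩ := hE7 q β lam N P r hT hq hqq (fun n => Xn β x n t) (rp hSX htm)
    refine (k3 δ n₀ hδ hn₀).trans ?_
    rw [hprod 0 h00]
    have k4 : ∑ n ∈ Finset.range n₀, Xn β x n t ^ 2 ≤ β⁻¹ ^ 2 * (ε ^ 2 * (4 / 3)) := by
      have k5 : ∀ n ∈ Finset.range n₀, Xn β x n t ^ 2 ≤ β⁻¹ ^ 2 * ε ^ 2 * (1 / 4) ^ n := by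
        intro n hn
        have hn' := Finset.mem_range.1 hn
        have k6 := hI.left n t ⟨(hI.σm.monotone (by omega : n + 1 ≤ n₀)).trans ht.1, ht.2⟩
        have k7 : x n t ^ 2 ≤ (ε / 2 ^ n) ^ 2 := by
          rw [← sq_abs]
          exact pow_le_pow_left₀ (abs_nonneg _) k6 2
        have k8 : (ε / 2 ^ n) ^ 2 = ε ^ 2 * (1 / 4) ^ n := by
          rw [div_pow, ← pow_mul, mul_comm n 2, pow_mul, one_div_pow]
          norm_num
          ring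
        rw [k8] at k7
        calc Xn β x n t ^ 2 = β⁻¹ ^ 2 * x n t ^ 2 := by unfold Xn; ring
          _ ≤ β⁻¹ ^ 2 * (ε ^ 2 * (1 / 4) ^ n) := mul_le_mul_of_nonneg_left k7 (by positivity)
          _ = β⁻¹ ^ 2 * ε ^ 2 * (1 / 4) ^ n := by ring
      refine (Finset.sum_le_sum k5).trans ?_
      rw [← Finset.mul_sum]
      have k11 : ∑ n ∈ Finset.range n₀, (1 / 4 : ℝ) ^ n ≤ 4 / 3 := by
        refine (Summable.sum_le_tsum _ (fun n _ => by positivity)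
          (summable_geometric_of_lt_one (by norm_num) (by norm_num))).trans ?_
        rw [tsum_geometric_of_lt_one (by norm_num) (by norm_num)]
        norm_num
      have k12 : 0 ≤ β⁻¹ ^ 2 * ε ^ 2 := by positivity
      nlinarith
    have k13 : ε ^ 2 * (4 / 3) ≤ ε * ∑' m, x m 0 ^ 2 := by nlinarith
    have k14 : 0 ≤ β⁻¹ ^ 2 := by positivity
    calc N * ∑ n ∈ Finset.range n₀, Xn β x n t ^ 2 ≤ N * (β⁻¹ ^ 2 * (ε ^ 2 * (4 / 3))) :=
          mul_le_mul_of_nonneg_left k4 hN.le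
      _ ≤ N * (β⁻¹ ^ 2 * (ε * ∑' m, x m 0 ^ 2)) :=
          mul_le_mul_of_nonneg_left (mul_le_mul_of_nonneg_left k13 k14) hN.le
      _ = ε * (N * (β⁻¹ ^ 2 * ∑' m, x m 0 ^ 2)) := by ring

end

end Main

open Main

/-- The main theorem on `ℝ³`. -/
theorem mainR (hE2 : S_E2) (hE3 : S_E3) (hE4 : S_E4) (hE5 : S_E5) (hE6 : S_E6) (hE7 : S_E7)
    (hE8 : S_E8) (hZ1 : S_Z1) (ε R₀ : ℝ) (hε : 0 < ε) (hε1 : ε ≤ 1 / 2) :
    ∃ (Q T : ℝ) (r : Fin 4 × ℕ → E3 → E3) (l : Fin 4 × ℕ → ℝ → ℝ) (u : ℝ → E3 → E3),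
      R₀ ≤ Q ∧ 4 ≤ Q ∧ Flw ε T r l u ∧ (∀ n, r (3, n) = fun _ => 0) ∧
      (∀ i y, 1 ≤ Q * ‖y‖ → r (i, 0) y = 0) ∧
      (∀ i n y, 1 ≤ tw Q n * ‖y‖ → r (i, n + 1) y = 0) ∧
      (∀ p, ContDiffOn ℝ ∞ (l p) (Ico 0 T)) ∧
      ∀ k : ℕ, ∀ T' < T, ∃ M, ∀ t ∈ Icc 0 T', ∀ i n, tw Q n ^ k * |l (i, n) t| ≤ M := by
  obtain ⟨Q₀, h2⟩ := hE2 ε hε
  obtain ⟨Q₁, β, lam, N, h5⟩ := hE5
  obtain ⟨Q, hQ⟩ : ∃ Q, Q = max (max Q₀ R₀) (max (2 * Q₁) (max Q₁ 8)) := ⟨_, rfl⟩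
  have q1 : Q₀ ≤ Q := by rw [hQ]; exact (le_max_left _ _).trans (le_max_left _ _)
  have q2 : R₀ ≤ Q := by rw [hQ]; exact (le_max_right _ _).trans (le_max_left _ _)
  have q3 : 2 * Q₁ ≤ Q := by rw [hQ]; exact (le_max_left _ _).trans (le_max_right _ _)
  have q4 : Q₁ ≤ Q := by
    rw [hQ]; exact ((le_max_left _ _).trans (le_max_right _ _)).trans (le_max_right _ _)
  have q5 : 8 ≤ Q := by
    rw [hQ]; exact ((le_max_right _ _).trans (le_max_right _ _)).trans (le_max_right _ _)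
  have hQ0 : 0 < Q := by linarith
  have hq4 : ∀ n, 4 ≤ tw Q n := fun n => by have := tw_ge (Q := Q) n; linarith
  have hqq : ∀ n, 4 * tw Q n ≤ tw Q (n + 1) := tw_step (by linarith) hQ0
  obtain ⟨P, r, hr3, hT⟩ := h5 (tw Q) (fun n => q4.trans (tw_ge n)) (tw_step q3 hQ0)
  obtain ⟨T, σ, x, hI⟩ := hE3 ε Q (by linarith) hε (h2 Q q1)
  have hS := hE4 ε Q T σ x (by linarith) hI
  have hF := flw hZ1 hE6 hE7 hε hε1 hT hq4 hqq hI hS
  obtain ⟨l1, l2⟩ := hE8 (tw Q) T (Xn β x) hq4 hqq hI.T0 (smX hS)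
  have hsq : ∀ n (s : ℝ), 0 ≤ s → 1 ≤ tw Q n * s → 1 ≤ tw Q n ^ 2 * s := by
    intro n s hs h
    have h1 := hq4 n
    have h2 : tw Q n * s ≤ tw Q n ^ 2 * s := by
      rw [sq, mul_assoc]
      exact le_mul_of_one_le_left (by positivity) (by linarith)
    linarith
  exact ⟨Q, T, r, _, _, q2, by linarith, hF, hr3,
    fun i y hy => hT.rout0 i y (hsq 0 _ (norm_nonneg _) hy),
    fun i n y hy => hT.rout i n y (hsq n _ (norm_nonneg _) hy), l1, l2⟩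

end Pool.Agent.N976.EE
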