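import Pool.Agent.N976.EE.Main

/-! Assembly: energy concentration for the Euler equations on the torus. -/

open Set Filter Topology MeasureTheory
open scoped ContDiff InnerProductSpace

set_option autoImplicit false

namespace Pool.Agent.N976.EE

open Pool.Agent.N976.SC Pool.Agent.N976.EN Pool.Agent.N976.UE Pool.Agent.N976.EC

/-- The main theorem on the torus. -/
theorem mainT_of (hE2 : S_E2) (hE3 : S_E3) (hE4 : S_E4) (hE5 : S_E5) (hE6 : S_E6) (hE7 : S_E7)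
    (hE8 : S_E8) (hE9 : S_E9) (hZ1 : S_Z1) (ε R₀ : ℝ) (hε : 0 < ε) :
    ∃ (R T : ℝ) (r : Fin 4 × ℕ → V → V) (u : ℝ → V → V) (l : Fin 4 × ℕ → ℝ → ℝ),
      R₀ ≤ R ∧ 1 < R ∧ 0 < T ∧ (∀ p, ContDiff ℝ ∞ (r p)) ∧
      (∀ i x, 1 ≤ R ^ 2 * ∑ j, x j ^ 2 → r (i, 0) x = 0) ∧
      (∀ i n x, 1 ≤ tw R n ^ 2 * ∑ j, x j ^ 2 → r (i, n + 1) x = 0) ∧
      SolT r T u ∧ ContDiffOn ℝ ∞ (fun z : ℝ × V => u z.1 z.2) (Ico 0 T ×ˢ univ) ∧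
      (∀ t ∈ Ico 0 T, ∀ x ∈ Q, 1 ≤ ∑ j, x j ^ 2 → u t x = 0) ∧
      (∀ p, ContDiffOn ℝ ∞ (l p) (Ico 0 T)) ∧
      (∀ k : ℕ, ∀ T' < T, ∃ M, ∀ t ∈ Icc 0 T', ∀ i n, tw R n ^ k * |l (i, n) t| ≤ M) ∧
      (∀ t ∈ Ico 0 T, ∀ x ∈ Q, HasSum (fun p => l p t • r p x) (resT T u t x)) ∧
      (∀ (T' : ℝ) (v : ℝ → V → V), 0 < T' → SolT r T' v → v 0 = u 0 →
        T' ≤ T ∧ ∀ t ∈ Ico 0 T', v t = u t) ∧
      0 < ipT (u 0) (u 0) ∧ (∀ t ∈ Ico 0 T, ipT (u t) (u t) = ipT (u 0) (u 0)) ∧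
      ∀ δ > 0, ∃ t₀ < T, ∀ t ∈ Ico t₀ T, 0 ≤ t →
        ∫ x in {x : V | x ∈ Q ∧ δ ^ 2 ≤ ∑ i, x i ^ 2}, ∑ i, u t x i ^ 2 ≤
          ε * ipT (u 0) (u 0) := by
  obtain ⟨ε₁, h1, h2, h3⟩ : ∃ ε₁ : ℝ, 0 < ε₁ ∧ ε₁ ≤ 1 / 2 ∧ ε₁ ≤ ε :=
    ⟨min (1 / 2) ε, by positivity, min_le_left _ _, min_le_right _ _⟩
  obtain ⟨R, T, r, l, u, hR, hR4, hF, -, hr0, hr1, l1, l2⟩ :=
    mainR hE2 hE3 hE4 hE5 hE6 hE7 hE8 hZ1 ε₁ R₀ h1 h2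
  obtain ⟨s1, s2, s3, s4, s5, s6, s7⟩ := hE9 ε₁ T r l u (by linarith) hF
  have hR0 : 0 < R := by linarith
  have hsm : ∀ v : E3 → E3, ContDiff ℝ ∞ v → ContDiff ℝ ∞ (dn v) := by
    intro v hv
    exact ((PiLp.continuousLinearEquiv 2 ℝ (fun _ : Fin 3 => ℝ)).contDiff (n := ∞)).comp
      (hv.comp (PiLp.continuousLinearEquiv 2 ℝ (fun _ : Fin 3 => ℝ)).symm.contDiff)
  have hsq : ∀ (A : ℝ) (x : V), 0 < A → 1 ≤ A ^ 2 * ∑ j, x j ^ 2 →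
      1 ≤ A * ‖(WithLp.toLp 2 x : E3)‖ := by
    intro A x hA h
    rw [← U9.sq_norm, ← mul_pow] at h
    by_contra hcon
    push Not at hcon
    have h0 : 0 ≤ A * ‖(WithLp.toLp 2 x : E3)‖ := by positivity
    have : (A * ‖(WithLp.toLp 2 x : E3)‖) ^ 2 < 1 := by nlinarith
    linarith
  have hdn : ∀ (v : E3 → E3) (x : V), v (WithLp.toLp 2 x) = 0 → dn v x = 0 := by
    intro v x h
    ext i
    unfold dn
    rw [h]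
    rfl
  have hE0 : ipT (lft (u 0)) (lft (u 0)) = ip (u 0) (u 0) := s6 0 ⟨le_rfl, hF.T0⟩
  refine ⟨R, T, fun p => dn (r p), fun t => lft (u t), l, hR, by linarith, hF.T0,
    fun p => hsm _ (hF.rsm p), ?_, ?_, s1, s2, s3, l1, l2, s4, s5, ?_, ?_, ?_⟩
  · intro i x hx
    exact hdn _ x (hr0 i _ (hsq R x hR0 hx))
  · intro i n x hx
    have : 0 < tw R n := lt_of_lt_of_le hR0 (Main.tw_ge n)
    exact hdn _ x (hr1 i n _ (hsq (tw R n) x this hx))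
  · show 0 < ipT (lft (u 0)) (lft (u 0))
    rw [hE0]
    exact hF.pos
  · intro t ht
    show ipT (lft (u t)) (lft (u t)) = ipT (lft (u 0)) (lft (u 0))
    rw [hE0, s6 t ht]
  · intro δ hδ
    obtain ⟨t₀, k1, k2⟩ := s7 δ hδ
    refine ⟨t₀, k1, fun t ht h0 => (k2 t ht h0).trans ?_⟩
    show ε₁ * ip (u 0) (u 0) ≤ ε * ipT (lft (u 0)) (lft (u 0))
    rw [hE0]
    exact mul_le_mul_of_nonneg_right h3 hF.pos.le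

end Pool.Agent.N976.EE
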